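import Pool.Agent.HG13.Chain

/-!
# Commuting representations of one group

`m` commuting representations of a group `H` on one space; `K` is a perfect normal subgroup of `H`
which is killed by all irreducible representations of dimension `< d`.
-/

set_option autoImplicit false
set_option linter.all false

namespace Pool.Agent.QB54

open Pool.Agent.HG13

universe u w

/-- `K` is perfect and irreducible representations of dimension `< d` kill `K`. -/
structure Low {H : Type w} [Group H] (K : Subgroup H) (d : ℕ) : Prop where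
  perfect : ⁅K, K⁆ = K
  low : ∀ (S : Type u) [AddCommGroup S] [Module ℂ S] [FiniteDimensional ℂ S]
    (σ : H →* Module.End ℂ S), Irr σ → Module.finrank ℂ S < d → ∀ k ∈ K, σ k = 1

section gen

variable {H : Type w} [Group H] (K : Subgroup H) {V : Type u} [AddCommGroup V] [Module ℂ V]

/-- The augmentation space of `K` in a representation. -/
def AugK (σ : H →* Module.End ℂ V) : Submodule ℂ (Module.End ℂ V) :=
  Submodule.span ℂ {φ | ∃ k ∈ K, φ = σ k - 1}

-- MODULE GE1
private theorem GE1_mem (σ : H →* Module.End ℂ V) {k : H} (hk : k ∈ K) :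
    σ k - 1 ∈ AugK K σ := Submodule.subset_span ⟨k, hk, rfl⟩

private theorem GE1_sub (σ : H →* Module.End ℂ V) {k l : H} (hk : k ∈ K) (hl : l ∈ K) :
    σ k - σ l ∈ AugK K σ := by
  have h := (AugK K σ).sub_mem (GE1_mem K σ hk) (GE1_mem K σ hl)
  rwa [sub_sub_sub_cancel_right] at h

open scoped commutatorElement in
private theorem GE1_aux (hK : ⁅K, K⁆ = K) (σ : H →* Module.End ℂ V) :
    AugK K σ * AugK K σ = AugK K σ := by
  apply le_antisymm
  · rw [Submodule.mul_le]
    intro m hm n hn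
    refine Submodule.span_induction (p := fun m _ => m * n ∈ AugK K σ) ?_ ?_ ?_ ?_ hm
    · rintro x ⟨k, hk, rfl⟩
      refine Submodule.span_induction (p := fun n _ => (σ k - 1) * n ∈ AugK K σ) ?_ ?_ ?_ ?_ hn
      · rintro y ⟨l, hl, rfl⟩
        have h1 : (σ k - 1) * (σ l - 1) = (σ (k * l) - 1) - (σ k - 1) - (σ l - 1) := by
          rw [map_mul]
          noncomm_ring
        rw [h1]
        exact (AugK K σ).sub_mem ((AugK K σ).sub_mem (GE1_mem K σ (K.mul_mem hk hl))
          (GE1_mem K σ hk)) (GE1_mem K σ hl)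
      · rw [mul_zero]
        exact (AugK K σ).zero_mem
      · intro x y _ _ hx hy
        rw [mul_add]
        exact (AugK K σ).add_mem hx hy
      · intro c x _ hx
        rw [mul_smul_comm]
        exact (AugK K σ).smul_mem c hx
    · rw [zero_mul]
      exact (AugK K σ).zero_mem
    · intro x y _ _ hx hy
      rw [add_mul]
      exact (AugK K σ).add_mem hx hy
    · intro c x _ hx
      rw [smul_mul_assoc]
      exact (AugK K σ).smul_mem c hx
  · refine Submodule.span_le.2 ?_
    rintro φ ⟨k, hk, rfl⟩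
    rw [← hK] at hk
    have hk' : k ∈ Subgroup.closure {g | ∃ g₁ ∈ K, ∃ g₂ ∈ K, ⁅g₁, g₂⁆ = g} := hk
    refine (Subgroup.closure_induction (p := fun k _ => k ∈ K ∧ σ k - 1 ∈ AugK K σ * AugK K σ)
      ?_ ?_ ?_ ?_ hk').2
    · rintro g ⟨x, hx, y, hy, rfl⟩
      have hxi := K.inv_mem hx
      have hyi := K.inv_mem hy
      refine ⟨?_, ?_⟩
      · rw [commutatorElement_def]
        exact K.mul_mem (K.mul_mem (K.mul_mem hx hy) hxi) hyi
      · have h1 : σ ⁅x, y⁆ - 1 = (σ x - 1) * (σ (y * x⁻¹ * y⁻¹) - σ (x⁻¹ * y⁻¹)) -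
            (σ y - 1) * (σ (x * x⁻¹ * y⁻¹) - σ (x⁻¹ * y⁻¹)) := by
          rw [commutatorElement_def]
          have e1 : σ (x * y * x⁻¹ * y⁻¹) = σ x * σ (y * x⁻¹ * y⁻¹) := by
            rw [← map_mul]; group
          have e2 : σ (x * x⁻¹ * y⁻¹) = σ x * σ (x⁻¹ * y⁻¹) := by
            rw [← map_mul]; group
          have e3 : σ (y * x⁻¹ * y⁻¹) = σ y * σ (x⁻¹ * y⁻¹) := by
            rw [← map_mul]; group
          have e4 : (1 : Module.End ℂ V) = σ y * σ (x * x⁻¹ * y⁻¹) := by
            rw [← map_mul, mul_inv_cancel, one_mul, mul_inv_cancel, map_one]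
          rw [e1, e3]
          nth_rewrite 1 [e4]
          rw [e2]
          noncomm_ring
        rw [h1]
        exact (AugK K σ * AugK K σ).sub_mem
          (Submodule.mul_mem_mul (GE1_mem K σ hx) (GE1_sub K σ
            (K.mul_mem (K.mul_mem hy hxi) hyi) (K.mul_mem hxi hyi)))
          (Submodule.mul_mem_mul (GE1_mem K σ hy) (GE1_sub K σ
            (K.mul_mem (K.mul_mem hx hxi) hyi) (K.mul_mem hxi hyi)))
    · refine ⟨K.one_mem, ?_⟩
      rw [map_one, sub_self]
      exact (AugK K σ * AugK K σ).zero_mem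
    · rintro k l _ _ ⟨hk1, hk2⟩ ⟨hl1, hl2⟩
      refine ⟨K.mul_mem hk1 hl1, ?_⟩
      have h1 : σ (k * l) - 1 = (σ k - 1) * (σ l - 1) + (σ k - 1) + (σ l - 1) := by
        rw [map_mul]
        noncomm_ring
      rw [h1]
      exact (AugK K σ * AugK K σ).add_mem ((AugK K σ * AugK K σ).add_mem
        (Submodule.mul_mem_mul (GE1_mem K σ hk1) (GE1_mem K σ hl1)) hk2) hl2
    · rintro k _ ⟨hk1, hk2⟩
      refine ⟨K.inv_mem hk1, ?_⟩
      have h1 : σ k⁻¹ - 1 = -((σ k⁻¹ - 1) * (σ k - 1)) - (σ k - 1) := by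
        have e1 : σ k⁻¹ * σ k = 1 := by rw [← map_mul, inv_mul_cancel, map_one]
        have e2 : (σ k⁻¹ - 1) * (σ k - 1) = σ k⁻¹ * σ k - σ k⁻¹ - σ k + 1 := by noncomm_ring
        rw [e2, e1]
        abel
      rw [h1]
      exact (AugK K σ * AugK K σ).sub_mem ((AugK K σ * AugK K σ).neg_mem
        (Submodule.mul_mem_mul (GE1_mem K σ (K.inv_mem hk1)) (GE1_mem K σ hk1))) hk2

/-- The augmentation space is idempotent. (Adapt Aug_mul_self, AU1 of HG13: team-store HG13_AU1.lean.)
PROOF. ≤: (σ k - 1)(σ k' - 1) = (σ (k k') - 1) - (σ k - 1) - (σ k' - 1). ≥: U = {k ∈ K : σ k - 1 ∈ Aug * Aug} is a subgroup: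
σ(k k') - 1 = (σ k - 1)(σ k' - 1) + (σ k - 1) + (σ k' - 1); σ(k⁻¹) - 1 = -(σ k⁻¹ - 1)(σ k - 1) - (σ k - 1). It contains the commutators of
x, y ∈ K: σ[x,y] - 1 = (σx - 1) * (σ(y x⁻¹ y⁻¹) - σ(x⁻¹ y⁻¹)) - (σy - 1) * (σ(x x⁻¹ y⁻¹) - σ(x⁻¹ y⁻¹)), and σ k - σ k' ∈ Aug for k, k' ∈ K. K is perfect. -/
theorem AugK_mul_self (hK : ⁅K, K⁆ = K) (σ : H →* Module.End ℂ V) :
    AugK K σ * AugK K σ = AugK K σ := by
  exact GE1_aux K hK σ
-- END GE1

/-- A representation which commutes with `ρ` acts on the equivariant maps `S → V`. -/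
def actF {S : Type u} [AddCommGroup S] [Module ℂ S]
    (σ : H →* Module.End ℂ S) (ρ : H →* Module.End ℂ V) (τ : H →* Module.End ℂ V)
    (hc : ∀ x y, Commute (τ x) (ρ y)) : H →* Module.End ℂ (Eqv σ ρ) where
  toFun x :=
    { toFun := fun f => ⟨(τ x) ∘ₗ f.1, by
        intro y s
        have h := f.2 y s
        have h' := LinearMap.congr_fun (hc x y).eq (f.1 s)
        simp only [Module.End.mul_apply] at h'
        simp only [LinearMap.comp_apply]
        rw [h, h']⟩
      map_add' := by intro f f'; ext s; simp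
      map_smul' := by intro c f; ext s; simp }
  map_one' := by ext f s; simp
  map_mul' x y := by ext f s; simp

-- MODULE GE2
/-- CLAIM A: if for every i ∈ I no non-zero vector is fixed by K under ρ i, then d^|I| ≤ dim V. (Adapt claimA, CN2 of QR80: whole file team-store QR80_CN14.lean, or QR80_CN1.lean.)
PROOF. Induction on I (Finset.induction_on, for all V). I = ∅: 1 ≤ dim V. I = insert k I', k ∉ I': exists_irr for ρ k: W, hW, σ := resR (ρ k) W hW irreducible.
dim W ≥ d: otherwise K acts trivially under σ (hL.low), so a non-zero w ∈ W is fixed by ρ k K, contradiction. M := Eqv σ (ρ k) ≠ 0 (W.subtype is in it). ρ' j := actF σ (ρ k) (ρ j) _ for j ∈ I', ρ' j := 1 for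
other j. They commute: (ρ' j x f) s = ρ j x (f s). No fixed vectors: f ∈ M fixed by ρ' j K: ρ j x (f s) = f s for all s and x ∈ K, so f s = 0. Induction hypothesis: d^|I'| ≤ dim M; hom_dim: dim W * dim M ≤ dim V. -/
theorem claimA {d : ℕ} (hL : Low.{u, w} K d) (I : Finset ℕ) : ∀ (V : Type u) [AddCommGroup V]
    [Module ℂ V] [FiniteDimensional ℂ V] [Nontrivial V] (ρ : ℕ → (H →* Module.End ℂ V)),
    (∀ i ∈ I, ∀ j ∈ I, i ≠ j → ∀ x y, Commute (ρ i x) (ρ j y)) →
    (∀ i ∈ I, ∀ v, (∀ k ∈ K, ρ i k v = v) → v = 0) →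
    d ^ I.card ≤ Module.finrank ℂ V := by
  classical
  induction I using Finset.induction_on with
  | empty =>
    intro V _ _ _ _ ρ _ _
    rw [Finset.card_empty, pow_zero]
    exact Module.finrank_pos
  | insert k I hk ih =>
    intro V _ _ _ _ ρ hρ hfix
    obtain ⟨W, hW, hirr⟩ := exists_irr (ρ k)
    have hkI : k ∈ insert k I := Finset.mem_insert_self _ _
    have hWn : Nontrivial W := hirr.1
    have hres : ∀ x (w : W), ((resR (ρ k) W hW x w : W) : V) = ρ k x w := fun x w => rfl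
    have hd : d ≤ Module.finrank ℂ W := by
      by_contra hlt
      push Not at hlt
      have h1 := hL.low W (resR (ρ k) W hW) hirr hlt
      obtain ⟨w, hw⟩ := exists_ne (0 : W)
      apply hw
      apply Subtype.ext
      refine hfix k hkI _ ?_
      intro x hx
      rw [← hres, h1 x hx]
      rfl
    let M := Eqv (resR (ρ k) W hW) (ρ k)
    have hM : Nontrivial M := by
      refine ⟨⟨⟨W.subtype, fun x s => rfl⟩, 0, ?_⟩⟩
      intro h0
      obtain ⟨w, hw⟩ := exists_ne (0 : W)
      apply hw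
      apply Subtype.ext
      exact LinearMap.congr_fun (congrArg Subtype.val h0) w
    have hc : ∀ j ∈ I, ∀ x y, Commute (ρ j x) (ρ k y) := by
      intro j hj x y
      refine hρ j (Finset.mem_insert_of_mem hj) k hkI ?_ x y
      rintro rfl
      exact hk hj
    let ρ' : ℕ → (H →* Module.End ℂ M) := fun j =>
      if h : j ∈ I then actF (resR (ρ k) W hW) (ρ k) (ρ j) (hc j h) else 1
    have hρ' : ∀ j ∈ I, ∀ x (f : M) (s : W), (ρ' j x f).1 s = ρ j x (f.1 s) := by
      intro j hj x f s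
      simp only [ρ', dif_pos hj]
      rfl
    have hext : ∀ f f' : M, (∀ s, f.1 s = f'.1 s) → f = f' := fun f f' h =>
      Subtype.ext (LinearMap.ext h)
    have hcm : ∀ i ∈ I, ∀ j ∈ I, i ≠ j → ∀ x y, Commute (ρ' i x) (ρ' j y) := by
      intro i hi j hj hij x y
      apply LinearMap.ext
      intro f
      apply hext
      intro s
      rw [Module.End.mul_apply, Module.End.mul_apply, hρ' i hi, hρ' j hj, hρ' j hj, hρ' i hi]
      exact LinearMap.congr_fun (hρ i (Finset.mem_insert_of_mem hi) j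
        (Finset.mem_insert_of_mem hj) hij x y).eq (f.1 s)
    have hfix' : ∀ i ∈ I, ∀ f : M, (∀ x ∈ K, ρ' i x f = f) → f = 0 := by
      intro i hi f h1
      apply hext
      intro s
      refine hfix i (Finset.mem_insert_of_mem hi) _ ?_
      intro x hx
      rw [← hρ' i hi, h1 x hx]
    have h3 := ih M ρ' hcm hfix'
    have h4 := hom_dim (resR (ρ k) W hW) (ρ k) hirr
    rw [Finset.card_insert_of_notMem hk, pow_succ]
    calc d ^ I.card * d ≤ Module.finrank ℂ M * Module.finrank ℂ W := Nat.mul_le_mul h3 hd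
      _ = Module.finrank ℂ W * Module.finrank ℂ M := mul_comm _ _
      _ ≤ _ := h4
-- END GE2

/-- Commuting families of representations (below `m`). -/
def CFam (m : ℕ) (ρ : ℕ → (H →* Module.End ℂ V)) : Prop :=
  ∀ q r, q < m → r < m → q ≠ r → ∀ x y, Commute (ρ q x) (ρ r y)

/-- Jointly stable subspace. -/
def StbF (m : ℕ) (ρ : ℕ → (H →* Module.End ℂ V)) (W : Submodule ℂ V) : Prop :=
  ∀ q, q < m → ∀ x, ∀ w ∈ W, ρ q x w ∈ W

/-- Simple section. -/
structure SecF (m : ℕ) (ρ : ℕ → (H →* Module.End ℂ V)) (W1 W2 : Submodule ℂ V) : Prop where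
  s1 : StbF m ρ W1
  s2 : StbF m ρ W2
  lt : W1 < W2
  sim : ∀ W, StbF m ρ W → W1 ≤ W → W ≤ W2 → W = W1 ∨ W = W2

open Classical in
/-- The support of the section: the `q < m` such that `K` does not act trivially on it. -/
noncomputable def supF (m : ℕ) (ρ : ℕ → (H →* Module.End ℂ V)) (W1 W2 : Submodule ℂ V) :
    Finset ℕ :=
  (Finset.range m).filter (fun q => ¬ ∀ k ∈ K, ∀ w ∈ W2, ρ q k w - w ∈ W1)

open Classical in
-- MODULE GE3
/-- The dimension of a jointly irreducible family. (irr_dim, CN4 of QR80.) PROOF. I = the filter. For i ∈ I the subspace U = {v | ∀ k ∈ K, ρ i k v = v} is jointly stable: under ρ j x, j ≠ i (commute), under ρ i x since K is normal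
(ρ i k (ρ i x v) = ρ i x (ρ i (x⁻¹ k x) v)). So U = ⊥ or ⊤; ⊤ contradicts i ∈ I. So U = ⊥ and claimA applies. -/
theorem irr_dimF [K.Normal] {d : ℕ} (hL : Low.{u, w} K d) [FiniteDimensional ℂ V] [Nontrivial V]
    (m : ℕ) (ρ : ℕ → (H →* Module.End ℂ V)) (hc : CFam m ρ)
    (hirr : ∀ W : Submodule ℂ V, StbF m ρ W → W = ⊥ ∨ W = ⊤) :
    d ^ ((Finset.range m).filter (fun q => ¬ ∀ k ∈ K, ρ q k = 1)).card ≤ Module.finrank ℂ V := by
  refine claimA K hL _ V ρ ?_ ?_
  · intro i hi j hj hij x y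
    exact hc i j (Finset.mem_range.1 (Finset.mem_filter.1 hi).1)
      (Finset.mem_range.1 (Finset.mem_filter.1 hj).1) hij x y
  · intro i hi v hv
    have hi' := Finset.mem_range.1 (Finset.mem_filter.1 hi).1
    have hi2 := (Finset.mem_filter.1 hi).2
    let U : Submodule ℂ V :=
      { carrier := {v | ∀ k ∈ K, ρ i k v = v}
        add_mem' := by
          intro x y h1 h2 k hk
          rw [map_add, h1 k hk, h2 k hk]
        zero_mem' := fun k _ => map_zero _
        smul_mem' := by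
          intro c x h1 k hk
          rw [map_smul, h1 k hk] }
    have hU : StbF m ρ U := by
      intro j hj x w hw k hk
      by_cases hij : i = j
      · subst hij
        have h1 : ρ i (x⁻¹ * k * x) w = w := by
          have h2 := Subgroup.Normal.conj_mem ‹K.Normal› k hk x⁻¹
          rw [inv_inv] at h2
          exact hw _ h2
        have h2 : k * x = x * (x⁻¹ * k * x) := by group
        rw [← Module.End.mul_apply, ← map_mul, h2, map_mul, Module.End.mul_apply, h1]
      · rw [← Module.End.mul_apply, (hc i j hi' hj hij k x).eq, Module.End.mul_apply, hw k hk]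
    rcases hirr U hU with h | h
    · have : v ∈ U := hv
      rwa [h, Submodule.mem_bot] at this
    · exfalso
      apply hi2
      intro k hk
      apply LinearMap.ext
      intro w
      have : w ∈ U := by rw [h]; trivial
      exact this k hk
-- END GE3

-- MODULE GE4
/-- The family on a simple section. (sec_quo, CN5 of QR80.) PROOF. For r < m: σ = resR (ρ r) W2 _, W1' = W1.comap W2.subtype (stable under σ), Q = W2 ⧸ W1', q r = quoR σ W1' _; q r = 1 for r ≥ m. Nontrivial: W1 < W2. A jointly stable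
W' ≤ Q: W = (W'.comap W1'.mkQ).map W2.subtype is jointly stable, W1 ≤ W ≤ W2, so W = W1 (W' = ⊥) or W = W2 (W' = ⊤). finrank Q + finrank W1' = finrank W2, finrank W1' = finrank W1. q r x = 1 iff q r x (mk w) = mk w for all
w ∈ W2, iff ρ r x w - w ∈ W1. -/
theorem sec_quoF [FiniteDimensional ℂ V] (m : ℕ) (ρ : ℕ → (H →* Module.End ℂ V)) (hc : CFam m ρ)
    (W1 W2 : Submodule ℂ V) (h : SecF m ρ W1 W2) :
    ∃ (Q : Type u) (_ : AddCommGroup Q) (_ : Module ℂ Q) (_ : FiniteDimensional ℂ Q)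
      (_ : Nontrivial Q) (q : ℕ → (H →* Module.End ℂ Q)), CFam m q ∧
      (∀ W : Submodule ℂ Q, StbF m q W → W = ⊥ ∨ W = ⊤) ∧
      Module.finrank ℂ Q + Module.finrank ℂ W1 = Module.finrank ℂ W2 ∧
      (∀ r, r < m → ∀ x, q r x = 1 ↔ ∀ w ∈ W2, ρ r x w - w ∈ W1) := by
  classical
  let U : Submodule ℂ W2 := W1.comap W2.subtype
  have hle : W1 ≤ W2 := h.lt.le
  have hmem : ∀ w : W2, w ∈ U ↔ (w : V) ∈ W1 := fun _ => Iff.rfl
  let q : ℕ → (H →* Module.End ℂ (W2 ⧸ U)) := fun r =>
    if hr : r < m then quoR (resR (ρ r) W2 (h.s2 r hr)) U (fun x w hw => h.s1 r hr x _ hw) else 1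
  have hq : ∀ r, r < m → ∀ x (w : W2) (hw : ρ r x w ∈ W2),
      q r x (U.mkQ w) = U.mkQ ⟨ρ r x w, hw⟩ := by
    intro r hr x w hw
    simp only [q, dif_pos hr]
    rfl
  refine ⟨W2 ⧸ U, inferInstance, inferInstance, inferInstance, ?_, q, ?_, ?_, ?_, ?_⟩
  · obtain ⟨v, hv, hv1⟩ := SetLike.exists_of_lt h.lt
    refine ⟨⟨U.mkQ ⟨v, hv⟩, 0, fun h0 => hv1 ?_⟩⟩
    exact (Submodule.Quotient.mk_eq_zero U).1 h0
  · intro r s hr hs hrs x y
    apply LinearMap.ext
    intro z
    obtain ⟨w, rfl⟩ := U.mkQ_surjective z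
    rw [Module.End.mul_apply, Module.End.mul_apply, hq s hs y w (h.s2 s hs y w w.2),
      hq r hr x w (h.s2 r hr x w w.2), hq r hr x _ (h.s2 r hr x _ (h.s2 s hs y w w.2)),
      hq s hs y _ (h.s2 s hs y _ (h.s2 r hr x w w.2))]
    congr 1
    apply Subtype.ext
    exact LinearMap.congr_fun (hc r s hr hs hrs x y).eq (w : V)
  · intro W' hW'
    let W : Submodule ℂ V := (W'.comap U.mkQ).map W2.subtype
    have hWm : ∀ w : W2, (w : V) ∈ W ↔ U.mkQ w ∈ W' := by
      intro w
      constructor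
      · rintro ⟨u, hu, huw⟩
        have : u = w := Subtype.ext huw
        rw [← this]
        exact hu
      · intro hw
        exact ⟨w, hw, rfl⟩
    have hWle : W ≤ W2 := by
      rintro _ ⟨u, _, rfl⟩
      exact u.2
    have hst : StbF m ρ W := by
      intro r hr x w hw
      have h1 := (hWm ⟨w, hWle hw⟩).1 hw
      have h2 := hW' r hr x _ h1
      rw [hq r hr x _ (h.s2 r hr x w (hWle hw))] at h2
      exact (hWm _).2 h2
    have h1W : W1 ≤ W := by
      intro w hw
      refine (hWm ⟨w, hle hw⟩).2 ?_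
      have : U.mkQ ⟨w, hle hw⟩ = 0 := (Submodule.Quotient.mk_eq_zero U).2 hw
      rw [this]
      exact W'.zero_mem
    rcases h.sim W hst h1W hWle with h3 | h3
    · left
      rw [eq_bot_iff]
      intro y hy
      obtain ⟨w, rfl⟩ := U.mkQ_surjective y
      have h4 := (hWm w).2 hy
      rw [h3] at h4
      rw [Submodule.mem_bot]
      exact (Submodule.Quotient.mk_eq_zero U).2 h4
    · right
      rw [eq_top_iff]
      intro y _
      obtain ⟨w, rfl⟩ := U.mkQ_surjective y
      refine (hWm w).1 ?_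
      rw [h3]
      exact w.2
  · have h1 := U.finrank_quotient_add_finrank
    have h2 : Module.finrank ℂ U = Module.finrank ℂ W1 :=
      (Submodule.comapSubtypeEquivOfLe hle).finrank_eq
    rw [h2] at h1
    exact h1
  · intro r hr x
    constructor
    · intro h1 w hw
      have h2 := LinearMap.congr_fun h1 (U.mkQ ⟨w, hw⟩)
      rw [hq r hr x _ (h.s2 r hr x w hw), Module.End.one_apply, ← sub_eq_zero, ← map_sub] at h2
      exact (Submodule.Quotient.mk_eq_zero U).1 h2
    · intro h1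
      apply LinearMap.ext
      intro y
      obtain ⟨w, rfl⟩ := U.mkQ_surjective y
      rw [hq r hr x _ (h.s2 r hr x w w.2), Module.End.one_apply, ← sub_eq_zero, ← map_sub]
      exact (Submodule.Quotient.mk_eq_zero U).2 (h1 w w.2)
-- END GE4

-- MODULE GE5
/-- The dimension of a section. (sec_dim, CN6 of QR80.) PROOF. GE4 and GE3; the filter is supF (Finset.filter_congr). -/
theorem sec_dimF [K.Normal] {d : ℕ} (hL : Low.{u, w} K d) [FiniteDimensional ℂ V] (m : ℕ)
    (ρ : ℕ → (H →* Module.End ℂ V)) (hc : CFam m ρ) (W1 W2 : Submodule ℂ V)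
    (h : SecF m ρ W1 W2) :
    d ^ (supF K m ρ W1 W2).card + Module.finrank ℂ W1 ≤ Module.finrank ℂ W2 := by
  classical
  obtain ⟨Q, _, _, _, _, q, h1, h2, h3, h4⟩ := sec_quoF m ρ hc W1 W2 h
  have h5 := irr_dimF K hL m q h1 h2
  have h6 : (supF K m ρ W1 W2).card =
      ((Finset.range m).filter (fun r => ¬ ∀ k ∈ K, q r k = 1)).card := by
    unfold supF
    congr 1
    refine Finset.filter_congr fun r hr => not_congr ?_
    have hr' := Finset.mem_range.1 hr
    refine forall₂_congr fun k hk => ?_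
    exact (h4 r hr' k).symm
  rw [← h3, h6]
  exact Nat.add_le_add_right h5 _
-- END GE5

-- MODULE GE6
/-- Simple sections at the bottom and at the top. (exists_sec, CN7 of QR80.) PROOF. (1) Take a stable U' > U of minimal dimension. (2) Take a stable W1 < W of maximal dimension. -/
theorem exists_secF [FiniteDimensional ℂ V] (m : ℕ) (ρ : ℕ → (H →* Module.End ℂ V))
    (U : Submodule ℂ V) (hU : StbF m ρ U) :
    (U ≠ ⊤ → ∃ U', SecF m ρ U U') ∧ (U ≠ ⊥ → ∃ U', SecF m ρ U' U) := by
  constructor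
  · intro hne
    obtain ⟨M, ⟨hm1, hm2⟩, hm⟩ := (wellFounded_lt (α := Submodule ℂ V)).has_min
      {W | StbF m ρ W ∧ U < W} ⟨⊤, fun q _ x w _ => Submodule.mem_top, lt_top_iff_ne_top.2 hne⟩
    refine ⟨M, hU, hm1, hm2, fun W hW hUW hWm => ?_⟩
    by_cases h : U = W
    · exact Or.inl h.symm
    · right
      by_contra h'
      exact hm W ⟨hW, lt_of_le_of_ne hUW h⟩ (lt_of_le_of_ne hWm h')
  · intro hne
    obtain ⟨M, ⟨hm1, hm2⟩, hm⟩ := (wellFounded_gt (α := Submodule ℂ V)).has_min
      {W | StbF m ρ W ∧ W < U} ⟨⊥, fun q _ x w hw => by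
        rw [(Submodule.mem_bot ℂ).1 hw, map_zero]
        exact Submodule.zero_mem _, bot_lt_iff_ne_bot.2 hne⟩
    refine ⟨M, hm1, hU, hm2, fun W hW hmW hWU => ?_⟩
    by_cases h : W = U
    · exact Or.inr h
    · left
      by_contra h'
      exact hm W ⟨hW, lt_of_le_of_ne hWU h⟩ (lt_of_le_of_ne hmW (Ne.symm h'))
-- END GE6

-- MODULE GE7
private theorem GE7_sup {m : ℕ} {ρ : ℕ → (H →* Module.End ℂ V)} {A B : Submodule ℂ V}
    (hA : StbF m ρ A) (hB : StbF m ρ B) : StbF m ρ (A ⊔ B) := by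
  intro q hq x w hw
  obtain ⟨u, hu, v, hv, rfl⟩ := Submodule.mem_sup.1 hw
  rw [map_add]
  exact Submodule.add_mem_sup (hA q hq x u hu) (hB q hq x v hv)

private theorem GE7_inf {m : ℕ} {ρ : ℕ → (H →* Module.End ℂ V)} {A B : Submodule ℂ V}
    (hA : StbF m ρ A) (hB : StbF m ρ B) : StbF m ρ (A ⊓ B) :=
  fun q hq x w hw => ⟨hA q hq x w hw.1, hB q hq x w hw.2⟩

/-- Pushing a simple section above U'. (push, CN8 of QR80: the same proof.) PROOF. Sums and intersections of stable subspaces are stable. Case 1: W1 ⊔ U' ≠ W2 ⊔ U'. Take W1' = W1 ⊔ U', W2' = W2 ⊔ U'. W2 ⊓ W1' is between W1 and W2; it is not W2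
(else W2' = W1'), so it is W1. Simple: W1' ≤ W ≤ W2' stable. W ⊓ W2 is between W1 and W2. If W ⊓ W2 = W2 then W2 ≤ W, W = W2'. If W ⊓ W2 = W1: W = W ⊓ (W2 ⊔ U') = (W ⊓ W2) ⊔ U' (modular law, U' ≤ W) = W1'. Support: for k ∈ K, (ρ q k - 1) W2' ⊆ W1' iff
(ρ q k - 1) W2 ⊆ W1' (U' is stable) iff (ρ q k - 1) W2 ⊆ W2 ⊓ W1' = W1. Case 2: W1 ⊔ U' = W2 ⊔ U'. Then W2 ≤ W1 ⊔ U', so W2 = W1 ⊔ (W2 ⊓ U') (modular law). U ≤ W2 ⊓ U' ≤ U', so W2 ⊓ U' = U (then W2 = W1 ⊔ U = W1, contradiction) or U': U' ≤ W2,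
W2 = W1 ⊔ U'. W1 ⊓ U' is U or U'; U' would give U' ≤ W1, W2 = W1, contradiction; so W1 ⊓ U' = U. (ρ q k - 1) W2 ⊆ W1 iff (ρ q k - 1) U' ⊆ W1 (W1 is stable, W2 = W1 ⊔ U') iff (ρ q k - 1) U' ⊆ W1 ⊓ U' = U: the supports are equal. -/
theorem pushF (m : ℕ) (ρ : ℕ → (H →* Module.End ℂ V)) (U U' W1 W2 : Submodule ℂ V)
    (hU : SecF m ρ U U') (hW : SecF m ρ W1 W2) (h : U ≤ W1) :
    supF K m ρ W1 W2 = supF K m ρ U U' ∨
      ∃ W1' W2', U' ≤ W1' ∧ SecF m ρ W1' W2' ∧ supF K m ρ W1' W2' = supF K m ρ W1 W2 := by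
  classical
  by_cases hc : W1 ⊔ U' = W2 ⊔ U'
  · left
    have hW2 : W2 ≤ W1 ⊔ U' := hc ▸ le_sup_left
    have h1 : W2 ⊓ U' = U' := by
      rcases hU.sim (W2 ⊓ U') (GE7_inf hW.s2 hU.s2) (le_inf (h.trans hW.lt.le) hU.lt.le)
        inf_le_right with h1 | h1
      · exfalso
        have h2 : W2 ≤ W1 := by
          intro w hw
          obtain ⟨u, hu, v, hv, rfl⟩ := Submodule.mem_sup.1 (hW2 hw)
          have h3 : v ∈ W2 ⊓ U' := by
            refine ⟨?_, hv⟩
            have := W2.sub_mem hw (hW.lt.le hu)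
            rwa [add_sub_cancel_left] at this
          rw [h1] at h3
          exact W1.add_mem hu (h h3)
        exact absurd h2 (not_le_of_gt hW.lt)
      · exact h1
    have hU2 : U' ≤ W2 := inf_eq_right.1 h1
    have h2 : W1 ⊓ U' = U := by
      rcases hU.sim (W1 ⊓ U') (GE7_inf hW.s1 hU.s2) (le_inf h hU.lt.le) inf_le_right with h2 | h2
      · exact h2
      · exfalso
        have h3 : U' ≤ W1 := inf_eq_right.1 h2
        rw [sup_eq_left.2 h3] at hW2
        exact absurd hW2 (not_le_of_gt hW.lt)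
    unfold supF
    refine Finset.filter_congr fun i hi' => not_congr ?_
    have hi := Finset.mem_range.1 hi'
    refine forall₂_congr fun k hk => ⟨fun hi2 w hw => ?_, fun hi2 w hw => ?_⟩
    · rw [← h2]
      exact ⟨hi2 w (hU2 hw), U'.sub_mem (hU.s2 i hi k w hw) hw⟩
    · obtain ⟨u, hu, v, hv, rfl⟩ := Submodule.mem_sup.1 (hW2 hw)
      have e : ρ i k (u + v) - (u + v) = (ρ i k u - u) + (ρ i k v - v) := by
        rw [map_add]
        abel
      rw [e]
      exact W1.add_mem (W1.sub_mem (hW.s1 i hi k u hu) hu) (h (hi2 v hv))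
  · right
    have hinf : W2 ⊓ (W1 ⊔ U') = W1 := by
      rcases hW.sim (W2 ⊓ (W1 ⊔ U')) (GE7_inf hW.s2 (GE7_sup hW.s1 hU.s2))
        (le_inf hW.lt.le le_sup_left) inf_le_left with h1 | h1
      · exact h1
      · exfalso
        apply hc
        refine le_antisymm (sup_le_sup_right hW.lt.le _) (sup_le (inf_eq_left.1 h1) le_sup_right)
    refine ⟨W1 ⊔ U', W2 ⊔ U', le_sup_right, ⟨GE7_sup hW.s1 hU.s2, GE7_sup hW.s2 hU.s2,
      lt_of_le_of_ne (sup_le_sup_right hW.lt.le _) hc, fun W hWs h1 h2 => ?_⟩, ?_⟩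
    · rcases hW.sim (W ⊓ W2) (GE7_inf hWs hW.s2) (le_inf (le_sup_left.trans h1) hW.lt.le)
        inf_le_right with h3 | h3
      · left
        refine le_antisymm (fun w hw => ?_) h1
        obtain ⟨u, hu, v, hv, rfl⟩ := Submodule.mem_sup.1 (h2 hw)
        have h4 : v ∈ W := h1 (le_sup_right (a := W1) hv)
        have h5 : u ∈ W ⊓ W2 := by
          refine ⟨?_, hu⟩
          have := W.sub_mem hw h4
          rwa [add_sub_cancel_right] at this
        rw [h3] at h5
        exact Submodule.add_mem_sup h5 hv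
      · right
        exact le_antisymm h2 (sup_le (inf_eq_right.1 h3) (le_sup_right.trans h1))
    · unfold supF
      refine Finset.filter_congr fun i hi' => not_congr ?_
      have hi := Finset.mem_range.1 hi'
      refine forall₂_congr fun k hk => ⟨fun hi2 w hw => ?_, fun hi2 w hw => ?_⟩
      · rw [← hinf]
        exact ⟨W2.sub_mem (hW.s2 i hi k w hw) hw, hi2 w (le_sup_left (b := U') hw)⟩
      · obtain ⟨u, hu, v, hv, rfl⟩ := Submodule.mem_sup.1 hw
        have e : ρ i k (u + v) - (u + v) = (ρ i k u - u) + (ρ i k v - v) := by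
          rw [map_add]
          abel
        rw [e]
        exact Submodule.add_mem_sup (hi2 u hu) (U'.sub_mem (hU.s2 i hi k v hv) hv)
-- END GE7

open Classical in
/-- The supports of the simple sections above `U`. -/
noncomputable def suppsF (m : ℕ) (ρ : ℕ → (H →* Module.End ℂ V)) (U : Submodule ℂ V) :
    Finset (Finset ℕ) :=
  (Finset.range m).powerset.filter
    (fun I => ∃ W1 W2, U ≤ W1 ∧ SecF m ρ W1 W2 ∧ supF K m ρ W1 W2 = I)

-- MODULE GE8
/-- The sum over the supports. (sum_le, CN9 of QR80.) PROOF. Strong induction on dim V - dim U. If U = ⊤ there is no section above U. Otherwise take SecF U U' (exists_secF). By pushF suppsF U ⊆ insert (supF U U') (suppsF U'), so the sum over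
suppsF U is at most d^|supF U U'| + the sum over suppsF U'; sec_dimF: d^|supF U U'| + dim U ≤ dim U'; induction hypothesis for U'. -/
theorem sum_leF [K.Normal] {d : ℕ} (hL : Low.{u, w} K d) [FiniteDimensional ℂ V] (m : ℕ)
    (ρ : ℕ → (H →* Module.End ℂ V)) (hc : CFam m ρ) (U : Submodule ℂ V) (hU : StbF m ρ U) :
    ∑ I ∈ suppsF K m ρ U, d ^ I.card + Module.finrank ℂ U ≤ Module.finrank ℂ V := by
  classical
  obtain ⟨k, hk⟩ : ∃ k, k = Module.finrank ℂ V - Module.finrank ℂ U := ⟨_, rfl⟩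
  induction k using Nat.strong_induction_on generalizing U with
  | _ k ih =>
    by_cases hT : U = ⊤
    · have he : suppsF K m ρ U = ∅ := by
        rw [suppsF, Finset.filter_eq_empty_iff]
        rintro I - ⟨W1, W2, h1, h2, -⟩
        rw [hT, top_le_iff] at h1
        have h3 := h2.lt
        rw [h1] at h3
        exact not_top_lt h3
      rw [he, Finset.sum_empty, zero_add]
      exact Submodule.finrank_le U
    · obtain ⟨U', hS⟩ := (exists_secF m ρ U hU).1 hT
      have hsub : suppsF K m ρ U ⊆ insert (supF K m ρ U U') (suppsF K m ρ U') := by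
        intro I hI
        rw [suppsF, Finset.mem_filter] at hI
        obtain ⟨hI1, W1, W2, h1, h2, h3⟩ := hI
        rcases pushF K m ρ U U' W1 W2 hS h2 h1 with h4 | ⟨W1', W2', h5, h6, h7⟩
        · rw [← h3, h4]
          exact Finset.mem_insert_self _ _
        · refine Finset.mem_insert_of_mem ?_
          rw [suppsF, Finset.mem_filter]
          exact ⟨hI1, W1', W2', h5, h6, h7.trans h3⟩
      have hlt : Module.finrank ℂ U < Module.finrank ℂ U' :=
        Submodule.finrank_lt_finrank_of_lt hS.lt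
      have hle : Module.finrank ℂ U' ≤ Module.finrank ℂ V := Submodule.finrank_le _
      have h8 := ih _ (by omega) U' hS.s2 rfl
      have h9 := sec_dimF K hL m ρ hc U U' hS
      have h10 : ∑ I ∈ suppsF K m ρ U, d ^ I.card ≤
          d ^ (supF K m ρ U U').card + ∑ I ∈ suppsF K m ρ U', d ^ I.card := by
        refine (Finset.sum_le_sum_of_subset hsub).trans ?_
        by_cases hm : supF K m ρ U U' ∈ suppsF K m ρ U'
        · rw [Finset.insert_eq_of_mem hm]
          exact Nat.le_add_left _ _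
        · rw [Finset.sum_insert hm]
      omega
-- END GE8

-- MODULE GE9
/-- Transport of sections. (sec_swap, CN10 of QR80.) PROOF. A jointly stable W is mapped by δ to a jointly stable subspace: ρ j x (δ w) = δ (ρ (swap p q j) x w) (hδ at swap p q j < m; swap is an involution); the same for comap. map δ is strictly monotone. Simple: W between
W1.map δ and W2.map δ, stable; W.comap δ is stable and between W1 and W2. Support: (ρ j k - 1) (W2.map δ) ⊆ W1.map δ iff (ρ (swap p q j) k - 1) W2 ⊆ W1. So j ∈ supF (map) iff swap p q j ∈ supF W1 W2, iff j ∈ image. -/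
theorem sec_swapF (m : ℕ) (ρ : ℕ → (H →* Module.End ℂ V)) (δ : V ≃ₗ[ℂ] V) (p q : ℕ) (hp : p < m)
    (hq : q < m) (hδ : ∀ j, j < m → ∀ x v, δ (ρ j x v) = ρ (Equiv.swap p q j) x (δ v))
    (W1 W2 : Submodule ℂ V) (h : SecF m ρ W1 W2) :
    SecF m ρ (W1.map (δ : V →ₗ[ℂ] V)) (W2.map (δ : V →ₗ[ℂ] V)) ∧
    supF K m ρ (W1.map (δ : V →ₗ[ℂ] V)) (W2.map (δ : V →ₗ[ℂ] V)) =
      (supF K m ρ W1 W2).image (Equiv.swap p q) := by
  classical
  have hs : ∀ i, i < m → Equiv.swap p q i < m := by
    intro i hi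
    rw [Equiv.swap_apply_def]
    split_ifs
    · exact hq
    · exact hp
    · exact hi
  have ha' : ∀ i, i < m → ∀ x v, ρ i x (δ v) = δ (ρ (Equiv.swap p q i) x v) := by
    intro i hi x v
    rw [hδ _ (hs i hi), Equiv.swap_apply_self]
  have hmap : ∀ W, StbF m ρ W → StbF m ρ (W.map (δ : V →ₗ[ℂ] V)) := by
    intro W hW i hi x
    rintro _ ⟨u, hu, rfl⟩
    exact ⟨ρ (Equiv.swap p q i) x u, hW _ (hs i hi) x u hu, (ha' i hi x u).symm⟩
  have hcomap : ∀ W, StbF m ρ W → StbF m ρ (W.comap (δ : V →ₗ[ℂ] V)) := by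
    intro W hW i hi x u hu
    show δ (ρ i x u) ∈ W
    rw [hδ i hi]
    exact hW _ (hs i hi) x _ hu
  have hinj : Function.Injective (δ : V →ₗ[ℂ] V) := δ.injective
  have hsurj : Function.Surjective (δ : V →ₗ[ℂ] V) := δ.surjective
  refine ⟨⟨hmap _ h.s1, hmap _ h.s2, Submodule.map_strictMono_of_injective hinj h.lt, ?_⟩, ?_⟩
  · intro W hW h1 h2
    have h3 : W1 ≤ W.comap (δ : V →ₗ[ℂ] V) := Submodule.map_le_iff_le_comap.1 h1
    have h4 : W.comap (δ : V →ₗ[ℂ] V) ≤ W2 := by
      have h5 := Submodule.comap_mono (f := (δ : V →ₗ[ℂ] V)) h2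
      rwa [Submodule.comap_map_eq_of_injective hinj] at h5
    have h6 : (W.comap (δ : V →ₗ[ℂ] V)).map (δ : V →ₗ[ℂ] V) = W :=
      Submodule.map_comap_eq_of_surjective hsurj W
    rcases h.sim _ (hcomap W hW) h3 h4 with h7 | h7
    · left
      rw [← h6, h7]
    · right
      rw [← h6, h7]
  · have key : ∀ i, i < m → ((∀ k ∈ K, ∀ w ∈ W2.map (δ : V →ₗ[ℂ] V),
        ρ i k w - w ∈ W1.map (δ : V →ₗ[ℂ] V)) ↔
          ∀ k ∈ K, ∀ w ∈ W2, ρ (Equiv.swap p q i) k w - w ∈ W1) := by
      intro i hi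
      refine forall₂_congr fun k _ => ?_
      constructor
      · intro h1 w hw
        obtain ⟨u, hu, hu2⟩ := h1 (δ w) ⟨w, hw, rfl⟩
        have h2 : ρ (Equiv.swap p q i) k w - w = u := by
          apply hinj
          rw [hu2, ha' i hi, map_sub]
          rfl
        rw [h2]
        exact hu
      · rintro h1 _ ⟨u, hu, rfl⟩
        refine ⟨_, h1 u hu, ?_⟩
        rw [map_sub]
        show δ (ρ (Equiv.swap p q i) k u) - δ u = ρ i k (δ u) - δ u
        rw [ha' i hi]
    ext i
    rw [supF, supF, Finset.mem_filter, Finset.mem_range, Finset.mem_image]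
    constructor
    · rintro ⟨hi, h1⟩
      refine ⟨Equiv.swap p q i, ?_, Equiv.swap_apply_self _ _ _⟩
      rw [Finset.mem_filter, Finset.mem_range]
      exact ⟨hs i hi, fun h2 => h1 ((key i hi).2 h2)⟩
    · rintro ⟨j, hj, rfl⟩
      rw [Finset.mem_filter, Finset.mem_range] at hj
      refine ⟨hs j hj.1, fun h2 => hj.2 ?_⟩
      have h3 := (key _ (hs j hj.1)).1 h2
      rwa [Equiv.swap_apply_self] at h3
-- END GE9

-- MODULE GE10
private theorem GE10_range (J : Finset ℕ) (h : ∀ i, i + 1 ∈ J → i ∈ J) :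
    J = Finset.range J.card := by
  have h1 : ∀ x ∈ J, Finset.range (x + 1) ⊆ J := by
    intro x
    induction x with
    | zero =>
      intro hx y hy
      rw [Finset.mem_range] at hy
      have : y = 0 := by omega
      rw [this]
      exact hx
    | succ x ih =>
      intro hx y hy
      rw [Finset.mem_range] at hy
      rcases Nat.lt_or_ge y (x + 1) with h2 | h2
      · exact ih (h x hx) (Finset.mem_range.2 h2)
      · have : y = x + 1 := by omega
        rw [this]
        exact hx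
  apply Finset.eq_of_subset_of_card_le
  · intro x hx
    have h2 := Finset.card_le_card (h1 x hx)
    rw [Finset.card_range] at h2
    exact Finset.mem_range.2 h2
  · rw [Finset.card_range]

private theorem GE10_iff (g : ℕ) (Q : Finset ℕ → Prop)
    (hQ : ∀ i, i + 1 < g → ∀ I, I ⊆ Finset.range g → Q I → Q (I.image (Equiv.swap i (i + 1)))) :
    ∀ N : ℕ, ∀ J : Finset ℕ, J ⊆ Finset.range g → ∑ j ∈ J, j = N →
      (Q J ↔ Q (Finset.range J.card)) := by
  intro N
  induction N using Nat.strong_induction_on with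
  | _ N ih =>
    intro J hJ hN
    by_cases h : ∀ i, i + 1 ∈ J → i ∈ J
    · rw [← GE10_range J h]
    · push Not at h
      obtain ⟨i, hi1, hi2⟩ := h
      have hig : i + 1 < g := Finset.mem_range.1 (hJ hi1)
      have hinj : Function.Injective (Equiv.swap i (i + 1)) := (Equiv.swap i (i + 1)).injective
      have h1 : J.image (Equiv.swap i (i + 1)) ⊆ Finset.range g := by
        intro x hx
        obtain ⟨y, hy, rfl⟩ := Finset.mem_image.1 hx
        rw [Equiv.swap_apply_def]
        split_ifs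
        · exact Finset.mem_range.2 hig
        · exact Finset.mem_range.2 (by omega)
        · exact hJ hy
      have h2 : (J.image (Equiv.swap i (i + 1))).card = J.card :=
        Finset.card_image_of_injective _ hinj
      have h3 : (J.image (Equiv.swap i (i + 1))).image (Equiv.swap i (i + 1)) = J := by
        rw [Finset.image_image]
        have h4 : (Equiv.swap i (i + 1) : ℕ → ℕ) ∘ (Equiv.swap i (i + 1)) = id := by
          funext x
          exact Equiv.swap_apply_self _ _ _
        rw [h4, Finset.image_id]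
      have h5 : ∑ j ∈ J.image (Equiv.swap i (i + 1)), j < N := by
        rw [Finset.sum_image (fun x _ y _ hxy => hinj hxy), ← hN]
        refine Finset.sum_lt_sum (fun x hx => ?_) ⟨i + 1, hi1, ?_⟩
        · rw [Equiv.swap_apply_def]
          split_ifs with c1 c2
          · exact absurd (c1 ▸ hx) hi2
          · omega
          · exact le_rfl
        · rw [Equiv.swap_apply_right]
          omega
      have h6 := ih _ h5 _ h1 rfl
      rw [h2] at h6
      rw [← h6]
      constructor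
      · exact hQ i hig J hJ
      · intro h7
        have h8 := hQ i hig _ h1 h7
        rwa [h3] at h8

/-- All subsets of the same cardinality are reached by adjacent transpositions. (all_of_swap, CN11 of QR80, verbatim.) PROOF. For J ⊆ range g put σ(J) = Σ_(j ∈ J) j. If J ≠ range |J| then there is i with i ∉ J, i + 1 ∈ J; J' = J.image (swap i (i+1)) = insert i (J.erase (i+1)) ⊆ range g
has the same cardinality and σ(J') < σ(J), and J = J'.image (swap i (i+1)). (1) Strong induction on σ: if Q J then Q (range |J|). (2) Strong induction on σ: if Q (range |J|) then Q J. -/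
theorem all_of_swap (g : ℕ) (Q : Finset ℕ → Prop)
    (hQ : ∀ i, i + 1 < g → ∀ I, I ⊆ Finset.range g → Q I → Q (I.image (Equiv.swap i (i + 1))))
    (I : Finset ℕ) (hI : I ⊆ Finset.range g) (h : Q I) (J : Finset ℕ) (hJ : J ⊆ Finset.range g)
    (hc : J.card = I.card) : Q J := by
  have key := GE10_iff g Q hQ
  rw [key _ J hJ rfl, hc, ← key _ I hI rfl]
  exact h
-- END GE10

-- MODULE GE11
/-- PROOF. (m choose s) * (s choose 2) = (m choose 2) * (m - 2 choose s - 2) ≥ m choose 2 (Nat.choose_mul; s - 2 ≤ m - 2), and s choose 2 ≤ 3^(s-2) ≤ d^(s-2) for s ≥ 2 (induction on s: 1 ≤ 1, 3 ≤ 3, and (s+1 choose 2) ≤ 3 (s choose 2) for s ≥ 2).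
So (m choose s) * d^(s-2) ≥ (m choose s) * (s choose 2) ≥ m choose 2; multiply by d^2. -/
theorem choose_bound (m s d : ℕ) (hd : 3 ≤ d) (h2 : 2 ≤ s) (hs : s ≤ m) :
    m.choose 2 * d ^ 2 ≤ m.choose s * d ^ s := by
  have h1 : m.choose s * s.choose 2 = m.choose 2 * (m - 2).choose (s - 2) :=
    Nat.choose_mul h2
  have h3 : 0 < (m - 2).choose (s - 2) := Nat.choose_pos (by omega)
  have h4 : ∀ t : ℕ, (t + 2).choose 2 ≤ 3 ^ t := by
    intro t
    induction t with
    | zero => decide
    | succ t ih =>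
      have e : (t + 1 + 2).choose 2 = (t + 2) + (t + 2).choose 2 := by
        rw [show t + 1 + 2 = (t + 2) + 1 from rfl, Nat.choose_succ_succ' (t + 2) 1,
          Nat.choose_one_right]
      have h5 : t + 2 ≤ 2 * (t + 2).choose 2 := by
        rw [Nat.choose_two_right, show t + 2 - 1 = t + 1 from rfl]
        have h6 : 2 ∣ (t + 2) * (t + 1) := by
          rw [mul_comm]
          exact (Nat.even_mul_succ_self (t + 1)).two_dvd
        rw [Nat.mul_div_cancel' h6]
        nlinarith
      rw [e, pow_succ]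
      omega
  obtain ⟨t, rfl⟩ : ∃ t, s = t + 2 := ⟨s - 2, by omega⟩
  have h5 : (t + 2).choose 2 ≤ d ^ t := (h4 t).trans (Nat.pow_le_pow_left hd t)
  have h6 : m.choose 2 ≤ m.choose (t + 2) * d ^ t :=
    calc m.choose 2 ≤ m.choose 2 * (m - 2).choose (t + 2 - 2) := Nat.le_mul_of_pos_right _ h3
      _ = m.choose (t + 2) * (t + 2).choose 2 := h1.symm
      _ ≤ m.choose (t + 2) * d ^ t := Nat.mul_le_mul_left _ h5
  calc m.choose 2 * d ^ 2 ≤ m.choose (t + 2) * d ^ t * d ^ 2 := Nat.mul_le_mul_right _ h6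
    _ = m.choose (t + 2) * d ^ (t + 2) := by rw [mul_assoc, ← pow_add]
-- END GE11

-- MODULE GE12
/-- Small supports. (sup_le_one, CN13 of QR80.) PROOF. Suppose s = |supF W1 W2| ≥ 2. Q I := ∃ W1 W2, SecF W1 W2 ∧ supF W1 W2 = I is invariant under swap i (i+1), i + 1 < m (sec_swapF). all_of_swap: every J ⊆ range m with |J| = s is in suppsF ⊥
(Finset.powersetCard s (range m) ⊆ suppsF). sum_leF with U = ⊥: (m choose s) * d^s ≤ dim V, contradiction to choose_bound. -/
theorem sup_le_oneF [K.Normal] {d : ℕ} (hL : Low.{u, w} K d) (hd : 3 ≤ d) [FiniteDimensional ℂ V]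
    (m : ℕ) (ρ : ℕ → (H →* Module.End ℂ V)) (hc : CFam m ρ)
    (hV : Module.finrank ℂ V < m.choose 2 * d ^ 2)
    (hsw : ∀ i, i + 1 < m → ∃ δ : V ≃ₗ[ℂ] V, ∀ j, j < m → ∀ x v,
      δ (ρ j x v) = ρ (Equiv.swap i (i + 1) j) x (δ v))
    (W1 W2 : Submodule ℂ V) (h : SecF m ρ W1 W2) : (supF K m ρ W1 W2).card ≤ 1 := by
  classical
  by_contra hcon
  have h2 : 2 ≤ (supF K m ρ W1 W2).card := by omega
  have hsub : ∀ W1 W2, supF K m ρ W1 W2 ⊆ Finset.range m := fun W1 W2 =>
    Finset.filter_subset _ _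
  let Q : Finset ℕ → Prop := fun I => ∃ W1 W2, SecF m ρ W1 W2 ∧ supF K m ρ W1 W2 = I
  have hQ : ∀ i, i + 1 < m → ∀ I, I ⊆ Finset.range m → Q I →
      Q (I.image (Equiv.swap i (i + 1))) := by
    rintro i hi I _ ⟨U1, U2, hS, rfl⟩
    obtain ⟨δ, h3⟩ := hsw i hi
    obtain ⟨h5, h6⟩ := sec_swapF K m ρ δ i (i + 1) (by omega) hi h3 U1 U2 hS
    exact ⟨_, _, h5, h6⟩
  have hall : Finset.powersetCard (supF K m ρ W1 W2).card (Finset.range m) ⊆
      suppsF K m ρ ⊥ := by
    intro J hJ
    rw [Finset.mem_powersetCard] at hJ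
    obtain ⟨U1, U2, h3, h4⟩ := all_of_swap m Q hQ _ (hsub W1 W2) ⟨W1, W2, h, rfl⟩ J hJ.1 hJ.2
    rw [suppsF, Finset.mem_filter, Finset.mem_powerset]
    exact ⟨hJ.1, U1, U2, bot_le, h3, h4⟩
  have hbot : StbF m ρ ⊥ := by
    intro r _ x w hw
    rw [Submodule.mem_bot] at hw ⊢
    rw [hw, map_zero]
  have h3 := sum_leF K hL m ρ hc ⊥ hbot
  have h4 : ∑ I ∈ Finset.powersetCard (supF K m ρ W1 W2).card (Finset.range m), d ^ I.card ≤
      ∑ I ∈ suppsF K m ρ ⊥, d ^ I.card := Finset.sum_le_sum_of_subset hall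
  have h5 : ∑ I ∈ Finset.powersetCard (supF K m ρ W1 W2).card (Finset.range m), d ^ I.card =
      m.choose (supF K m ρ W1 W2).card * d ^ (supF K m ρ W1 W2).card := by
    rw [Finset.sum_congr rfl (fun I hI => by rw [(Finset.mem_powersetCard.1 hI).2]),
      Finset.sum_const, Finset.card_powersetCard, Finset.card_range, smul_eq_mul]
  have h6 : (supF K m ρ W1 W2).card ≤ m := by
    have h7 := Finset.card_le_card (hsub W1 W2)
    rwa [Finset.card_range] at h7
  have h7 := choose_bound m _ d hd h2 h6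
  rw [h5] at h4
  omega
-- END GE12

-- MODULE GE13
private theorem GE13_com {A B : Submodule ℂ (Module.End ℂ V)}
    (h : ∀ a ∈ A, ∀ b ∈ B, a * b = b * a) : A * B = B * A := by
  apply le_antisymm
  · rw [Submodule.mul_le]
    intro a ha b hb
    rw [h a ha b hb]
    exact Submodule.mul_mem_mul hb ha
  · rw [Submodule.mul_le]
    intro b hb a ha
    rw [← h a ha b hb]
    exact Submodule.mul_mem_mul ha hb

private theorem GE13_aug {σ τ : H →* Module.End ℂ V} (h : ∀ x y, Commute (σ x) (τ y)) :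
    ∀ a ∈ AugK K σ, ∀ b ∈ AugK K τ, a * b = b * a := by
  intro a ha b hb
  refine Submodule.span_induction (p := fun a _ => a * b = b * a) ?_ ?_ ?_ ?_ ha
  · rintro x ⟨k, hk, rfl⟩
    refine Submodule.span_induction (p := fun b _ => (σ k - 1) * b = b * (σ k - 1))
      ?_ ?_ ?_ ?_ hb
    · rintro y ⟨l, hl, rfl⟩
      exact (((h k l).sub_left (Commute.one_left _)).sub_right (Commute.one_right _)).eq
    · rw [mul_zero, zero_mul]
    · intro x y _ _ hx hy
      rw [mul_add, add_mul, hx, hy]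
    · intro c x _ hx
      rw [mul_smul_comm, smul_mul_assoc, hx]
  · rw [mul_zero, zero_mul]
  · intro x y _ _ hx hy
    rw [mul_add, add_mul, hx, hy]
  · intro c x _ hx
    rw [mul_smul_comm, smul_mul_assoc, hx]

private theorem GE13_map {σ : H →* Module.End ℂ V} {W W' : Submodule ℂ V}
    (h : ∀ k ∈ K, ∀ w ∈ W, σ k w - w ∈ W') : ∀ a ∈ AugK K σ, ∀ w ∈ W, a w ∈ W' := by
  intro a ha w hw
  refine Submodule.span_induction (p := fun a _ => a w ∈ W') ?_ ?_ ?_ ?_ ha
  · rintro x ⟨k, hk, rfl⟩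
    exact h k hk w hw
  · exact W'.zero_mem
  · intro x y _ _ hx hy
    exact W'.add_mem hx hy
  · intro c x _ hx
    exact W'.smul_mem c hx

/-- THE MACHINE. PROOF. Put A = AugK K (ρ i), B = AugK K (ρ j). They commute elementwise (hc), so A * B = B * A and (A * B) * (A * B) = A * B (GE1, Submodule.mul_mul_mul_comm-like argument by hand: A B A B = A A B B), hence (A * B) ^ (r+1) = A * B for all r.
Claim: for every r and every jointly stable W with dim W ≤ r every φ ∈ (A * B) ^ r is 0 on W (r = 0: W = ⊥). Step r + 1: W ≠ ⊥ (otherwise clear): exists_secF: SecF W1 W. By GE12 i or j is not in supF W1 W. If i is not: (ρ i k - 1) W ⊆ W1 for all k ∈ K, so A W ⊆ W1 (span_induction), B W ⊆ W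
(W is stable), so (A * B) W ⊆ W1 [φ = a * b (Submodule.mul_induction_on): a (b w) ∈ W1]; if j is not: B W ⊆ W1 and A W1 ⊆ W1. dim W1 ≤ r, and (A * B)^(r+1) = (A * B)^r * (A * B) (pow_succ): φ = φ' * ψ, ψ w ∈ W1, φ' = 0 on W1. With W = ⊤,
r = dim V + 1: A * B = (A * B)^r = 0. Finally ρ i x - 1 ∈ A, ρ j y - 1 ∈ B. -/
theorem machine [K.Normal] {d : ℕ} (hL : Low.{u, w} K d) (hd : 3 ≤ d) [FiniteDimensional ℂ V]
    (m : ℕ) (ρ : ℕ → (H →* Module.End ℂ V)) (hc : CFam m ρ)
    (hV : Module.finrank ℂ V < m.choose 2 * d ^ 2)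
    (hsw : ∀ i, i + 1 < m → ∃ δ : V ≃ₗ[ℂ] V, ∀ j, j < m → ∀ x v,
      δ (ρ j x v) = ρ (Equiv.swap i (i + 1) j) x (δ v))
    (i j : ℕ) (hi : i < m) (hj : j < m) (hij : i ≠ j) (x y : H) (hx : x ∈ K) (hy : y ∈ K) :
    (ρ i x - 1) * (ρ j y - 1) = 0 := by
  classical
  have hA := AugK_mul_self K hL.perfect (ρ i)
  have hB := AugK_mul_self K hL.perfect (ρ j)
  have hAB := GE13_com (GE13_aug K (hc i j hi hj hij))
  set A := AugK K (ρ i) with hAdef
  set B := AugK K (ρ j) with hBdef
  have hid : (A * B) * (A * B) = A * B := by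
    calc (A * B) * (A * B) = A * (B * A) * B := by rw [mul_assoc, mul_assoc, mul_assoc]
      _ = A * (A * B) * B := by rw [hAB]
      _ = (A * A) * (B * B) := by rw [mul_assoc, mul_assoc, mul_assoc]
      _ = A * B := by rw [hA, hB]
  have hpow : ∀ r : ℕ, (A * B) ^ (r + 1) = A * B := by
    intro r
    induction r with
    | zero => rw [zero_add, Submodule.pow_one]
    | succ r ih => rw [Submodule.pow_succ, ih, hid]
  have hstA : ∀ W : Submodule ℂ V, StbF m ρ W → ∀ a ∈ A, ∀ w ∈ W, a w ∈ W := fun W hW =>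
    GE13_map K (fun k _ w hw => W.sub_mem (hW i hi k w hw) hw)
  have hstB : ∀ W : Submodule ℂ V, StbF m ρ W → ∀ a ∈ B, ∀ w ∈ W, a w ∈ W := fun W hW =>
    GE13_map K (fun k _ w hw => W.sub_mem (hW j hj k w hw) hw)
  have hmain : ∀ r : ℕ, ∀ W : Submodule ℂ V, StbF m ρ W → Module.finrank ℂ W ≤ r →
      ∀ φ ∈ (A * B) ^ r, ∀ w ∈ W, φ w = 0 := by
    intro r
    induction r with
    | zero =>
      intro W _ hW0 φ _ w hw
      have h1 : W = ⊥ := Submodule.finrank_eq_zero.1 (by omega)
      rw [h1, Submodule.mem_bot] at hw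
      rw [hw, map_zero]
    | succ r ih =>
      intro W hW hWr φ hφ w hw
      by_cases hb : W = ⊥
      · rw [hb, Submodule.mem_bot] at hw
        rw [hw, map_zero]
      · obtain ⟨W1, hS⟩ := (exists_secF m ρ W hW).2 hb
        have hlt : Module.finrank ℂ W1 < Module.finrank ℂ W :=
          Submodule.finrank_lt_finrank_of_lt hS.lt
        have hcard := sup_le_oneF K hL hd m ρ hc hV hsw W1 W hS
        have hAB1 : ∀ ψ ∈ A * B, ∀ w ∈ W, ψ w ∈ W1 := by
          intro ψ hψ w hw
          by_cases h1 : i ∈ supF K m ρ W1 W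
          · have h2 : j ∉ supF K m ρ W1 W := by
              intro h2
              exact hij (Finset.card_le_one.1 hcard i h1 j h2)
            have h3 : ∀ k ∈ K, ∀ w ∈ W, ρ j k w - w ∈ W1 := by
              by_contra hcon
              apply h2
              rw [supF, Finset.mem_filter, Finset.mem_range]
              exact ⟨hj, hcon⟩
            refine Submodule.mul_induction_on hψ ?_ ?_
            · intro a ha b hb
              rw [Module.End.mul_apply]
              exact hstA W1 hS.s1 a ha _ (GE13_map K h3 b hb w hw)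
            · intro x y hx hy
              exact W1.add_mem hx hy
          · have h3 : ∀ k ∈ K, ∀ w ∈ W, ρ i k w - w ∈ W1 := by
              by_contra hcon
              apply h1
              rw [supF, Finset.mem_filter, Finset.mem_range]
              exact ⟨hi, hcon⟩
            refine Submodule.mul_induction_on hψ ?_ ?_
            · intro a ha b hb
              rw [Module.End.mul_apply]
              exact GE13_map K h3 a ha _ (hstB W hW b hb w hw)
            · intro x y hx hy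
              exact W1.add_mem hx hy
        rw [Submodule.pow_succ] at hφ
        refine Submodule.mul_induction_on hφ ?_ ?_
        · intro φ' hφ' ψ hψ
          rw [Module.End.mul_apply]
          exact ih W1 hS.s1 (by omega) φ' hφ' _ (hAB1 ψ hψ w hw)
        · intro x y hx hy
          rw [LinearMap.add_apply, hx, hy, add_zero]
  have hT : StbF m ρ ⊤ := fun _ _ _ _ _ => trivial
  apply LinearMap.ext
  intro w
  refine hmain (Module.finrank ℂ V + 1) ⊤ hT (by rw [finrank_top]; exact Nat.le_succ _) _ ?_ w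
    trivial
  rw [hpow]
  exact Submodule.mul_mem_mul (Submodule.subset_span ⟨x, hx, rfl⟩)
    (Submodule.subset_span ⟨y, hy, rfl⟩)
-- END GE13

end gen

end Pool.Agent.QB54
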