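import Pool.Agent.QB54.Br
import Pool.Agent.QB54.Gen

/-!
# The abstract braid group and blocks of strands
-/

set_option autoImplicit false
set_option linter.all false

namespace Pool.Agent.QB54

open Pool.Agent.HG13

universe u

/-- The braid relators. -/
def brRels (M : ℕ) : Set (FreeGroup (Fin M)) :=
  {r | (∃ i j : Fin M, (j : ℕ) = (i : ℕ) + 1 ∧
      r = FreeGroup.of i * FreeGroup.of j * FreeGroup.of i *
        (FreeGroup.of j * FreeGroup.of i * FreeGroup.of j)⁻¹) ∨
    (∃ i j : Fin M, (i : ℕ) + 2 ≤ (j : ℕ) ∧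
      r = FreeGroup.of i * FreeGroup.of j * (FreeGroup.of j * FreeGroup.of i)⁻¹)}

/-- The braid group on `M + 1` strands. -/
abbrev Br (M : ℕ) : Type := PresentedGroup (brRels M)

/-- The generators. -/
def bs (M : ℕ) (i : ℕ) : Br M := if h : i < M then PresentedGroup.of ⟨i, h⟩ else 1

/-- The normal closure of `s 1 (s 0)⁻¹`. -/
def KB (M : ℕ) : Subgroup (Br M) := Subgroup.normalClosure {bs M 1 * (bs M 0)⁻¹}

instance (M : ℕ) : (KB M).Normal := Subgroup.normalClosure_normal

-- MODULE BL1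
/-- PROOF. As ch_isChain in HG13/Chain.lean (PresentedGroup.one_of_mem). -/
theorem bs_isBr (M : ℕ) : IsBr M (bs M) := by
  refine ⟨?_, ?_⟩
  · intro i hi
    have hi' : i < M := by omega
    have h : (QuotientGroup.mk' (Subgroup.normalClosure (brRels M)))
        (FreeGroup.of ⟨i, hi'⟩ * FreeGroup.of ⟨i + 1, hi⟩ * FreeGroup.of ⟨i, hi'⟩ *
        (FreeGroup.of ⟨i + 1, hi⟩ * FreeGroup.of ⟨i, hi'⟩ * FreeGroup.of ⟨i + 1, hi⟩)⁻¹) = 1 :=
      PresentedGroup.one_of_mem (Or.inl ⟨⟨i, hi'⟩, ⟨i + 1, hi⟩, rfl, rfl⟩)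
    rw [map_mul, map_inv, mul_inv_eq_one] at h
    unfold bs
    rw [dif_pos hi', dif_pos hi]
    exact h
  · intro i j hij hj
    have hi' : i < M := by omega
    have h : (QuotientGroup.mk' (Subgroup.normalClosure (brRels M)))
        (FreeGroup.of ⟨i, hi'⟩ * FreeGroup.of ⟨j, hj⟩ *
        (FreeGroup.of ⟨j, hj⟩ * FreeGroup.of ⟨i, hi'⟩)⁻¹) = 1 :=
      PresentedGroup.one_of_mem (Or.inr ⟨⟨i, hi'⟩, ⟨j, hj⟩, hij, rfl⟩)
    rw [map_mul, map_inv, mul_inv_eq_one] at h
    unfold bs
    rw [dif_pos hi', dif_pos hj]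
    exact h
-- END BL1

-- MODULE BL2
/-- PROOF. As IsChain.exists_hom in HG13/Chain.lean, with t ∘ Fin.val. -/
theorem exists_hom {G : Type*} [Group G] {M : ℕ} {t : ℕ → G} (h : IsBr M t) :
    ∃ f : Br M →* G, ∀ i, i < M → f (bs M i) = t i := by
  have hr : ∀ r ∈ brRels M, FreeGroup.lift (fun i : Fin M => t i) r = 1 := by
    rintro r (⟨i, j, hij, rfl⟩ | ⟨i, j, hij, rfl⟩)
    · have h1 := h.brd i (by have := j.2; omega)
      simp only [map_mul, map_inv, FreeGroup.lift_apply_of]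
      rw [hij, h1, mul_inv_cancel]
    · have h1 := h.com i j hij j.2
      simp only [map_mul, map_inv, FreeGroup.lift_apply_of]
      rw [h1, mul_inv_cancel]
  refine ⟨PresentedGroup.toGroup hr, fun i hi => ?_⟩
  have h2 : bs M i = PresentedGroup.of ⟨i, hi⟩ := dif_pos hi
  rw [h2]
  exact PresentedGroup.toGroup.of hr
-- END BL2

-- MODULE BL3
/-- PROOF. PresentedGroup.closure_range_of. -/
theorem bs_closure (M : ℕ) : Subgroup.closure {x | ∃ i, i < M ∧ x = bs M i} = ⊤ := by
  rw [eq_top_iff, ← PresentedGroup.closure_range_of (brRels M)]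
  refine Subgroup.closure_mono ?_
  rintro _ ⟨i, rfl⟩
  exact ⟨i, i.2, (dif_pos i.2 : bs M i = PresentedGroup.of ⟨i, i.2⟩).symm⟩
-- END BL3

-- MODULE BL4
private theorem BL4_step (M : ℕ) : ∀ i, i + 1 < M → bs M (i + 1) * (bs M i)⁻¹ ∈ KB M
  | 0, _ => Subgroup.subset_normalClosure (Set.mem_singleton _)
  | i + 1, hi => by
    have h1 := del_conj (bs_isBr M) 0 M (i + 1) (by omega) (by omega) (by omega)
    have h2 := del_conj (bs_isBr M) 0 M i (by omega) (by omega) (by omega)
    have h3 := (inferInstance : (KB M).Normal).conj_mem _ (BL4_step M i (by omega))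
      (del (bs M) 0 M)
    have h5 : del (bs M) 0 M * bs M (i + 1) * (del (bs M) 0 M)⁻¹ = bs M (i + 1 + 1) := by
      rw [h1, mul_inv_cancel_right]
    have h6 : del (bs M) 0 M * bs M i * (del (bs M) 0 M)⁻¹ = bs M (i + 1) := by
      rw [h2, mul_inv_cancel_right]
    have h4 : del (bs M) 0 M * (bs M (i + 1) * (bs M i)⁻¹) * (del (bs M) 0 M)⁻¹ =
        bs M (i + 1 + 1) * (bs M (i + 1))⁻¹ := by
      calc _ = (del (bs M) 0 M * bs M (i + 1) * (del (bs M) 0 M)⁻¹) *
            (del (bs M) 0 M * bs M i * (del (bs M) 0 M)⁻¹)⁻¹ := by group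
        _ = _ := by rw [h5, h6]
    rwa [h4] at h3

private theorem BL4_zero (M : ℕ) : ∀ i, i < M → bs M i * (bs M 0)⁻¹ ∈ KB M
  | 0, _ => by
    rw [mul_inv_cancel]
    exact (KB M).one_mem
  | i + 1, hi => by
    have h := (KB M).mul_mem (BL4_step M i hi) (BL4_zero M i (by omega))
    rwa [← mul_assoc, inv_mul_cancel_right] at h

private theorem BL4_diff (M i j : ℕ) (hi : i < M) (hj : j < M) : bs M i * (bs M j)⁻¹ ∈ KB M := by
  have h := (KB M).mul_mem (BL4_zero M i hi) ((KB M).inv_mem (BL4_zero M j hj))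
  rwa [mul_inv_rev, inv_inv, ← mul_assoc, inv_mul_cancel_right] at h

private theorem BL4_pow (M : ℕ) (g : Br M) : ∃ n : ℤ,
    QuotientGroup.mk' (KB M) g = QuotientGroup.mk' (KB M) (bs M 0) ^ n := by
  have hg : g ∈ Subgroup.closure {x | ∃ i, i < M ∧ x = bs M i} := by
    rw [bs_closure]
    exact Subgroup.mem_top g
  induction hg using Subgroup.closure_induction with
  | mem x hx =>
    obtain ⟨i, hi, rfl⟩ := hx
    refine ⟨1, ?_⟩
    rw [zpow_one, ← mul_inv_eq_one, ← map_inv, ← map_mul]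
    exact (QuotientGroup.eq_one_iff _).2 (BL4_zero M i hi)
  | one => exact ⟨0, by rw [map_one, zpow_zero]⟩
  | mul x y _ _ hx hy =>
    obtain ⟨a, ha⟩ := hx
    obtain ⟨b, hb⟩ := hy
    exact ⟨a + b, by rw [map_mul, ha, hb, zpow_add]⟩
  | inv x _ hx =>
    obtain ⟨a, ha⟩ := hx
    exact ⟨-a, by rw [map_inv, ha, zpow_neg]⟩

/-- The commutator subgroup is contained in KB. PROOF. Pass to the quotient Q = Br M ⧸ KB M. If M ≤ 1 the group is generated by one element, so it is commutative. If M ≥ 2: with D = del (bs M) 0 M, D * bs i = bs (i+1) * D (BR3), and bs 1 = bs 0 in Q, so bs (i+1) = bs i in Q for all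
i + 1 < M (induction on i: bs (i+2) = D bs (i+1) D⁻¹ = D bs i D⁻¹ = bs (i+1)). So Q is generated by one element, so it is commutative and commutators are 1 (Subgroup.commutator_le, QuotientGroup.eq_one_iff). -/
theorem comm_le_KB (M : ℕ) : (⁅(⊤ : Subgroup (Br M)), (⊤ : Subgroup (Br M))⁆ : Subgroup (Br M)) ≤ KB M := by
  refine Subgroup.commutator_le.2 fun a _ b _ => ?_
  obtain ⟨m, hm⟩ := BL4_pow M a
  obtain ⟨n, hn⟩ := BL4_pow M b
  have h : QuotientGroup.mk' (KB M) (a * b * a⁻¹ * b⁻¹) = 1 := by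
    rw [map_mul, map_mul, map_mul, map_inv, map_inv, hm, hn, ← zpow_add, add_comm, zpow_add,
      mul_inv_cancel_right, mul_inv_cancel]
  exact (QuotientGroup.eq_one_iff _).1 h
-- END BL4

-- MODULE BL5
private theorem BL5_id {G : Type*} [Group G] (a b c : G) (h : a * b * a = b * a * b)
    (h1 : a * c = c * a) (h2 : b * c = c * b) :
    (a * c⁻¹ * (b * c⁻¹)) * (a * c⁻¹) * (a * c⁻¹ * (b * c⁻¹))⁻¹ * (a * c⁻¹)⁻¹ = b * a⁻¹ := by
  have k1 : Commute a c⁻¹ := Commute.inv_right (show Commute a c from h1)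
  have k2 : Commute b c⁻¹ := Commute.inv_right (show Commute b c from h2)
  generalize c⁻¹ = d at k1 k2 ⊢
  have e1 : d * a = a * d := k1.eq.symm
  have e2 : d * b = b * d := k2.eq.symm
  have e1' : ∀ z, d * (a * z) = a * (d * z) := fun z => by rw [← mul_assoc, e1, mul_assoc]
  have e2' : ∀ z, d * (b * z) = b * (d * z) := fun z => by rw [← mul_assoc, e2, mul_assoc]
  have h' : ∀ z, a * (b * (a * z)) = b * (a * (b * z)) := fun z => by
    rw [← mul_assoc, ← mul_assoc, h]
    simp only [mul_assoc]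
  have key : a * d * (b * d) * (a * d) = b * d * (a * d * (b * d)) := by
    simp only [mul_assoc, e1', e2', h']
  rw [key, mul_inv_cancel_right, mul_inv_rev, ← mul_assoc, mul_inv_cancel_right]

/-- KB is perfect. PROOF. ≤: Subgroup.commutator_le_left. ≥: ⁅KB, KB⁆ is normal, so it is enough that bs 1 * (bs 0)⁻¹ is in it. Write s i = bs M i. x = s 0 * s 1 * (s 3)⁻¹ * (s 3)⁻¹, y = s 0 * (s 3)⁻¹. s 3 commutes with s 0 and
s 1, (s 0 s 1) s 0 (s 0 s 1)⁻¹ = s 1, so x y x⁻¹ = s 1 * (s 3)⁻¹ and x y x⁻¹ y⁻¹ = s 1 (s 0)⁻¹. y and x are products of elements s i (s j)⁻¹, which are in KB (in the quotient all s i are equal, as in BL4). Compare CK2 of HG13 (team-store HG13_CK2.lean). -/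
theorem KB_perfect (M : ℕ) (hM : 4 ≤ M) : ⁅KB M, KB M⁆ = KB M := by
  refine le_antisymm (Subgroup.commutator_le_left _ _) ?_
  refine Subgroup.normalClosure_le_normal ?_
  rintro _ rfl
  have h := bs_isBr M
  have hb := h.brd 0 (by omega)
  have h03 := h.com 0 3 (by omega) (by omega)
  have h13 := h.com 1 3 (by omega) (by omega)
  have hx : bs M 0 * (bs M 3)⁻¹ * (bs M 1 * (bs M 3)⁻¹) ∈ KB M :=
    (KB M).mul_mem (BL4_diff M 0 3 (by omega) (by omega)) (BL4_diff M 1 3 (by omega) (by omega))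
  have hy : bs M 0 * (bs M 3)⁻¹ ∈ KB M := BL4_diff M 0 3 (by omega) (by omega)
  have hc : (bs M 0 * (bs M 3)⁻¹ * (bs M 1 * (bs M 3)⁻¹)) * (bs M 0 * (bs M 3)⁻¹) *
      (bs M 0 * (bs M 3)⁻¹ * (bs M 1 * (bs M 3)⁻¹))⁻¹ * (bs M 0 * (bs M 3)⁻¹)⁻¹ ∈
      ⁅KB M, KB M⁆ := Subgroup.commutator_mem_commutator hx hy
  rw [BL5_id _ _ _ hb h03 h13] at hc
  exact hc
-- END BL5

-- MODULE BL6
/-- PROOF. Perfect: BL5. Let σ : Br 5 → End S be irreducible of dimension < 4. `i ↦ bs 5 i` is a chain (IsChain of HG13; BL1), so there is f : Ch →* Br 5 with f (ch i) = bs 5 i (IsChain.exists_hom), f is surjective (BL3). σ.comp f is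
irreducible, so by lemD4 (dimension ≤ 3) σ (f (ch 1 * (ch 0)⁻¹)) = 1 (it is in KK: Subgroup.subset_normalClosure). So {x | σ x = 1}, a normal subgroup, contains bs 1 * (bs 0)⁻¹, hence KB 5. -/
theorem low_six : Low.{u, 0} (KB 5) 4 := by
  refine ⟨KB_perfect 5 (by norm_num), ?_⟩
  intro S _ _ _ σ hσ hd k hk
  have hb := bs_isBr 5
  have hch : IsChain (fun i : Fin 5 => bs 5 (i : ℕ)) := by
    refine ⟨fun i j hij => ?_, fun i j hij => ?_⟩
    · have := hb.brd (i : ℕ) (by omega)
      show _ * _ * _ = _ * _ * _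
      simp only [hij]
      exact this
    · exact hb.com _ _ hij j.2
  obtain ⟨f, hf⟩ := hch.exists_hom
  have hsurj : Function.Surjective f := by
    rw [← MonoidHom.range_eq_top, eq_top_iff, ← bs_closure 5, Subgroup.closure_le]
    rintro x ⟨i, hi, rfl⟩
    exact ⟨ch ⟨i, hi⟩, hf ⟨i, hi⟩⟩
  have hirr : Irr (σ.comp f) := by
    refine ⟨hσ.1, fun W hW => hσ.2 W fun x w hw => ?_⟩
    obtain ⟨y, rfl⟩ := hsurj x
    exact hW y w hw
  have h1 := lemD4 (σ.comp f) hirr (by omega) (ch 1 * (ch 0)⁻¹)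
    (Subgroup.subset_normalClosure rfl)
  have h2 : σ (bs 5 1 * (bs 5 0)⁻¹) = 1 := by
    have e : f (ch 1 * (ch 0)⁻¹) = bs 5 1 * (bs 5 0)⁻¹ := by
      rw [map_mul, map_inv, hf, hf]; rfl
    rw [← e]; exact h1
  have h3 : KB 5 ≤ σ.ker := by
    refine Subgroup.normalClosure_le_normal ?_
    rintro _ rfl
    exact h2
  exact h3 hk
-- END BL6

section blocks

variable {G : Type*} [Group G] {N : ℕ} {s : ℕ → G}

open Classical in
/-- the block number `q`, of `k` strands -/
noncomputable def blk (s : ℕ → G) (k q : ℕ) : Br (k - 1) →* G :=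
  if h : ∃ f : Br (k - 1) →* G, ∀ j, j < k - 1 → f (bs (k - 1) j) = s (k * q + j) then h.choose
  else 1

-- MODULE BL7
/-- PROOF. `fun j => s (k * q + j)` satisfies IsBr (k-1) (h), so the hom exists (BL2). -/
theorem blk_bs (h : IsBr N s) (k q : ℕ) (hq : k * q + k ≤ N + 1) (j : ℕ) (hj : j < k - 1) :
    blk s k q (bs (k - 1) j) = s (k * q + j) := by
  have hb : IsBr (k - 1) (fun j => s (k * q + j)) := by
    refine ⟨fun i hi => ?_, fun i j hij hj => ?_⟩
    · have := h.brd (k * q + i) (by omega)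
      simpa only [add_assoc] using this
    · exact h.com _ _ (by omega) (by omega)
  have hex : ∃ f : Br (k - 1) →* G, ∀ j, j < k - 1 → f (bs (k - 1) j) = s (k * q + j) :=
    exists_hom hb
  unfold blk
  rw [dif_pos hex]
  exact hex.choose_spec j hj
-- END BL7

-- MODULE BL8
/-- PROOF. By BL3 and closure induction (twice) it is enough for generators x = bs j, y = bs j': s (kq+j) and s (kr+j') commute since the indices differ by at least 2 (if q < r: kq + j ≤ kq + k - 2, kr + j' ≥ kq + k). -/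
theorem blk_comm (h : IsBr N s) (k q r : ℕ) (hq : k * q + k ≤ N + 1) (hr : k * r + k ≤ N + 1)
    (hqr : q ≠ r) (x y : Br (k - 1)) : Commute (blk s k q x) (blk s k r y) := by
  have hgen : ∀ i j, i < k - 1 → j < k - 1 →
      Commute (blk s k q (bs (k - 1) i)) (blk s k r (bs (k - 1) j)) := by
    intro i j hi hj
    rw [blk_bs h k q hq i hi, blk_bs h k r hr j hj]
    rcases lt_or_gt_of_ne hqr with h1 | h1
    · have h2 : k * (q + 1) ≤ k * r := Nat.mul_le_mul_left k h1
      rw [Nat.mul_succ] at h2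
      exact h.com _ _ (by omega) (by omega)
    · have h2 : k * (r + 1) ≤ k * q := Nat.mul_le_mul_left k h1
      rw [Nat.mul_succ] at h2
      exact (h.com _ _ (by omega) (by omega)).symm
  have hx : x ∈ Subgroup.closure {x | ∃ i, i < k - 1 ∧ x = bs (k - 1) i} := by
    rw [bs_closure]; exact Subgroup.mem_top x
  have hy : y ∈ Subgroup.closure {x | ∃ i, i < k - 1 ∧ x = bs (k - 1) i} := by
    rw [bs_closure]; exact Subgroup.mem_top y
  induction hx using Subgroup.closure_induction with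
  | mem x hx =>
    obtain ⟨i, hi, rfl⟩ := hx
    induction hy using Subgroup.closure_induction with
    | mem y hy =>
      obtain ⟨j, hj, rfl⟩ := hy
      exact hgen i j hi hj
    | one => rw [map_one]; exact Commute.one_right _
    | mul y z _ _ hy hz => rw [map_mul]; exact hy.mul_right hz
    | inv y _ hy => rw [map_inv]; exact hy.inv_right
  | one => rw [map_one]; exact Commute.one_left _
  | mul y z _ _ hy hz => rw [map_mul]; exact hy.mul_left hz
  | inv y _ hy => rw [map_inv]; exact hy.inv_left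
-- END BL8

-- MODULE BL9
/-- PROOF. g = swp s (k * i) k. {x | g * blk j x = blk (swap j) x * g} is closed under products and inverses, so by BL3 it is enough for x = bs t, t < k - 1: j = i and j = i + 1: BR7 (1), (2) with a = k * i (k * (i+1) + t = k * i + k + t); other j: swap j = j, and
s (k j + t) commutes with g by BR7 (3): j < i: k j + t + 2 ≤ k i; j ≥ i + 2: k i + 2 k ≤ k j + t. -/
theorem blk_swap (h : IsBr N s) (k m i j : ℕ) (hk : 1 ≤ k) (hm : m * k ≤ N + 1) (hi : i + 1 < m)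
    (hj : j < m) (x : Br (k - 1)) :
    swp s (k * i) k * blk s k j x = blk s k (Equiv.swap i (i + 1) j) x * swp s (k * i) k := by
  have hle : ∀ q, q < m → k * q + k ≤ N + 1 := by
    intro q hq
    have h2 : k * (q + 1) ≤ k * m := Nat.mul_le_mul_left k hq
    rw [Nat.mul_succ, mul_comm k m] at h2
    omega
  obtain ⟨h1, h2, h3⟩ := swp_spec h (k * i) k hk (by have := hle (i + 1) hi; rw [Nat.mul_succ] at this; omega)
  have hs : Equiv.swap i (i + 1) j < m := by
    rw [Equiv.swap_apply_def]; split_ifs <;> omega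
  have hgen : ∀ t, t < k - 1 → swp s (k * i) k * blk s k j (bs (k - 1) t) =
      blk s k (Equiv.swap i (i + 1) j) (bs (k - 1) t) * swp s (k * i) k := by
    intro t ht
    rw [blk_bs h k j (hle j hj) t ht, blk_bs h k _ (hle _ hs) t ht]
    rw [Equiv.swap_apply_def]
    split_ifs with e1 e2
    · subst e1
      rw [h1 t (by omega), Nat.mul_succ]
    · subst e2
      rw [Nat.mul_succ, h2 t (by omega)]
    · have hji : j < i ∨ i + 1 < j := by omega
      have e3 : k * j + t < N := by have := hle j hj; omega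
      apply h3 _ e3
      rcases hji with h4 | h4
      · left
        have h2 : k * (j + 1) ≤ k * i := Nat.mul_le_mul_left k h4
        rw [Nat.mul_succ] at h2
        omega
      · right
        have h2 : k * (i + 1 + 1) ≤ k * j := Nat.mul_le_mul_left k h4
        rw [Nat.mul_succ, Nat.mul_succ] at h2
        omega
  have hx : x ∈ Subgroup.closure {x | ∃ i, i < k - 1 ∧ x = bs (k - 1) i} := by
    rw [bs_closure]; exact Subgroup.mem_top x
  induction hx using Subgroup.closure_induction with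
  | mem x hx => obtain ⟨t, ht, rfl⟩ := hx; exact hgen t ht
  | one => rw [map_one, map_one, mul_one, one_mul]
  | mul y z _ _ hy hz => rw [map_mul, map_mul, ← mul_assoc, hy, mul_assoc, hz, mul_assoc]
  | inv y _ hy =>
    rw [map_inv, map_inv, mul_inv_eq_iff_eq_mul, mul_assoc, hy, inv_mul_cancel_left]
-- END BL9

variable {V : Type u} [AddCommGroup V] [Module ℂ V]

-- MODULE BL10
/-- PROOF. machine (GE13) with ρ q = π.comp (blk s k q), K = KB (k-1), i = 0, j = 1. CFam: blk_comm. The swaps: δ = the linear equivalence v ↦ π (swp s (k * i) k) v (inverse: π of the inverse), blk_swap. -/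
theorem blocks_kill (h : IsBr N s) (π : G →* Module.End ℂ V) [FiniteDimensional ℂ V] (k m d : ℕ)
    (hk : 1 ≤ k) (hm2 : 2 ≤ m) (hm : m * k ≤ N + 1) (hL : Low.{u, 0} (KB (k - 1)) d) (hd : 3 ≤ d)
    (hV : Module.finrank ℂ V < m.choose 2 * d ^ 2) (x y : Br (k - 1)) (hx : x ∈ KB (k - 1))
    (hy : y ∈ KB (k - 1)) : (π (blk s k 0 x) - 1) * (π (blk s k 1 y) - 1) = 0 := by
  have hle : ∀ q, q < m → k * q + k ≤ N + 1 := by
    intro q hq
    have h2 : k * (q + 1) ≤ k * m := Nat.mul_le_mul_left k hq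
    rw [Nat.mul_succ, mul_comm k m] at h2
    omega
  have := machine (KB (k - 1)) hL hd m (fun q => π.comp (blk s k q))
    (fun q r hq hr hqr a b => (blk_comm h k q r (hle q hq) (hle r hr) hqr a b).map π) hV
    (fun i hi => by
      let g := swp s (k * i) k
      refine ⟨LinearEquiv.ofLinear (π g) (π g⁻¹) ?_ ?_, ?_⟩
      · rw [← Module.End.mul_eq_comp, ← map_mul, mul_inv_cancel, map_one]; rfl
      · rw [← Module.End.mul_eq_comp, ← map_mul, inv_mul_cancel, map_one]; rfl
      · intro j hj a v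
        show π g (π (blk s k j a) v) = π (blk s k (Equiv.swap i (i + 1) j) a) (π g v)
        have e := blk_swap h k m i j hk hm hi hj a
        have e2 := congrArg (fun z => π z v) e
        simp only [map_mul, Module.End.mul_apply] at e2
        exact e2) 0 1 (by omega) (by omega) (by norm_num) x y hx hy
  exact this
-- END BL10

-- MODULE BL11
/-- PROOF. Kp s (k*q+t) is the image of Kp (bs (k-1)) t under blk s k q (Subgroup.map_commutator, MonoidHom.map_closure, Set.image_pair, BL7), and Kp (bs (k-1)) t ≤ ⁅⊤, ⊤⁆ ≤ KB (Subgroup.commutator_mono, BL4). -/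
theorem Kp_blk (h : IsBr N s) (k q t : ℕ) (hq : k * q + k ≤ N + 1) (ht : t + 3 ≤ k) (x : G)
    (hx : x ∈ Kp s (k * q + t)) : ∃ y ∈ KB (k - 1), blk s k q y = x := by
  have h1 : Kp s (k * q + t) = (Kp (bs (k - 1)) t).map (blk s k q) := by
    unfold Kp
    rw [Subgroup.map_commutator, MonoidHom.map_closure, Set.image_pair,
      blk_bs h k q hq t (by omega), blk_bs h k q hq (t + 1) (by omega), add_assoc]
  rw [h1] at hx
  obtain ⟨y, hy, rfl⟩ := hx
  refine ⟨y, comm_le_KB (k - 1) ?_, rfl⟩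
  exact Subgroup.commutator_mono le_top le_top hy
-- END BL11

/-- the commutator subgroups of distant 3-strand subgroups have independent augmentations -/
def PP (s : ℕ → G) (π : G →* Module.End ℂ V) (i j : ℕ) : Prop :=
  ∀ x ∈ Kp s i, ∀ y ∈ Kp s j, (π x - 1) * (π y - 1) = 0

/-- `PP i j` for all `i + 3 ≤ j` -/
def St (N : ℕ) (s : ℕ → G) (π : G →* Module.End ℂ V) : Prop :=
  ∀ i j, i + 3 ≤ j → j + 2 ≤ N → PP s π i j

-- MODULE BL12
/-- PROOF. x ∈ Kp s i', y ∈ Kp s j': x = g x' g⁻¹, x' = g⁻¹ x g ∈ Kp s i (BR8), the same for y; (π x - 1)(π y - 1) = π g (π x' - 1)(π y' - 1) π g⁻¹. -/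
theorem PP_conj (π : G →* Module.End ℂ V) (i j i' j' : ℕ) (g : G)
    (h0 : g * s i = s i' * g) (h1 : g * s (i + 1) = s (i' + 1) * g)
    (h2 : g * s j = s j' * g) (h3 : g * s (j + 1) = s (j' + 1) * g) (hP : PP s π i j) :
    PP s π i' j' := by
  intro x hx y hy
  have hx' : g⁻¹ * x * g ∈ Kp s i := by
    rw [← Kp_conj s i i' g h0 h1]
    rwa [show g * (g⁻¹ * x * g) * g⁻¹ = x by group]
  have hy' : g⁻¹ * y * g ∈ Kp s j := by
    rw [← Kp_conj s j j' g h2 h3]
    rwa [show g * (g⁻¹ * y * g) * g⁻¹ = y by group]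
  have h4 := hP _ hx' _ hy'
  have e : ∀ z : G, π z - 1 = π g * (π (g⁻¹ * z * g) - 1) * π g⁻¹ := by
    intro z
    rw [mul_sub, sub_mul, ← map_mul, ← map_mul, mul_one, ← map_mul, mul_inv_cancel, map_one]
    congr 2
    group
  rw [e x, e y]
  calc _ = π g * ((π (g⁻¹ * x * g) - 1) * (π g⁻¹ * π g) * (π (g⁻¹ * y * g) - 1)) * π g⁻¹ := by
        simp only [mul_assoc]
    _ = 0 := by rw [← map_mul, inv_mul_cancel, map_one, mul_one, h4, mul_zero, zero_mul]
-- END BL12

-- MODULE BL13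
/-- PROOF. (a) PP i k for i + 3 ≤ k: BL11 (q = 0, t = i; q = 1, t = 0) and BL10. (b) PP i j for i + 3 ≤ k, k ≤ j, j + 2 ≤ N: BL12 with g = (del s k (N-k)) ^ (j-k): it maps s k to s j and s (k+1) to s (j+1) (BR5) and commutes with s i, s (i+1) (BR2 and powers). (c) Let i + 3 ≤ j, j + 2 ≤ N,
e = j - i. Let j0 = max k e, i0 = j0 - e; i0 + 3 ≤ k, j0 + 2 ≤ N (2 k ≤ m k ≤ N + 1, 3 ≤ k). PP i0 j0 by (b). D = del s 0 N: D^i0 maps s 0, s 1, s e, s (e+1) to s i0, s (i0+1), s j0, s (j0+1) (BR5), so PP 0 e by BL12 with g = (D^i0)⁻¹; then PP i j with g = D^i. -/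
theorem st_of_blocks (h : IsBr N s) (π : G →* Module.End ℂ V) [FiniteDimensional ℂ V]
    (k m d : ℕ) (hk : 3 ≤ k) (hm2 : 2 ≤ m) (hm : m * k ≤ N + 1) (hL : Low.{u, 0} (KB (k - 1)) d)
    (hd : 3 ≤ d) (hV : Module.finrank ℂ V < m.choose 2 * d ^ 2) : St N s π := by
  have h2k : 2 * k ≤ N + 1 := le_trans (Nat.mul_le_mul_right k hm2) hm
  -- (a)
  have ha : ∀ i, i + 3 ≤ k → PP s π i k := by
    intro i hi x hx y hy
    obtain ⟨x', hx', rfl⟩ := Kp_blk h k 0 i (by omega) hi x (by rwa [Nat.mul_zero, Nat.zero_add])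
    obtain ⟨y', hy', rfl⟩ := Kp_blk h k 1 0 (by omega) (by omega) y
      (by rwa [Nat.mul_one, Nat.add_zero])
    exact blocks_kill h π k m d (by omega) hm2 hm hL hd hV x' y' hx' hy'
  -- (b)
  have hb : ∀ i j, i + 3 ≤ k → k ≤ j → j + 2 ≤ N → PP s π i j := by
    intro i j hi hj hj2
    have hout : ∀ c, c + 2 ≤ k → del s k (N - k) ^ (j - k) * s c = s c * del s k (N - k) ^ (j - k) := by
      intro c hc
      have : Commute (del s k (N - k)) (s c) :=
        del_out h k (N - k) c (by omega) (by omega) (Or.inl hc)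
      exact (this.pow_left (j - k)).eq
    apply PP_conj π i k i j (del s k (N - k) ^ (j - k)) (hout i (by omega))
      (hout (i + 1) (by omega)) ?_ ?_ (ha i hi)
    · have := del_pow_conj h k (N - k) k (j - k) (by omega) le_rfl (by omega)
      rwa [show k + (j - k) = j by omega] at this
    · have := del_pow_conj h k (N - k) (k + 1) (j - k) (by omega) (by omega) (by omega)
      rwa [show k + 1 + (j - k) = j + 1 by omega] at this
  -- (c)
  intro i j hij hj
  have hD : ∀ a c, c + a < N → del s 0 N ^ a * s c = s (c + a) * del s 0 N ^ a := fun a c hc =>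
    del_pow_conj h 0 N c a (by omega) (by omega) (by omega)
  obtain ⟨i0, hi0, hi0k, hi0N⟩ : ∃ i0, k ≤ i0 + (j - i) ∧ i0 + 3 ≤ k ∧ i0 + (j - i) + 2 ≤ N := by
    by_cases he : j - i ≤ k
    · exact ⟨k - (j - i), by omega, by omega, by omega⟩
    · exact ⟨0, by omega, by omega, by omega⟩
  have h0 := hb i0 (i0 + (j - i)) hi0k hi0 hi0N
  have hinv : ∀ c, c + i0 < N → (del s 0 N ^ i0)⁻¹ * s (c + i0) = s c * (del s 0 N ^ i0)⁻¹ := by
    intro c hc
    rw [inv_mul_eq_iff_eq_mul, ← mul_assoc, hD i0 c hc, mul_inv_cancel_right]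
  have h1 : PP s π 0 (j - i) := by
    apply PP_conj π i0 (i0 + (j - i)) 0 (j - i) (del s 0 N ^ i0)⁻¹ ?_ ?_ ?_ ?_ h0
    · have := hinv 0 (by omega); rwa [Nat.zero_add] at this
    · have := hinv 1 (by omega); rwa [show 1 + i0 = i0 + 1 by omega] at this
    · have := hinv (j - i) (by omega); rwa [show j - i + i0 = i0 + (j - i) by omega] at this
    · have := hinv (j - i + 1) (by omega)
      rwa [show j - i + 1 + i0 = i0 + (j - i) + 1 by omega] at this
  apply PP_conj π 0 (j - i) i j (del s 0 N ^ i) ?_ ?_ ?_ ?_ h1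
  · have := hD i 0 (by omega); rwa [Nat.zero_add] at this
  · have := hD i 1 (by omega); rwa [show 1 + i = i + 1 by omega] at this
  · have := hD i (j - i) (by omega); rwa [show j - i + i = j by omega] at this
  · have := hD i (j - i + 1) (by omega); rwa [show j - i + 1 + i = j + 1 by omega] at this
-- END BL13

end blocks

end Pool.Agent.QB54
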