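import Mathlib

/-!
# Braid relations

`s 0, ..., s (N-1)` are elements of a group satisfying the braid relations.
-/

set_option autoImplicit false
set_option linter.all false

namespace Pool.Agent.QB54

/-- `s 0, ..., s (N-1)` satisfy the braid relations. -/
structure IsBr {G : Type*} [Monoid G] (N : ℕ) (s : ℕ → G) : Prop where
  brd : ∀ i, i + 1 < N → s i * s (i + 1) * s i = s (i + 1) * s i * s (i + 1)
  com : ∀ i j, i + 2 ≤ j → j < N → s i * s j = s j * s i

/-- `del s a l = s a * s (a+1) * ... * s (a+l-1)` -/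
def del {G : Type*} [Monoid G] (s : ℕ → G) (a : ℕ) : ℕ → G
  | 0 => 1
  | l + 1 => del s a l * s (a + l)

section grp

variable {G : Type*} [Group G] {N : ℕ} {s : ℕ → G}

-- MODULE BR1
/-- PROOF. Induction on l: del s a (l+2) = del s a (l+1) * s (a+l+1) = s a * (del s (a+1) l * s (a+1+l)). -/
theorem del_left (s : ℕ → G) (a l : ℕ) : del s a (l + 1) = s a * del s (a + 1) l := by
  induction l with
  | zero => simp [del]
  | succ l ih =>
    rw [del, ih, mul_assoc]
    congr 1
    rw [del]
    congr 2
    omega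
-- END BR1

-- MODULE BR2
/-- PROOF. Induction on l: every factor `s i`, `a ≤ i < a + l`, commutes with `s j` (`com`, in one of the two orders). -/
theorem del_out (h : IsBr N s) (a l j : ℕ) (hl : a + l ≤ N) (hj : j < N)
    (hjj : j + 2 ≤ a ∨ a + l + 1 ≤ j) : del s a l * s j = s j * del s a l := by
  induction l with
  | zero => simp [del]
  | succ l ih =>
    have h1 := ih (by omega) (by omega)
    have h2 : s (a + l) * s j = s j * s (a + l) := by
      rcases hjj with h3 | h3
      · exact (h.com j (a + l) (by omega) (by omega)).symm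
      · exact h.com (a + l) j (by omega) hj
    rw [del, mul_assoc, h2, ← mul_assoc, h1, mul_assoc]
-- END BR2

-- MODULE BR3
/-- PROOF. Induction on l. del s a (l+1) * s j = del s a l * s (a+l) * s j. If j + 2 ≤ a + l then s (a+l) commutes with s j and the induction hypothesis
applies, (after it s (j+1) is in front). Otherwise j + 1 = a + l, l = l' + 1, j = a + l': del s a l' * s j * s (j+1) * s j = del s a l' * s (j+1) * s j * s (j+1), and s (j+1) commutes
with del s a l' (BR2: a + l' + 1 ≤ j + 1). -/
theorem del_conj (h : IsBr N s) (a l j : ℕ) (hl : a + l ≤ N) (ha : a ≤ j) (hj : j + 2 ≤ a + l) :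
    del s a l * s j = s (j + 1) * del s a l := by
  induction l with
  | zero => omega
  | succ l ih =>
    show del s a l * s (a + l) * s j = s (j + 1) * (del s a l * s (a + l))
    by_cases h1 : j + 2 ≤ a + l
    · have h2 := h.com j (a + l) h1 (by omega)
      have h3 := ih (by omega) h1
      rw [mul_assoc, ← h2, ← mul_assoc, h3, mul_assoc]
    · obtain ⟨m, rfl⟩ : ∃ m, l = m + 1 := ⟨l - 1, by omega⟩
      have hj' : j = a + m := by omega
      subst hj'
      have h2 := h.brd (a + m) (by omega)
      have h3 := del_out h a m (a + m + 1) (by omega) (by omega) (by omega)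
      have h4 : a + (m + 1) = a + m + 1 := by omega
      show del s a m * s (a + m) * s (a + (m + 1)) * s (a + m)
        = s (a + m + 1) * (del s a m * s (a + m) * s (a + (m + 1)))
      rw [h4]
      calc del s a m * s (a + m) * s (a + m + 1) * s (a + m)
          = del s a m * (s (a + m) * s (a + m + 1) * s (a + m)) := by simp only [mul_assoc]
        _ = del s a m * s (a + m + 1) * (s (a + m) * s (a + m + 1)) := by
            rw [h2]; simp only [mul_assoc]
        _ = _ := by rw [h3]; simp only [mul_assoc]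
-- END BR3

-- MODULE BR4
private theorem BR4_sh (h : IsBr N s) (a l : ℕ) (hl : a + l + 1 ≤ N) (m : ℕ) (hm : m ≤ l) :
    del s a (l + 1) * del s a m = del s (a + 1) m * del s a (l + 1) := by
  induction m with
  | zero => simp [del]
  | succ m ih =>
    have h1 := ih (by omega)
    have h2 := del_conj h a (l + 1) (a + m) (by omega) (by omega) (by omega)
    have h4 : a + 1 + m = a + m + 1 := by omega
    show del s a (l + 1) * (del s a m * s (a + m))
      = del s (a + 1) m * s (a + 1 + m) * del s a (l + 1)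
    rw [h4, ← mul_assoc, h1, mul_assoc, h2, ← mul_assoc]

/-- PROOF. D = del s a (l+1). By BR3, D * del s a l' = del s (a+1) l' * D for l' ≤ l (induction on l'). So D * D = D * (del s a l * s (a+l)) = del s (a+1) l * D * s (a+l) and
s a * D * D = s a * del s (a+1) l * D * s (a+l) = D * D * s (a+l) by BR1. -/
theorem del_sq (h : IsBr N s) (a l : ℕ) (hl : a + l + 1 ≤ N) :
    del s a (l + 1) * del s a (l + 1) * s (a + l) =
      s a * (del s a (l + 1) * del s a (l + 1)) := by
  have h1 := BR4_sh h a l hl l le_rfl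
  have h2 := del_left s a l
  have h3 : del s a (l + 1) * del s a (l + 1) = del s (a + 1) l * del s a (l + 1) * s (a + l) := by
    rw [← h1, mul_assoc]
    rfl
  calc del s a (l + 1) * del s a (l + 1) * s (a + l)
      = s a * del s (a + 1) l * del s a (l + 1) * s (a + l) := by rw [← h2]
    _ = s a * (del s (a + 1) l * del s a (l + 1) * s (a + l)) := by simp only [mul_assoc]
    _ = _ := by rw [← h3]
-- END BR4

-- MODULE BR5
/-- PROOF. Induction on i, BR3. -/
theorem del_pow_conj (h : IsBr N s) (a l j i : ℕ) (hl : a + l ≤ N) (ha : a ≤ j)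
    (hj : j + i < a + l) : del s a l ^ i * s j = s (j + i) * del s a l ^ i := by
  induction i with
  | zero => simp
  | succ i ih =>
    have h1 := ih (by omega)
    have h2 := del_conj h a l (j + i) hl (by omega) (by omega)
    rw [pow_succ', mul_assoc, h1, ← mul_assoc, h2, mul_assoc]
    rfl
-- END BR5

-- MODULE BR6
/-- The full twist. PROOF. D = del s a l, l ≥ 1. D^(l+1) * s a = D^2 * (D^(l-1) * s a) = D^2 * s (a+l-1) * D^(l-1) = s a * D^2 * D^(l-1) (BR5, BR4). For j = a + i: s j = D^i * s a * D^(-i) (BR5), and D^(l+1)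
commutes with D^i and with s a. -/
theorem del_full (h : IsBr N s) (a l j : ℕ) (hl : a + l ≤ N) (ha : a ≤ j) (hj : j < a + l) :
    del s a l ^ (l + 1) * s j = s j * del s a l ^ (l + 1) := by
  obtain ⟨i, rfl⟩ : ∃ i, j = a + i := ⟨j - a, by omega⟩
  obtain ⟨m, rfl⟩ : ∃ m, l = m + 1 := ⟨l - 1, by omega⟩
  set D := del s a (m + 1) with hD
  have h1 : D ^ m * s a = s (a + m) * D ^ m := del_pow_conj h a (m + 1) a m hl le_rfl (by omega)
  have h2 : D * D * s (a + m) = s a * (D * D) := del_sq h a m (by omega)
  have h3 : D ^ i * s a = s (a + i) * D ^ i :=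
    del_pow_conj h a (m + 1) a i hl le_rfl (by omega)
  have h4 : D ^ (m + 1 + 1) = D * D * D ^ m := by
    rw [pow_succ', pow_succ', mul_assoc]
  have h5 : D ^ (m + 1 + 1) * s a = s a * D ^ (m + 1 + 1) := by
    rw [h4, mul_assoc, h1, ← mul_assoc, h2, mul_assoc]
  have h6 : Commute (D ^ (m + 1 + 1)) (s a) := h5
  have h7 : s (a + i) = D ^ i * s a * (D ^ i)⁻¹ := by rw [h3]; group
  have h8 : Commute (D ^ (m + 1 + 1)) (D ^ i) := (Commute.refl D).pow_pow _ _
  have h9 : Commute (D ^ (m + 1 + 1)) (s (a + i)) := by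
    rw [h7]
    exact (h8.mul_right h6).mul_right h8.inv_right
  exact h9
-- END BR6

/-- exchange of the two blocks of `k` strands starting at `a` and `a + k` -/
def swp (s : ℕ → G) (a k : ℕ) : G := del s a (2 * k - 1) ^ k

-- MODULE BR7
/-- Block swap. PROOF. D = del s a (2k-1), g = D^k. (1) BR5 with j := a + j, i := k (a + j + k < a + 2k - 1). (2) g * s (a+k+j) = g * (g * s (a+j) * g⁻¹) = (g * g) * s (a+j) * g⁻¹ and
g * g = D^(2k) = D^((2k-1)+1) commutes with s (a+j) (BR6), so it is s (a+j) * g. (3) BR2 for D (c + 2 ≤ a or a + (2k-1) + 1 ≤ c), then powers. -/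
theorem swp_spec (h : IsBr N s) (a k : ℕ) (hk : 1 ≤ k) (hl : a + 2 * k ≤ N + 1) :
    (∀ j, j + 1 < k → swp s a k * s (a + j) = s (a + k + j) * swp s a k) ∧
    (∀ j, j + 1 < k → swp s a k * s (a + k + j) = s (a + j) * swp s a k) ∧
    (∀ c, c < N → c + 2 ≤ a ∨ a + 2 * k ≤ c → swp s a k * s c = s c * swp s a k) := by
  have e1 : ∀ j, j + 1 < k → swp s a k * s (a + j) = s (a + k + j) * swp s a k := by
    intro j hj
    have h1 := del_pow_conj h a (2 * k - 1) (a + j) k (by omega) (by omega) (by omega)
    have h2 : a + j + k = a + k + j := by omega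
    rw [h2] at h1
    exact h1
  refine ⟨e1, ?_, ?_⟩
  · intro j hj
    have h1 := e1 j hj
    have h2 : swp s a k * swp s a k * s (a + j) = s (a + j) * (swp s a k * swp s a k) := by
      have h3 := del_full h a (2 * k - 1) (a + j) (by omega) (by omega) (by omega)
      have h4 : swp s a k * swp s a k = del s a (2 * k - 1) ^ (2 * k - 1 + 1) := by
        unfold swp
        rw [← pow_add]
        congr 1
        omega
      rw [h4]
      exact h3
    have h5 : swp s a k * s (a + k + j) * swp s a k = s (a + j) * swp s a k * swp s a k := by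
      rw [mul_assoc, ← h1, ← mul_assoc, h2, mul_assoc]
    exact mul_right_cancel h5
  · intro c hc hcc
    have h1 := del_out h a (2 * k - 1) c (by omega) hc (by omega)
    exact (Commute.pow_left h1 k)
-- END BR7

/-- the commutator subgroup of the group generated by `s i` and `s (i+1)` -/
def Kp (s : ℕ → G) (i : ℕ) : Subgroup G :=
  ⁅Subgroup.closure {s i, s (i + 1)}, Subgroup.closure {s i, s (i + 1)}⁆

-- MODULE BR8
private theorem BR8_map (s : ℕ → G) (i i' : ℕ) (g : G) (h0 : g * s i = s i' * g)
    (h1 : g * s (i + 1) = s (i' + 1) * g) :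
    (Kp s i).map (MulAut.conj g).toMonoidHom = Kp s i' := by
  have e0 : (MulAut.conj g) (s i) = s i' := by
    rw [MulAut.conj_apply, h0]; group
  have e1 : (MulAut.conj g) (s (i + 1)) = s (i' + 1) := by
    rw [MulAut.conj_apply, h1]; group
  have e2 : (Subgroup.closure {s i, s (i + 1)}).map (MulAut.conj g).toMonoidHom
      = Subgroup.closure {s i', s (i' + 1)} := by
    rw [MonoidHom.map_closure, Set.image_pair]
    show Subgroup.closure {(MulAut.conj g) (s i), (MulAut.conj g) (s (i + 1))} = _
    rw [e0, e1]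
  unfold Kp
  rw [Subgroup.map_commutator, e2]

/-- PROOF. Conjugation by g maps s i to s i' and s (i+1) to s (i'+1) (g * s i * g⁻¹ = s i'), so it maps the closure onto the closure (`MonoidHom.map_closure`) and the commutator subgroup onto the commutator subgroup
(`Subgroup.map_commutator`), with `(MulAut.conj g).toMonoidHom`. -/
theorem Kp_conj (s : ℕ → G) (i i' : ℕ) (g : G) (h0 : g * s i = s i' * g)
    (h1 : g * s (i + 1) = s (i' + 1) * g) (x : G) : g * x * g⁻¹ ∈ Kp s i' ↔ x ∈ Kp s i := by
  rw [← BR8_map s i i' g h0 h1]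
  have h2 : g * x * g⁻¹ = (MulAut.conj g).toMonoidHom x := rfl
  rw [h2]
  exact Subgroup.mem_map_iff_mem (MulAut.conj g).injective
-- END BR8

-- MODULE BR9
/-- PROOF. By the braid relation s (i+1) = (s i * s (i+1)) * s i * (s i * s (i+1))⁻¹, so s (i+1) * (s i)⁻¹ = ⁅s i * s (i+1), s i⁆ is in Kp s i; take the inverse for the other one. -/
theorem diff_mem_Kp (h : IsBr N s) (i : ℕ) (hi : i + 1 < N) :
    s i * (s (i + 1))⁻¹ ∈ Kp s i ∧ s (i + 1) * (s i)⁻¹ ∈ Kp s i := by
  have hb := h.brd i hi
  have hA : s i ∈ Subgroup.closure {s i, s (i + 1)} := Subgroup.subset_closure (by simp)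
  have hB : s (i + 1) ∈ Subgroup.closure {s i, s (i + 1)} := Subgroup.subset_closure (by simp)
  have h2 : s (i + 1) * (s i)⁻¹ ∈ Kp s i := by
    have h3 := Subgroup.commutator_mem_commutator (mul_mem hA hB) hA
    rw [commutatorElement_def, mul_inv_rev] at h3
    have e : s i * s (i + 1) * s i * ((s (i + 1))⁻¹ * (s i)⁻¹) = s (i + 1) := by
      rw [hb]; group
    rwa [e] at h3
  refine ⟨?_, h2⟩
  have := inv_mem h2
  simpa [mul_inv_rev] using this
-- END BR9

-- MODULE BR10
/-- The generators s i, s (i+1) normalize Kp s i. PROOF. They are in the closure L and ⁅L, L⁆ is normalized by L: for x ∈ ⁅L, L⁆ ≤ L and g ∈ L, g x g⁻¹ = ⁅g, x⁆ * x. The elements commuting with s i and s (i+1) normalize it by BR8 with i' = i. -/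
theorem Kp_norm (s : ℕ → G) (i : ℕ) (g : G) (hg : g = s i ∨ g = s (i + 1) ∨
    (g * s i = s i * g ∧ g * s (i + 1) = s (i + 1) * g)) (x : G) (hx : x ∈ Kp s i) :
    g * x * g⁻¹ ∈ Kp s i := by
  have hA : s i ∈ Subgroup.closure {s i, s (i + 1)} := Subgroup.subset_closure (by simp)
  have hB : s (i + 1) ∈ Subgroup.closure {s i, s (i + 1)} := Subgroup.subset_closure (by simp)
  have hL : ∀ g ∈ Subgroup.closure {s i, s (i + 1)}, g * x * g⁻¹ ∈ Kp s i := by
    intro g hg
    have hle : Kp s i ≤ Subgroup.closure {s i, s (i + 1)} := by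
      refine Subgroup.commutator_le.2 ?_
      intro a ha b hb
      rw [commutatorElement_def]
      exact mul_mem (mul_mem (mul_mem ha hb) (inv_mem ha)) (inv_mem hb)
    have hxL := hle hx
    have h3 := Subgroup.commutator_mem_commutator hg hxL
    rw [commutatorElement_def] at h3
    have e : g * x * g⁻¹ = (g * x * g⁻¹ * x⁻¹) * x := by group
    rw [e]
    exact mul_mem h3 hx
  rcases hg with rfl | rfl | ⟨h0, h1⟩
  · exact hL _ hA
  · exact hL _ hB
  · exact (Kp_conj s i i g h0 h1 x).2 hx
-- END BR10

end grp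

end Pool.Agent.QB54
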