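import Pool.Agent.PB3.Defs

/-!
# The braid group as a group of automorphisms of the free group

`sig i j` (for `j = i + 1`) is Artin's automorphism of the free group given by the half twist of the
strands `i` and `i + 1`; the braid group `BraidGroup n` (fundamental group of the space of unordered
`n`-tuples of points of the plane) is generated by them.
-/

set_option autoImplicit false
set_option linter.all false

namespace Pool.Agent.QB54

open Pool.Agent.Conf14 Pool.Agent.PB3
open FreeGroup (of lift lift_apply_of)

universe u

variable {n : ℕ}

/-- images of the generators under the half twist -/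
def sigFun (i j k : Fin n) : FreeGroup (Fin n) :=
  if k = i then of j else if k = j then (of j)⁻¹ * of i * of j else of k

/-- images of the generators under the inverse of the half twist -/
def sigInvFun (i j k : Fin n) : FreeGroup (Fin n) :=
  if k = j then of i else if k = i then of i * of j * (of i)⁻¹ else of k

theorem sig_left (i j : Fin n) :
    (lift (sigInvFun i j)).comp (lift (sigFun i j)) = MonoidHom.id _ := by
  apply FreeGroup.ext_hom
  intro k
  have hi : lift (sigInvFun i j) (of i) = of i * of j * (of i)⁻¹ := by
    rw [lift_apply_of, sigInvFun]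
    by_cases h : i = j
    · rw [if_pos h, h]; group
    · rw [if_neg h, if_pos rfl]
  have hj : lift (sigInvFun i j) (of j) = of i := by
    rw [lift_apply_of, sigInvFun, if_pos rfl]
  simp only [MonoidHom.comp_apply, lift_apply_of, MonoidHom.id_apply]
  rw [sigFun]
  split_ifs with h1 h2
  · rw [hj, h1]
  · simp only [map_mul, map_inv, hi, hj, h2]
    group
  · rw [lift_apply_of, sigInvFun, if_neg h2, if_neg h1]

theorem sig_right (i j : Fin n) :
    (lift (sigFun i j)).comp (lift (sigInvFun i j)) = MonoidHom.id _ := by
  apply FreeGroup.ext_hom
  intro k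
  have hi : lift (sigFun i j) (of i) = of j := by
    rw [lift_apply_of, sigFun, if_pos rfl]
  have hj : lift (sigFun i j) (of j) = (of j)⁻¹ * of i * of j := by
    rw [lift_apply_of, sigFun]
    by_cases h : j = i
    · rw [if_pos h, h]; group
    · rw [if_neg h, if_pos rfl]
  simp only [MonoidHom.comp_apply, lift_apply_of, MonoidHom.id_apply]
  rw [sigInvFun]
  split_ifs with h1 h2
  · rw [hi, h1]
  · simp only [map_mul, map_inv, hi, hj, h2]
    group
  · rw [lift_apply_of, sigFun, if_neg h2, if_neg h1]

/-- Artin's automorphism of the free group given by the half twist of the strands `i` and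
`j = i + 1`: it maps `x i` to `x j` and `x j` to `(x j)⁻¹ * x i * x j` and fixes the others -/
def sig (i j : Fin n) : MulAut (FreeGroup (Fin n)) :=
  MonoidHom.toMulEquiv (lift (sigFun i j)) (lift (sigInvFun i j)) (sig_left i j) (sig_right i j)

/-- the braid group on `n` strands -/
def BraidGroup (n : ℕ) : Subgroup (MulAut (FreeGroup (Fin n))) :=
  Subgroup.closure {φ | ∃ i j : Fin n, (j : ℕ) = i + 1 ∧ φ = sig i j}

/-- `W` is stable under the pure braid group, irreducible, and of dimension one or contained in
the cohomology of cyclic covers: `σ` is the restriction of `ρ` to the pure braid group and to `W`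
(`PureBraid n` is contained in `BraidGroup n`, see `pure_le`) -/
def Piece {V : Type u} [AddCommGroup V] [Module ℂ V] (ρ : Representation ℂ (BraidGroup n) V)
    (W : Submodule ℂ V) : Prop :=
  ∃ σ : Representation ℂ (PureBraid n) W,
    (∀ (β : MulAut (FreeGroup (Fin n))) (h : β ∈ PureBraid n) (h' : β ∈ BraidGroup n) (w : W),
      (σ ⟨β, h⟩ w : V) = ρ ⟨β, h'⟩ w) ∧
    σ.IsIrreducible ∧ (Module.finrank ℂ W = 1 ∨ InCyclicCovers σ)

end Pool.Agent.QB54
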