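import Pool.Agent.QB54.Fou

/-!
# Representations of the braid group of small dimension
-/

set_option autoImplicit false
set_option linter.all false

namespace Pool.Agent.QB54

open Pool.Agent.HG13

universe u

-- MODULE FI1
private theorem FI1_choose (m : ℕ) (hm : 2 ≤ m) : 6 * m + 4 ≤ m.choose 2 * 4 ^ 2 := by
  have hc : m.choose 2 * 2 = m * (m - 1) := by
    rw [Nat.choose_two_right]
    exact Nat.div_mul_cancel (Nat.even_mul_pred_self m).two_dvd
  obtain ⟨t, rfl⟩ : ∃ t, m = t + 2 := ⟨m - 2, by omega⟩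
  have h1 : t + 2 - 1 = t + 1 := by omega
  rw [h1] at hc
  nlinarith [hc, Nat.zero_le t, Nat.zero_le (t * t)]

private theorem FI1_kill (M : ℕ) (hM : 2 ≤ M) {S : Type u} [AddCommGroup S] [Module ℂ S]
    (σ : Br M →* Module.End ℂ S) (h : σ (bs M 0) = σ (bs M 1)) (k : Br M) (hk : k ∈ KB M) :
    σ k = 1 := by
  have hu : σ (bs M 1) * σ ((bs M 0)⁻¹) = 1 := by
    rw [← h, ← map_mul, mul_inv_cancel, map_one]
  have hle : KB M ≤ σ.ker := by
    refine Subgroup.normalClosure_le_normal ?_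
    intro x hx
    rw [Set.mem_singleton_iff] at hx
    subst hx
    show _ ∈ σ.ker
    rw [MonoidHom.mem_ker, map_mul]
    exact hu
  exact MonoidHom.mem_ker.1 (hle hk)

/-- PROOF. Perfect: BL5 (4 ≤ k - 1). Let σ : Br (k-1) → End S be irreducible with dim S < k - 2, N = k - 1, s = bs (k-1). If dim S ≤ 1 (S is nontrivial, so dim S = 1) End S is commutative (every endomorphism is a scalar), and the braid relation of s 0, s 1 with invertibility gives σ (s 0) = σ (s 1), so the normal subgroup {x | σ x = 1}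
contains bs 1 * (bs 0)⁻¹ and so KB. If 2 ≤ dim S: Base N s σ (BL1, BL3). Put m = k / 6 ≥ 2; m * 6 ≤ k = N + 1; dim S < k - 2 ≤ 8 m (m-1) = (m choose 2) * 4^2 [k ≤ 6 m + 5, 6 m + 3 ≤ 8 m (m - 1) for m ≥ 2: 16 m.. m = 2: 15 ≤ 16; m ≥ 3: 8 m (m-1) ≥ 16 m ≥ 6 m + 3; Nat.choose_two_right]. So St N s σ by st_of_blocks with (k, m, d) := (6, m, 4) and
low_six, and all_of_St (7 ≤ N) gives N ≤ dim S + 1, i.e. k - 2 ≤ dim S: contradiction. -/
theorem low_k (k : ℕ) (hk : 12 ≤ k) : Low.{u, 0} (KB (k - 1)) (k - 2) := by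
  refine ⟨KB_perfect (k - 1) (by omega), ?_⟩
  intro S _ _ _ σ hσ hd x hx
  have hb : IsBr (k - 1) (bs (k - 1)) := bs_isBr (k - 1)
  by_cases h2 : 2 ≤ Module.finrank ℂ S
  · exfalso
    have hB : Base (k - 1) (bs (k - 1)) σ := ⟨hb, bs_closure (k - 1), hσ, h2⟩
    have hm2 : 2 ≤ k / 6 := by omega
    have hc := FI1_choose (k / 6) hm2
    have hS := st_of_blocks hb σ 6 (k / 6) 4 (by omega) hm2 (by omega) low_six (by omega)
      (by omega)
    obtain ⟨h1, h3, h4⟩ := all_of_St hB hS (by omega)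
    omega
  · refine FI1_kill (k - 1) (by omega) σ ?_ x hx
    have hbr := hb.brd 0 (by omega)
    have hbr' : σ (bs (k - 1) 0) * σ (bs (k - 1) 1) * σ (bs (k - 1) 0) =
        σ (bs (k - 1) 1) * σ (bs (k - 1) 0) * σ (bs (k - 1) 1) := by
      rw [← map_mul, ← map_mul, ← map_mul, ← map_mul]
      exact congrArg σ hbr
    have hcomm : ∀ f g : Module.End ℂ S, f * g = g * f := by
      intro f g
      have h1 : Module.finrank ℂ S ≤ 1 := by omega
      rw [finrank_le_one_iff] at h1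
      obtain ⟨v, hv⟩ := h1
      obtain ⟨a, ha⟩ := hv (f v)
      obtain ⟨b, hb⟩ := hv (g v)
      ext w
      obtain ⟨c, rfl⟩ := hv w
      simp only [Module.End.mul_apply, map_smul, ← ha, ← hb]
      rw [smul_comm a b]
    have hu1 : σ ((bs (k - 1) 0)⁻¹) * σ (bs (k - 1) 0) = 1 := by
      rw [← map_mul, inv_mul_cancel, map_one]
    have hu2 : σ ((bs (k - 1) 1)⁻¹) * σ (bs (k - 1) 1) = 1 := by
      rw [← map_mul, inv_mul_cancel, map_one]
    set A := σ (bs (k - 1) 0)
    set B := σ (bs (k - 1) 1)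
    set A' := σ ((bs (k - 1) 0)⁻¹)
    set B' := σ ((bs (k - 1) 1)⁻¹)
    have e1 : B' * (A' * (A * B * A)) = A := by
      rw [hcomm A B, mul_assoc B A A, ← mul_assoc A' B, hcomm A' B, mul_assoc B A', ← mul_assoc A' A A, hu1,
        one_mul, ← mul_assoc, hu2, one_mul]
    have e2 : B' * (A' * (B * A * B)) = B := by
      rw [mul_assoc B A B, ← mul_assoc A' B, hcomm A' B, mul_assoc B A', ← mul_assoc A' A B, hu1,
        one_mul, ← mul_assoc, hu2, one_mul]
    rw [← e1, hbr', e2]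
-- END FI1

/-- THEOREM QB for a group generated by `s 0, ..., s (n-2)` satisfying the braid relations. -/
theorem main_qb {G : Type*} [Group G] {s : ℕ → G} {V : Type u} [AddCommGroup V] [Module ℂ V]
    (n k m : ℕ) (hk : 12 ≤ k) (hm : 2 ≤ m) (hn : m * k ≤ n) (π : G →* Module.End ℂ V)
    (h : Base (n - 1) s π)
    (hV : 2 * Module.finrank ℂ V < m * (m - 1) * (k - 2) ^ 2) :
    n ≤ Module.finrank ℂ V + 2 ∧ Module.finrank ℂ V ≤ n ∧
      (RkOne (n - 1) s π ∨ Mono (n - 1) s π) := by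
  have : FiniteDimensional ℂ V := FiniteDimensional.of_finrank_pos (by have := h.dim; omega)
  have h24 : 24 ≤ n := le_trans (by nlinarith) hn
  have hc : 2 * m.choose 2 = m * (m - 1) := by
    rw [Nat.choose_two_right]
    exact Nat.mul_div_cancel' (Nat.even_mul_pred_self m).two_dvd
  have hV' : Module.finrank ℂ V < m.choose 2 * (k - 2) ^ 2 := by
    rw [← hc, mul_assoc] at hV
    omega
  have hS := st_of_blocks h.br π k m (k - 2) (by omega) hm (by omega) (low_k.{u} k hk) (by omega)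
    hV'
  obtain ⟨h1, h2, h3⟩ := all_of_St h hS (by omega)
  exact ⟨by omega, by omega, h3⟩

end Pool.Agent.QB54
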