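import Pool.Agent.QB54.Two

/-!
# The two kinds of representations
-/

set_option autoImplicit false
set_option linter.all false

namespace Pool.Agent.QB54

open Pool.Agent.HG13

universe u

variable {G : Type*} [Group G] {N : ℕ} {s : ℕ → G} {V : Type u} [AddCommGroup V] [Module ℂ V]

/-- the situation after Step 3 -/
structure Fo (N : ℕ) (s : ℕ → G) (π : G →* Module.End ℂ V) (lam : ℂ) : Prop where
  base : Base N s π
  hN : 4 ≤ N
  lam0 : lam ≠ 0
  far : ∀ i j, i + 2 ≤ j → j < N → nn s π lam i * nn s π lam j = 0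

-- MODULE FO1
private theorem FO1_nn (s : ℕ → G) (π : G →* Module.End ℂ V) (lam : ℂ) (i : ℕ) (v : V) :
    nn s π lam i v = π (s i) v - lam • v := rfl

private theorem FO1_pi (s : ℕ → G) (π : G →* Module.End ℂ V) (lam : ℂ) (i : ℕ) (v : V) :
    π (s i) v = lam • v + nn s π lam i v := by
  rw [FO1_nn]; abel

private theorem FO1_mul (π : G →* Module.End ℂ V) (g h : G) (v : V) :
    π (g * h) v = π g (π h v) := by rw [map_mul]; rfl

private theorem FO1_com (h : IsBr N s) (i j : ℕ) (hi : i < N) (hj : j < N)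
    (hij : i + 2 ≤ j ∨ j + 2 ≤ i) : s i * s j = s j * s i := by
  rcases hij with h1 | h1
  · exact h.com i j h1 hj
  · exact (h.com j i h1 hi).symm

private theorem FO1_comm (π : G →* Module.End ℂ V) (lam : ℂ) (i j : ℕ)
    (h : s i * s j = s j * s i) (v : V) :
    nn s π lam i (nn s π lam j v) = nn s π lam j (nn s π lam i v) := by
  have h1 : π (s i) (π (s j) v) = π (s j) (π (s i) v) := by
    rw [← FO1_mul, ← FO1_mul, h]
  simp only [FO1_nn, map_sub, map_smul, h1, smul_sub]
  abel

/-- PROOF. nn i * nn j = nn j * nn i for distant i, j (com), so both products are 0; π (s j) v = lam • v + nn j v. -/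
theorem Fo.fixed {π : G →* Module.End ℂ V} {lam : ℂ} (h : Fo N s π lam) (i j : ℕ) (hi : i < N)
    (hj : j < N) (hij : i + 2 ≤ j ∨ j + 2 ≤ i) (v : V) (hv : v ∈ LinearMap.range (nn s π lam i)) :
    π (s j) v = lam • v ∧ nn s π lam j v = 0 := by
  have hz : nn s π lam j v = 0 := by
    obtain ⟨w, rfl⟩ := hv
    have hc := FO1_comm π lam j i (FO1_com h.base.br j i hj hi (by omega)) w
    rcases hij with h1 | h1
    · rw [hc]
      exact LinearMap.congr_fun (h.far i j h1 hj) w
    · exact LinearMap.congr_fun (h.far j i h1 hi) w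
  exact ⟨by rw [FO1_pi s π lam j v, hz, add_zero], hz⟩
-- END FO1

-- MODULE FO2
private theorem FO2_inv (π : G →* Module.End ℂ V) (g : G) (v : V) : π g⁻¹ (π g v) = v := by
  rw [← FO1_mul, inv_mul_cancel, map_one]; rfl

private theorem FO2_inv' (π : G →* Module.End ℂ V) (g : G) (v : V) : π g (π g⁻¹ v) = v := by
  rw [← FO1_mul, mul_inv_cancel, map_one]; rfl

private theorem FO2_inj (π : G →* Module.End ℂ V) (g : G) {v w : V} (h : π g v = π g w) :
    v = w := by
  rw [← FO2_inv π g v, h, FO2_inv]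

/-- PROOF. π g * nn i = nn i' * π g, π g is invertible. -/
theorem nn_conj (π : G →* Module.End ℂ V) (lam : ℂ) (i i' : ℕ) (g : G)
    (h : g * s i = s i' * g) : (∀ v, π g (nn s π lam i v) = nn s π lam i' (π g v)) ∧
    (∀ v, π g v ∈ LinearMap.range (nn s π lam i') ↔ v ∈ LinearMap.range (nn s π lam i)) := by
  have h1 : ∀ v, π g (nn s π lam i v) = nn s π lam i' (π g v) := by
    intro v
    rw [FO1_nn, FO1_nn, map_sub, map_smul, ← FO1_mul, ← FO1_mul, h]
  refine ⟨h1, fun v => ⟨?_, ?_⟩⟩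
  · rintro ⟨w, hw⟩
    refine ⟨π g⁻¹ w, ?_⟩
    apply FO2_inj π g
    rw [h1, FO2_inv', hw]
  · rintro ⟨w, rfl⟩
    exact ⟨π g w, (h1 w).symm⟩
-- END FO2

-- MODULE FO3
/-- PROOF. Expand both sides of h: their difference is lam^2 (a - b) + lam (a^2 - b^2) + a b a - b a b. -/
theorem ring_id (a b : Module.End ℂ V) (lam : ℂ)
    (h : (lam • 1 + a) * (lam • 1 + b) * (lam • 1 + a) =
      (lam • 1 + b) * (lam • 1 + a) * (lam • 1 + b)) :
    a * (lam ^ 2 • 1 + lam • a + b * a) = b * (lam ^ 2 • 1 + lam • b + a * b) := by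
  have e1 : (lam • 1 + a) * (lam • 1 + b) * (lam • 1 + a) = lam ^ 3 • (1 : Module.End ℂ V) +
      (2 * lam ^ 2) • a + lam ^ 2 • b + lam • (a * b) + lam • (b * a) + lam • (a * a) +
      a * b * a := by
    simp only [add_mul, mul_add, smul_mul_assoc, mul_smul_comm, one_mul, mul_one, smul_add,
      smul_smul]
    module
  have e2 : (lam • 1 + b) * (lam • 1 + a) * (lam • 1 + b) = lam ^ 3 • (1 : Module.End ℂ V) +
      (2 * lam ^ 2) • b + lam ^ 2 • a + lam • (a * b) + lam • (b * a) + lam • (b * b) +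
      b * a * b := by
    simp only [add_mul, mul_add, smul_mul_assoc, mul_smul_comm, one_mul, mul_one, smul_add,
      smul_smul]
    module
  rw [e1, e2] at h
  have e3 : a * (lam ^ 2 • 1 + lam • a + b * a) = lam ^ 2 • a + lam • (a * a) + a * b * a := by
    simp only [mul_add, mul_smul_comm, mul_one, mul_assoc]
  have e4 : b * (lam ^ 2 • 1 + lam • b + a * b) = lam ^ 2 • b + lam • (b * b) + b * a * b := by
    simp only [mul_add, mul_smul_comm, mul_one, mul_assoc]
  rw [e3, e4]
  have h' := sub_eq_zero.mpr h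
  rw [← sub_eq_zero, ← h']
  module
-- END FO3

-- MODULE FO4
private theorem FO4_zero (hb : IsBr N s) (π : G →* Module.End ℂ V) (lam : ℂ) (i : ℕ)
    (hi : i + 1 < N)
    (hA : LinearMap.range (nn s π lam i) ⊓ LinearMap.range (nn s π lam (i + 1)) = ⊥) (w : V) :
    lam ^ 2 • nn s π lam i w + lam • nn s π lam i (nn s π lam i w) +
      nn s π lam i (nn s π lam (i + 1) (nn s π lam i w)) = 0 ∧
    lam ^ 2 • nn s π lam (i + 1) w + lam • nn s π lam (i + 1) (nn s π lam (i + 1) w) +
      nn s π lam (i + 1) (nn s π lam i (nn s π lam (i + 1) w)) = 0 := by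
  have hp : ∀ j, π (s j) = lam • 1 + nn s π lam j := fun j => by
    rw [nn]; abel
  have hbr : (lam • 1 + nn s π lam i) * (lam • 1 + nn s π lam (i + 1)) *
      (lam • 1 + nn s π lam i) = (lam • 1 + nn s π lam (i + 1)) * (lam • 1 + nn s π lam i) *
      (lam • 1 + nn s π lam (i + 1)) := by
    rw [← hp, ← hp, ← map_mul, ← map_mul, ← map_mul, ← map_mul, hb.brd i hi]
  have hr := LinearMap.congr_fun (ring_id _ _ lam hbr) w
  simp only [Module.End.mul_apply, LinearMap.add_apply, LinearMap.smul_apply,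
    Module.End.one_apply] at hr
  have hm : nn s π lam i (lam ^ 2 • w + lam • nn s π lam i w +
      nn s π lam (i + 1) (nn s π lam i w)) ∈
      LinearMap.range (nn s π lam i) ⊓ LinearMap.range (nn s π lam (i + 1)) := by
    refine ⟨⟨_, rfl⟩, ?_⟩
    rw [hr]
    exact ⟨_, rfl⟩
  rw [hA, Submodule.mem_bot] at hm
  have hm2 := hm
  rw [hr] at hm2
  rw [map_add, map_add, map_smul, map_smul] at hm hm2
  exact ⟨hm, hm2⟩

/-- Case A, two neighbours. PROOF. a = nn i, b = nn (i+1), π (s i) = lam + a, π (s (i+1)) = lam + b. ring_id: for every w the two sides applied to w are in range a and in range b, so they are 0: lam^2 a + lam a a + a b a = 0 and lam^2 b + lam b b + b a b = 0. (1) v = a w: a b v = a b a w =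
- lam (lam + a) a w = - lam π (s i) v. (2) the same. (3) (lam + a)(lam + b) v = lam (lam + a) v + lam b v + a b v = lam • b v by (1). -/
theorem caseA_local (hb : IsBr N s) (π : G →* Module.End ℂ V) (lam : ℂ) (i : ℕ) (hi : i + 1 < N)
    (hA : LinearMap.range (nn s π lam i) ⊓ LinearMap.range (nn s π lam (i + 1)) = ⊥) :
    (∀ v ∈ LinearMap.range (nn s π lam i),
      nn s π lam i (nn s π lam (i + 1) v) = -(lam • π (s i) v)) ∧
    (∀ v ∈ LinearMap.range (nn s π lam (i + 1)),
      nn s π lam (i + 1) (nn s π lam i v) = -(lam • π (s (i + 1)) v)) ∧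
    (∀ v ∈ LinearMap.range (nn s π lam i),
      π (s i) (π (s (i + 1)) v) = lam • nn s π lam (i + 1) v) := by
  have h1 : ∀ v ∈ LinearMap.range (nn s π lam i),
      nn s π lam i (nn s π lam (i + 1) v) = -(lam • π (s i) v) := by
    rintro v ⟨w, rfl⟩
    have hz := (FO4_zero hb π lam i hi hA w).1
    rw [eq_neg_of_add_eq_zero_right hz, FO1_pi s π lam i, smul_add, smul_smul, pow_two]
  refine ⟨h1, ?_, ?_⟩
  · rintro v ⟨w, rfl⟩
    have hz := (FO4_zero hb π lam i hi hA w).2
    rw [eq_neg_of_add_eq_zero_right hz, FO1_pi s π lam (i + 1), smul_add, smul_smul, pow_two]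
  · intro v hv
    rw [FO1_pi s π lam (i + 1) v, map_add, map_smul, FO1_pi s π lam i (nn s π lam (i + 1) v),
      h1 v hv]
    abel
-- END FO4

-- MODULE FO5
private theorem FO5_g (hb : IsBr N s) (i : ℕ) (hi : i < N) :
    (∀ j, i + j < N → del s 0 N ^ i * s j = s (i + j) * del s 0 N ^ i) := by
  intro j hj
  have h := del_pow_conj hb 0 N j i (by omega) (by omega) (by omega)
  rwa [Nat.add_comm j i] at h

/-- PROOF. D = del s 0 N, g = D^i: g * s 0 = s i * g, g * s 1 = s (i+1) * g (BR5). If v is in both ranges then π g⁻¹ v is in range (nn 0) and range (nn 1) (FO2), so it is 0, v = 0. -/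
theorem caseA_all (hb : IsBr N s) (π : G →* Module.End ℂ V) (lam : ℂ) (i : ℕ) (hi : i + 1 < N)
    (hA : LinearMap.range (nn s π lam 0) ⊓ LinearMap.range (nn s π lam 1) = ⊥) :
    LinearMap.range (nn s π lam i) ⊓ LinearMap.range (nn s π lam (i + 1)) = ⊥ := by
  rw [eq_bot_iff]
  rintro v ⟨h0, h1⟩
  have g0 := (nn_conj π lam 0 i (del s 0 N ^ i)
    (by simpa using FO5_g hb i (by omega) 0 (by omega))).2
  have g1 := (nn_conj π lam 1 (i + 1) (del s 0 N ^ i) (FO5_g hb i (by omega) 1 hi)).2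
  have hm : π (del s 0 N ^ i)⁻¹ v ∈
      LinearMap.range (nn s π lam 0) ⊓ LinearMap.range (nn s π lam 1) := by
    refine ⟨?_, ?_⟩
    · rw [SetLike.mem_coe, ← g0, FO2_inv']; exact h0
    · rw [SetLike.mem_coe, ← g1, FO2_inv']; exact h1
  rw [hA, Submodule.mem_bot] at hm
  rw [Submodule.mem_bot, ← FO2_inv' π (del s 0 N ^ i) v, hm, map_zero]
-- END FO5

-- MODULE FO6
private theorem FO6_ne {π : G →* Module.End ℂ V} {lam : ℂ} (h : Fo N s π lam) :
    nn s π lam 0 ≠ 0 := by
  intro h0
  have hN := h.hN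
  have hall : ∀ i, i < N → π (s i) = lam • 1 := by
    intro i hi
    have g0 := (nn_conj π lam 0 i (del s 0 N ^ i)
      (by simpa using FO5_g h.base.br i hi 0 (by omega))).1
    have hz : ∀ v, nn s π lam i v = 0 := by
      intro v
      have := g0 (π (del s 0 N ^ i)⁻¹ v)
      rw [FO2_inv', h0] at this
      rw [← this]
      simp
    ext v
    rw [FO1_pi s π lam i v, hz v, add_zero]
    rfl
  exact not_all_equal h.base (fun i hi => by rw [hall i (by omega), hall (i + 1) hi])

private theorem FO6_start {π : G →* Module.End ℂ V} {lam : ℂ} (h : Fo N s π lam) :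
    ∃ (v : V) (mu : ℂ), mu ≠ 0 ∧ v ≠ 0 ∧ v ∈ LinearMap.range (nn s π lam 0) ∧
      π (s 0) v = mu • v := by
  have hd := h.base.dim
  haveI : FiniteDimensional ℂ V := FiniteDimensional.of_finrank_pos (by omega)
  have hR : ∀ v ∈ LinearMap.range (nn s π lam 0), π (s 0) v ∈ LinearMap.range (nn s π lam 0) := by
    rintro v ⟨w, rfl⟩
    exact ⟨π (s 0) w, ((nn_conj π lam 0 0 (s 0) rfl).1 w).symm⟩
  haveI : Nontrivial (LinearMap.range (nn s π lam 0)) := by
    rw [Submodule.nontrivial_iff_ne_bot, Ne, LinearMap.range_eq_bot]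
    exact FO6_ne h
  obtain ⟨mu, hmu⟩ := Module.End.exists_eigenvalue ((π (s 0)).restrict hR)
  obtain ⟨v, hv⟩ := hmu.exists_hasEigenvector
  have h1 : π (s 0) (v : V) = mu • (v : V) := congrArg Subtype.val hv.apply_eq_smul
  have h2 : (v : V) ≠ 0 := fun hh => hv.2 (Subtype.ext hh)
  refine ⟨v, mu, ?_, h2, v.2, h1⟩
  rintro rfl
  apply h2
  apply FO2_inj π (s 0)
  rw [h1, zero_smul, map_zero]

private noncomputable def FO6_seq (s : ℕ → G) (π : G →* Module.End ℂ V) (lam : ℂ) (v : V) : ℕ → V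
  | 0 => v
  | i + 1 => nn s π lam (i + 1) (FO6_seq s π lam v i)

/-- PROOF. nn 0 ≠ 0: otherwise (FO2 with g = D^i, D = del s 0 N) nn i = 0 for all i < N, so π (s i) = lam for all i, contradiction to TW2. range (nn 0) is non-zero and stable under π (s 0) (which commutes with nn 0), so it contains an eigenvector v 0 (Module.End.exists_eigenvalue for the restriction),
π (s 0) (v 0) = mu • v 0, mu ≠ 0 since π (s 0) is injective. v (i+1) := nn (i+1) (v i). Induction on i: v (i+1) ∈ range (nn (i+1)); lam • v (i+1) = π (s i) (π (s (i+1)) (v i)) (FO4 (3)); π (s (i+1)) of it = π (s (i+1) * s i * s (i+1)) (v i) = π (s i * s (i+1) * s i) (v i) = mu • π (s i) (π (s (i+1)) (v i))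
= (mu * lam) • v (i+1), cancel lam; nn i (v (i+1)) = nn i (nn (i+1) (v i)) = -(lam • π (s i) (v i)) = -(lam * mu) • v i (FO4 (1)); so v (i+1) = 0 would give v i = 0. -/
theorem caseA_seq {π : G →* Module.End ℂ V} {lam : ℂ} (h : Fo N s π lam)
    (hA : LinearMap.range (nn s π lam 0) ⊓ LinearMap.range (nn s π lam 1) = ⊥) :
    ∃ (v : ℕ → V) (mu : ℂ), mu ≠ 0 ∧
      (∀ i, i < N → v i ≠ 0 ∧ v i ∈ LinearMap.range (nn s π lam i) ∧ π (s i) (v i) = mu • v i) ∧
      (∀ i, i + 1 < N → nn s π lam (i + 1) (v i) = v (i + 1) ∧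
        nn s π lam i (v (i + 1)) = (-(lam * mu)) • v i) := by
  obtain ⟨v0, mu, hmu, hv0, hr0, he0⟩ := FO6_start h
  have hb := h.base.br
  have hstep : ∀ i, i + 1 < N → (FO6_seq s π lam v0 i ≠ 0 ∧
      FO6_seq s π lam v0 i ∈ LinearMap.range (nn s π lam i) ∧
      π (s i) (FO6_seq s π lam v0 i) = mu • FO6_seq s π lam v0 i) →
      (FO6_seq s π lam v0 (i + 1) ≠ 0 ∧
      FO6_seq s π lam v0 (i + 1) ∈ LinearMap.range (nn s π lam (i + 1)) ∧
      π (s (i + 1)) (FO6_seq s π lam v0 (i + 1)) = mu • FO6_seq s π lam v0 (i + 1)) ∧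
      nn s π lam i (FO6_seq s π lam v0 (i + 1)) = (-(lam * mu)) • FO6_seq s π lam v0 i := by
    rintro i hi ⟨hne, hr, he⟩
    obtain ⟨a1, a2, a3⟩ := caseA_local hb π lam i hi (caseA_all hb π lam i hi hA)
    have hdef : FO6_seq s π lam v0 (i + 1) = nn s π lam (i + 1) (FO6_seq s π lam v0 i) := rfl
    have hlast : nn s π lam i (FO6_seq s π lam v0 (i + 1)) =
        (-(lam * mu)) • FO6_seq s π lam v0 i := by
      rw [hdef, a1 _ hr, he, smul_smul, neg_smul]
    refine ⟨⟨?_, ⟨_, rfl⟩, ?_⟩, hlast⟩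
    · intro hz
      rw [hz, map_zero] at hlast
      rcases smul_eq_zero.mp hlast.symm with h1 | h1
      · exact (neg_ne_zero.mpr (mul_ne_zero h.lam0 hmu)) h1
      · exact hne h1
    · have e1 := a3 _ hr
      rw [← hdef] at e1
      have e2 : π (s (i + 1)) (π (s i) (π (s (i + 1)) (FO6_seq s π lam v0 i))) =
          mu • π (s i) (π (s (i + 1)) (FO6_seq s π lam v0 i)) := by
        rw [← FO1_mul, ← FO1_mul, ← hb.brd i hi, FO1_mul, he, map_smul, FO1_mul]
      rw [e1, map_smul, smul_comm mu lam] at e2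
      exact smul_right_injective V h.lam0 e2
  have hall : ∀ i, i < N → (FO6_seq s π lam v0 i ≠ 0 ∧
      FO6_seq s π lam v0 i ∈ LinearMap.range (nn s π lam i) ∧
      π (s i) (FO6_seq s π lam v0 i) = mu • FO6_seq s π lam v0 i) := by
    intro i
    induction i with
    | zero => intro _; exact ⟨hv0, hr0, he0⟩
    | succ i ih => intro hi; exact (hstep i hi (ih (by omega))).1
  exact ⟨FO6_seq s π lam v0, mu, hmu, hall, fun i hi => ⟨rfl, (hstep i hi (hall i (by omega))).2⟩⟩
-- END FO6

-- MODULE FO7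
private theorem FO7_mem {π : G →* Module.End ℂ V} {lam : ℂ} (h : Fo N s π lam) (v : ℕ → V)
    (mu : ℂ) (h1 : ∀ i, i < N → v i ≠ 0 ∧ v i ∈ LinearMap.range (nn s π lam i) ∧
      π (s i) (v i) = mu • v i)
    (h2 : ∀ i, i + 1 < N → nn s π lam (i + 1) (v i) = v (i + 1) ∧
        nn s π lam i (v (i + 1)) = (-(lam * mu)) • v i) (i j : ℕ) (hi : i < N) (hj : j < N) :
    nn s π lam j (v i) ∈ Submodule.span ℂ {v j} := by
  by_cases hfar : i + 2 ≤ j ∨ j + 2 ≤ i
  · rw [(h.fixed i j hi hj hfar (v i) (h1 i hi).2.1).2]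
    exact Submodule.zero_mem _
  · rcases (show j = i + 1 ∨ i = j + 1 ∨ j = i by omega) with rfl | rfl | rfl
    · rw [(h2 i hj).1]
      exact Submodule.mem_span_singleton_self _
    · rw [(h2 j hi).2]
      exact Submodule.smul_mem _ _ (Submodule.mem_span_singleton_self _)
    · rw [FO1_nn, (h1 j hi).2.2, ← sub_smul]
      exact Submodule.smul_mem _ _ (Submodule.mem_span_singleton_self _)

private theorem FO7_top {π : G →* Module.End ℂ V} {lam : ℂ} (h : Fo N s π lam) (v : ℕ → V)
    (mu : ℂ) (h1 : ∀ i, i < N → v i ≠ 0 ∧ v i ∈ LinearMap.range (nn s π lam i) ∧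
      π (s i) (v i) = mu • v i)
    (h2 : ∀ i, i + 1 < N → nn s π lam (i + 1) (v i) = v (i + 1) ∧
        nn s π lam i (v (i + 1)) = (-(lam * mu)) • v i) :
    Submodule.span ℂ (Set.range (fun i : Fin N => v (i : ℕ))) = ⊤ := by
  have hN := h.hN
  have hst : ∀ j, j < N → ∀ w ∈ Submodule.span ℂ (Set.range (fun i : Fin N => v (i : ℕ))),
      π (s j) w ∈ Submodule.span ℂ (Set.range (fun i : Fin N => v (i : ℕ))) := by
    intro j hj w hw
    induction hw using Submodule.span_induction with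
    | mem x hx =>
      obtain ⟨i, rfl⟩ := hx
      show π (s j) (v (i : ℕ)) ∈ _
      rw [FO1_pi s π lam j]
      refine Submodule.add_mem _ (Submodule.smul_mem _ _ (Submodule.subset_span ⟨i, rfl⟩)) ?_
      have hvj : v j ∈ Set.range (fun i : Fin N => v (i : ℕ)) := ⟨⟨j, hj⟩, rfl⟩
      exact Submodule.span_mono (Set.singleton_subset_iff.mpr hvj)
        (FO7_mem h v mu h1 h2 i j i.2 hj)
    | zero => rw [map_zero]; exact Submodule.zero_mem _
    | add x y _ _ hx hy => rw [map_add]; exact Submodule.add_mem _ hx hy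
    | smul c x _ hx => rw [map_smul]; exact Submodule.smul_mem _ _ hx
  rcases stable_bot_top h.base _ hst with h3 | h3
  · exfalso
    have hm : v 0 ∈ Submodule.span ℂ (Set.range (fun i : Fin N => v (i : ℕ))) :=
      Submodule.subset_span ⟨⟨0, by omega⟩, rfl⟩
    rw [h3, Submodule.mem_bot] at hm
    exact (h1 0 (by omega)).1 hm
  · exact h3

private theorem FO7_ker {π : G →* Module.End ℂ V} {lam : ℂ} (h : Fo N s π lam) (v : ℕ → V)
    (mu : ℂ) (hmu : mu ≠ 0) (h1 : ∀ i, i < N → v i ≠ 0 ∧ v i ∈ LinearMap.range (nn s π lam i) ∧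
      π (s i) (v i) = mu • v i)
    (h2 : ∀ i, i + 1 < N → nn s π lam (i + 1) (v i) = v (i + 1) ∧
        nn s π lam i (v (i + 1)) = (-(lam * mu)) • v i) (c : ℕ → ℂ)
    (hc : ∑ i ∈ Finset.range N, c i • v i = 0) (hc0 : c 0 = 0) : ∀ j, j < N → c j = 0 := by
  intro j
  induction j using Nat.strong_induction_on with
  | _ j ih =>
    intro hj
    rcases Nat.eq_zero_or_pos j with rfl | hpos
    · exact hc0
    · obtain ⟨k, rfl⟩ : ∃ k, j = k + 1 := ⟨j - 1, by omega⟩
      have h3 := congrArg (nn s π lam k) hc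
      rw [map_sum, map_zero, Finset.sum_eq_single (k + 1)] at h3
      · rw [map_smul, (h2 k hj).2, smul_smul] at h3
        rcases smul_eq_zero.mp h3 with h4 | h4
        · rcases mul_eq_zero.mp h4 with h5 | h5
          · exact h5
          · exact absurd h5 (neg_ne_zero.mpr (mul_ne_zero h.lam0 hmu))
        · exact absurd h4 (h1 k (by omega)).1
      · intro i hi hik
        rw [Finset.mem_range] at hi
        by_cases hle : i < k + 1
        · rw [ih i hle hi, zero_smul, map_zero]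
        · rw [map_smul, (h.fixed i k hi (by omega) (Or.inr (by omega)) (v i) (h1 i hi).2.1).2,
            smul_zero]
      · intro hn
        exact absurd (Finset.mem_range.mpr hj) hn

/-- PROOF. (1) For i, j < N: nn j (v i) is 0 if |i - j| ≥ 2 (FO1), v (i+1) if j = i + 1, (-(lam mu)) • v i' if i = i' + 1, j = i', (mu - lam) • v i if j = i. So it is always a multiple of v j, and span {v i | i < N} is stable, non-zero, hence ⊤ (TW1); so range (nn j) ≤ span {v j}: dimension ≤ 1
(finrank_span_singleton_le or finrank_span_le_card). (2) dim V ≤ N: spanned by N vectors. (3) Φ : (Fin N → ℂ) → V, c ↦ Σ c i • v i, is onto. If Φ c = 0 and c 0 = 0 then c = 0: apply nn j (v j ≠ 0): c (j-1) + (mu - lam) c j - lam mu c (j+1) = 0 (terms with index outside 0..N-1 are absent), so c (j+1) = 0 by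
strong induction. So c ↦ c 0 is injective on ker Φ, dim ker Φ ≤ 1, and N = dim ker Φ + dim V (LinearMap.finrank_range_add_finrank_ker). -/
theorem caseA {π : G →* Module.End ℂ V} {lam : ℂ} (h : Fo N s π lam)
    (hA : LinearMap.range (nn s π lam 0) ⊓ LinearMap.range (nn s π lam 1) = ⊥) :
    (∀ j, j < N → Module.finrank ℂ (LinearMap.range (nn s π lam j)) ≤ 1) ∧
    Module.finrank ℂ V ≤ N ∧ N ≤ Module.finrank ℂ V + 1 := by
  have hd := h.base.dim
  haveI : FiniteDimensional ℂ V := FiniteDimensional.of_finrank_pos (by omega)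
  obtain ⟨v, mu, hmu, h1, h2⟩ := caseA_seq h hA
  have htop := FO7_top h v mu h1 h2
  have hN := h.hN
  refine ⟨?_, ?_⟩
  · intro j hj
    have hle : LinearMap.range (nn s π lam j) ≤ Submodule.span ℂ {v j} := by
      rintro _ ⟨u, rfl⟩
      have hu : u ∈ Submodule.span ℂ (Set.range (fun i : Fin N => v (i : ℕ))) := by
        rw [htop]; trivial
      induction hu using Submodule.span_induction with
      | mem x hx =>
        obtain ⟨i, rfl⟩ := hx
        exact FO7_mem h v mu h1 h2 i j i.2 hj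
      | zero => rw [map_zero]; exact Submodule.zero_mem _
      | add x y _ _ hx hy => rw [map_add]; exact Submodule.add_mem _ hx hy
      | smul c x _ hx => rw [map_smul]; exact Submodule.smul_mem _ _ hx
    calc Module.finrank ℂ (LinearMap.range (nn s π lam j))
        ≤ Module.finrank ℂ (Submodule.span ℂ {v j}) := Submodule.finrank_mono hle
      _ = 1 := finrank_span_singleton (h1 j hj).1
  · have hΦ : LinearMap.range (Fintype.linearCombination ℂ (fun i : Fin N => v (i : ℕ))) = ⊤ := by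
      rw [Fintype.range_linearCombination, htop]
    have hsum := LinearMap.finrank_range_add_finrank_ker
      (Fintype.linearCombination ℂ (fun i : Fin N => v (i : ℕ)))
    rw [hΦ, finrank_top, Module.finrank_fin_fun] at hsum
    have hker : Module.finrank ℂ
        (LinearMap.ker (Fintype.linearCombination ℂ (fun i : Fin N => v (i : ℕ)))) ≤ 1 := by
      have h5 := LinearMap.finrank_le_finrank_of_injective
        (f := (LinearMap.proj (⟨0, by omega⟩ : Fin N) : (Fin N → ℂ) →ₗ[ℂ] ℂ).comp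
          (LinearMap.ker (Fintype.linearCombination ℂ
            (fun i : Fin N => v (i : ℕ)))).subtype) ?_
      · rwa [Module.finrank_self] at h5
      · rw [← LinearMap.ker_eq_bot, eq_bot_iff]
        rintro ⟨c, hc⟩ hc0
        rw [LinearMap.mem_ker] at hc hc0
        rw [Submodule.mem_bot]
        have hc0' : c ⟨0, by omega⟩ = 0 := hc0
        rw [Fintype.linearCombination_apply] at hc
        have hall := FO7_ker h v mu hmu h1 h2 (fun i => if hi : i < N then c ⟨i, hi⟩ else 0) ?_ ?_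
        · apply Subtype.ext
          funext i
          have := hall i i.2
          simpa using this
        · rw [Finset.sum_range]
          rw [← hc]
          apply Finset.sum_congr rfl
          intro i _
          simp
        · simpa [show 0 < N by omega] using hc0'
    omega
-- END FO7

/-- the rotation -/
def rot (s : ℕ → G) (N : ℕ) : G := s 0 * del s 0 N

-- MODULE FO8
/-- PROOF. D = del s 0 N, r = s 0 * D. (1) r * s j = s 0 * s (j+1) * D = s (j+1) * s 0 * D (BR3, com, j + 1 ≥ 2). (2) r * r * s (N-1) = s 0 * D * s 0 * D * s (N-1) = s 0 * s 1 * (D * D * s (N-1)) = s 0 * s 1 * s 0 * D * D (BR3, BR4) and s 1 * (r * r) = s 1 * s 0 * (D * s 0) * D = s 1 * s 0 * s 1 * D * D; braid relation. -/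
theorem rot_spec (h : IsBr N s) (hN : 2 ≤ N) :
    (∀ j, 1 ≤ j → j + 1 < N → rot s N * s j = s (j + 1) * rot s N) ∧
    rot s N * rot s N * s (N - 1) = s 1 * (rot s N * rot s N) := by
  have hb := h
  obtain ⟨M, rfl⟩ : ∃ M, N = M + 1 := ⟨N - 1, by omega⟩
  have hD : ∀ j, j + 2 ≤ M + 1 → del s 0 (M + 1) * s j = s (j + 1) * del s 0 (M + 1) := by
    intro j hj
    exact del_conj h 0 (M + 1) j (by omega) (by omega) (by omega)
  have hsq : del s 0 (M + 1) * del s 0 (M + 1) * s M =
      s 0 * (del s 0 (M + 1) * del s 0 (M + 1)) := by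
    have := del_sq h 0 M (by omega)
    rwa [Nat.zero_add] at this
  refine ⟨?_, ?_⟩
  · intro j h1 h2
    unfold rot
    rw [mul_assoc, hD j (by omega), ← mul_assoc, h.com 0 (j + 1) (by omega) h2, mul_assoc]
  · unfold rot
    have hM : M + 1 - 1 = M := rfl
    rw [hM]
    have hD0 := hD 0 (by omega)
    rw [Nat.zero_add] at hD0
    have hbr := h.brd 0 (by omega)
    rw [Nat.zero_add] at hbr
    generalize hDD : del s 0 (M + 1) = D at *
    calc s 0 * D * (s 0 * D) * s M = s 0 * (D * s 0) * (D * s M) := by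
          simp only [mul_assoc]
      _ = s 0 * s 1 * (D * D * s M) := by rw [hD0]; simp only [mul_assoc]
      _ = s 0 * s 1 * s 0 * (D * D) := by rw [hsq]; simp only [mul_assoc]
      _ = s 1 * s 0 * s 1 * (D * D) := by rw [hbr]
      _ = s 1 * s 0 * (s 1 * D) * D := by simp only [mul_assoc]
      _ = s 1 * s 0 * (D * s 0) * D := by rw [hD0]
      _ = s 1 * (s 0 * D * (s 0 * D)) := by simp only [mul_assoc]
-- END FO8

-- MODULE FO9
private theorem FO9_inv (π : G →* Module.End ℂ V) (g : G) (v : V) : π g⁻¹ (π g v) = v := by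
  rw [← Module.End.mul_apply, ← map_mul, inv_mul_cancel, map_one, Module.End.one_apply]

private theorem FO9_inv' (π : G →* Module.End ℂ V) (g : G) (v : V) : π g (π g⁻¹ v) = v := by
  rw [← Module.End.mul_apply, ← map_mul, mul_inv_cancel, map_one, Module.End.one_apply]

private theorem FO9_inj (π : G →* Module.End ℂ V) (g : G) {v w : V} (h : π g v = π g w) :
    v = w := by
  rw [← FO9_inv π g v, h, FO9_inv]

private theorem FO9_mul (π : G →* Module.End ℂ V) (g k : G) (v : V) : π (g * k) v = π g (π k v) := by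
  rw [map_mul, Module.End.mul_apply]

private theorem FO9_nn (π : G →* Module.End ℂ V) (lam : ℂ) (i : ℕ) (v : V) :
    nn s π lam i v = π (s i) v - lam • v := by
  simp [nn]

private theorem FO9_pair {π : G →* Module.End ℂ V} {lam : ℂ} (h : Fo N s π lam) (g t t' : G)
    (j : ℕ) (hj2 : 2 ≤ j) (hj : j < N) (ht : t * g = g * s 0) (ht' : t' * g = g * s j) (z w : V)
    (hw : w = π t z - lam • z) : π t' w = lam • w := by
  have h1 : w = π g (nn s π lam 0 (π g⁻¹ z)) := by
    rw [hw, FO9_nn, map_sub, map_smul, FO9_inv', ← FO9_mul, ← ht, FO9_mul, FO9_inv']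
  have h2 : π (s j) (nn s π lam 0 (π g⁻¹ z)) = lam • nn s π lam 0 (π g⁻¹ z) :=
    (h.fixed 0 j (by have := h.hN; omega) hj (Or.inl (by omega)) _
      (LinearMap.mem_range_self _ _)).1
  rw [h1, ← FO9_mul, ht', FO9_mul, h2, map_smul]

/-- PROOF. 0 ≠ u in both ranges, w = π (s 0) u. w ≠ 0; u = nn 0 z gives w = nn 0 (π (s 0) z); u = nn 1 z' gives w = π (s 0) (nn 1 z') = (π (s 0 * s 1 * (s 0)⁻¹) - lam) z'' with z'' = π (s 0) z'.
(1) π (s j) w = lam • w for 2 ≤ j < N: FO1. (2) j = 1: s 0 * s 1 * (s 0)⁻¹ = (s 1)⁻¹ * s 0 * s 1 and s 2 * s 1 * (s 2)⁻¹ = (s 1)⁻¹ * s 2 * s 1, so (π (s 2 * s 1 * (s 2)⁻¹) - lam) (π (s 0 * s 1 * (s 0)⁻¹) - lam) = π (s 1)⁻¹ (nn 2 * nn 0) π (s 1) = 0 (FO1), so π (s 2 * s 1 * (s 2)⁻¹) w = lam • w; since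
π (s 2) w = lam • w, π (s 2)⁻¹ w = lam⁻¹ • w, π (s 2) (π (s 1) w) = lam^2 • w = π (s 2) (lam • w), so π (s 1) w = lam • w. (3) r = rot s N = g * s (N-1) with g = s 0 * s 0 * s 1 * del s 2 (N-3) (BR1 twice, and del s 2 (N-2) = del s 2 (N-3) * s (N-1)), so r * s (N-1) * r⁻¹ = g * s (N-1) * g⁻¹; and
g * s 0 * g⁻¹ = s 0 * s 0 * (s 1 * s 0 * (s 1)⁻¹) * (s 0 * s 0)⁻¹ = s 0 * s 1 * (s 0)⁻¹ (del s 2 (N-3) commutes with s 0: BR2; s 1 s 0 (s 1)⁻¹ = (s 0)⁻¹ s 1 s 0). So (π (r * s (N-1) * r⁻¹) - lam) (π (s 0 * s 1 * (s 0)⁻¹) - lam) = π g (nn (N-1) * nn 0) π g⁻¹ = 0 and the last claim follows. -/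
theorem caseB_start {π : G →* Module.End ℂ V} {lam : ℂ} (h : Fo N s π lam)
    (hB : LinearMap.range (nn s π lam 0) ⊓ LinearMap.range (nn s π lam 1) ≠ ⊥) :
    ∃ w : V, w ≠ 0 ∧ (∀ j, 1 ≤ j → j < N → π (s j) w = lam • w) ∧
      π (rot s N * s (N - 1) * (rot s N)⁻¹) w = lam • w := by
  have hN := h.hN
  have hbr := h.base.br
  obtain ⟨u, hu, hu0⟩ := (Submodule.ne_bot_iff _).1 hB
  obtain ⟨⟨z, hz⟩, ⟨z', hz'⟩⟩ := Submodule.mem_inf.1 hu
  have e010 : s 0 * s 1 * s 0 = s 1 * s 0 * s 1 := hbr.brd 0 (by omega)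
  have e121 : s 1 * s 2 * s 1 = s 2 * s 1 * s 2 := hbr.brd 1 (by omega)
  have hw0 : π (s 0) u ≠ 0 := by
    intro h0
    apply hu0
    apply FO9_inj π (s 0)
    rw [h0, map_zero]
  -- `w` in the range of `nn 0`
  have hwr : π (s 0) u ∈ LinearMap.range (nn s π lam 0) := by
    refine ⟨π (s 0) z, ?_⟩
    rw [← hz, FO9_nn, FO9_nn, map_sub, map_smul]
  -- `w` is `(π t - lam) z''`
  have hw2 : π (s 0) u = π (s 0 * s 1 * (s 0)⁻¹) (π (s 0) z') - lam • π (s 0) z' := by
    rw [← hz', FO9_nn, map_sub, map_smul, ← FO9_mul, ← FO9_mul, inv_mul_cancel_right]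
  have h2 : ∀ j, 2 ≤ j → j < N → π (s j) (π (s 0) u) = lam • π (s 0) u := fun j hj2 hj =>
    (h.fixed 0 j (by omega) hj (Or.inl (by omega)) _ hwr).1
  -- the conjugate of `s 1` by `s 2`
  have h3 : π (s 2 * s 1 * (s 2)⁻¹) (π (s 0) u) = lam • π (s 0) u := by
    refine FO9_pair h (s 1)⁻¹ (s 0 * s 1 * (s 0)⁻¹) _ 2 le_rfl (by omega) ?_ ?_ (π (s 0) z') _ hw2
    · apply mul_right_cancel (b := s 1 * s 0)
      apply mul_left_cancel (a := s 1)
      calc s 1 * (s 0 * s 1 * (s 0)⁻¹ * (s 1)⁻¹ * (s 1 * s 0)) = s 1 * s 0 * s 1 := by group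
        _ = s 0 * s 1 * s 0 := e010.symm
        _ = s 1 * ((s 1)⁻¹ * s 0 * (s 1 * s 0)) := by group
    · apply mul_right_cancel (b := s 1 * s 2)
      apply mul_left_cancel (a := s 1)
      calc s 1 * (s 2 * s 1 * (s 2)⁻¹ * (s 1)⁻¹ * (s 1 * s 2)) = s 1 * s 2 * s 1 := by group
        _ = s 2 * s 1 * s 2 := e121
        _ = s 1 * ((s 1)⁻¹ * s 2 * (s 1 * s 2)) := by group
  have h4 : π (s 1) (π (s 0) u) = lam • π (s 0) u := by
    have h5 : π (s 2 * s 1 * (s 2)⁻¹) (π (s 2) (π (s 0) u)) = π (s 2) (π (s 1) (π (s 0) u)) := by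
      rw [← FO9_mul, inv_mul_cancel_right, FO9_mul]
    rw [h2 2 le_rfl (by omega), map_smul, h3] at h5
    apply FO9_inj π (s 2)
    rw [← h5, map_smul, h2 2 le_rfl (by omega)]
  refine ⟨π (s 0) u, hw0, ?_, ?_⟩
  · intro j hj1 hj
    rcases Nat.lt_or_ge j 2 with hj2 | hj2
    · have : j = 1 := by omega
      subst this
      exact h4
    · exact h2 j hj2 hj
  · -- the rotation
    have hrot : rot s N = s 0 * s 0 * s 1 * del s 2 (N - 3) * s (N - 1) := by
      have e1 : del s 0 N = s 0 * del s 1 (N - 1) := by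
        have := del_left s 0 (N - 1)
        rwa [Nat.sub_add_cancel (by omega : 1 ≤ N), zero_add] at this
      have e2 : del s 1 (N - 1) = s 1 * del s 2 (N - 2) := by
        have := del_left s 1 (N - 2)
        rwa [show N - 2 + 1 = N - 1 from by omega] at this
      have e3 : del s 2 (N - 2) = del s 2 (N - 3) * s (N - 1) := by
        have : del s 2 (N - 3 + 1) = del s 2 (N - 3) * s (2 + (N - 3)) := rfl
        rwa [show N - 3 + 1 = N - 2 from by omega, show 2 + (N - 3) = N - 1 from by omega] at this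
      rw [rot, e1, e2, e3]
      simp only [mul_assoc]
    set g := s 0 * s 0 * s 1 * del s 2 (N - 3) with hg
    have ht' : rot s N * s (N - 1) * (rot s N)⁻¹ * g = g * s (N - 1) := by
      rw [hrot]; group
    have hd : del s 2 (N - 3) * s 0 = s 0 * del s 2 (N - 3) :=
      del_out hbr 2 (N - 3) 0 (by omega) (by omega) (Or.inl (by omega))
    have ht : s 0 * s 1 * (s 0)⁻¹ * g = g * s 0 := by
      calc s 0 * s 1 * (s 0)⁻¹ * g = s 0 * (s 1 * s 0 * s 1) * del s 2 (N - 3) := by
            rw [hg]; group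
        _ = s 0 * (s 0 * s 1 * s 0) * del s 2 (N - 3) := by rw [e010]
        _ = s 0 * s 0 * s 1 * (s 0 * del s 2 (N - 3)) := by simp only [mul_assoc]
        _ = s 0 * s 0 * s 1 * (del s 2 (N - 3) * s 0) := by rw [hd]
        _ = g * s 0 := by rw [hg]; simp only [mul_assoc]
    exact FO9_pair h g _ _ (N - 1) (by omega) (by omega) ht ht' (π (s 0) z') _ hw2
-- END FO9

-- MODULE FO10
/-- PROOF. r = rot s N. W = {w | (∀ j, 1 ≤ j → j < N → π (s j) w = lam • w) ∧ π (r * s (N-1) * r⁻¹) w = lam • w}, a submodule ≠ ⊥ (FO9). It is stable under π r: s j * r = r * s (j-1) for 2 ≤ j < N (FO8 (1)); s 1 * r = r * (r * s (N-1) * r⁻¹) (FO8 (2)); (r * s (N-1) * r⁻¹) * r = r * s (N-1).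
So π r has an eigenvector w in W, π r w = c • w. r = s 0 * s 0 * del s 1 (N-1) (BR1), and π (del s 1 l) w = lam^l • w for l ≤ N - 1 (induction on l). So lam^(N-1) • π (s 0) (π (s 0) w) = c • w. -/
theorem caseB_vec {π : G →* Module.End ℂ V} {lam : ℂ} (h : Fo N s π lam)
    (hB : LinearMap.range (nn s π lam 0) ⊓ LinearMap.range (nn s π lam 1) ≠ ⊥) :
    ∃ (w : V) (chi : ℂ), w ≠ 0 ∧ (∀ j, 1 ≤ j → j < N → π (s j) w = lam • w) ∧
      π (s 0) (π (s 0) w) = chi • w := by
  have hN := h.hN
  haveI : FiniteDimensional ℂ V := FiniteDimensional.of_finrank_pos (by have := h.base.dim; omega)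
  obtain ⟨hr1, hr2⟩ := rot_spec h.base.br (by omega : 2 ≤ N)
  let W : Submodule ℂ V :=
    { carrier := {w | (∀ j, 1 ≤ j → j < N → π (s j) w = lam • w) ∧
        π (rot s N * s (N - 1) * (rot s N)⁻¹) w = lam • w}
      zero_mem' := ⟨fun j _ _ => by simp, by simp⟩
      add_mem' := by
        rintro a b ⟨ha1, ha2⟩ ⟨hb1, hb2⟩
        refine ⟨fun j h1 h2 => ?_, ?_⟩
        · rw [map_add, ha1 j h1 h2, hb1 j h1 h2, smul_add]
        · rw [map_add, ha2, hb2, smul_add]
      smul_mem' := by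
        rintro c a ⟨ha1, ha2⟩
        refine ⟨fun j h1 h2 => ?_, ?_⟩
        · rw [map_smul, ha1 j h1 h2, smul_comm]
        · rw [map_smul, ha2, smul_comm] }
  have hWst : ∀ w ∈ W, π (rot s N) w ∈ W := by
    rintro w ⟨hw1, hw2⟩
    refine ⟨fun j h1 h2 => ?_, ?_⟩
    · rcases Nat.lt_or_ge j 2 with hj2 | hj2
      · have : j = 1 := by omega
        subst this
        have e : s 1 * rot s N = rot s N * (rot s N * s (N - 1) * (rot s N)⁻¹) := by
          apply mul_right_cancel (b := rot s N)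
          calc s 1 * rot s N * rot s N = s 1 * (rot s N * rot s N) := by rw [mul_assoc]
            _ = rot s N * rot s N * s (N - 1) := hr2.symm
            _ = _ := by group
        rw [← FO9_mul, e, FO9_mul, hw2, map_smul]
      · have e := hr1 (j - 1) (by omega) (by omega)
        rw [show j - 1 + 1 = j from by omega] at e
        rw [← FO9_mul, ← e, FO9_mul, hw1 (j - 1) (by omega) (by omega), map_smul]
    · rw [← FO9_mul, inv_mul_cancel_right, FO9_mul, hw1 (N - 1) (by omega) (by omega), map_smul]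
  obtain ⟨w0, hw0, hw01, hw02⟩ := caseB_start h hB
  haveI : Nontrivial W := by
    refine ⟨⟨⟨w0, hw01, hw02⟩, 0, fun e => hw0 ?_⟩⟩
    exact congrArg Subtype.val e
  obtain ⟨c, hc⟩ := Module.End.exists_eigenvalue ((π (rot s N)).restrict hWst)
  obtain ⟨w, hw⟩ := hc.exists_hasEigenvector
  have hwe := hw.apply_eq_smul
  have hwne : (w : V) ≠ 0 := fun e => hw.2 (Subtype.ext e)
  have hwe' : π (rot s N) (w : V) = c • (w : V) := by
    have := congrArg Subtype.val hwe
    simpa using this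
  obtain ⟨hw1, hw2⟩ := w.2
  have hdel : ∀ l, l ≤ N - 1 → π (del s 1 l) (w : V) = lam ^ l • (w : V) := by
    intro l
    induction l with
    | zero => intro _; simp [del]
    | succ l ih =>
      intro hl
      rw [del, FO9_mul, hw1 (1 + l) (by omega) (by omega), map_smul, ih (by omega), smul_smul,
        pow_succ, mul_comm]
  have hrot : rot s N = s 0 * (s 0 * del s 1 (N - 1)) := by
    have := del_left s 0 (N - 1)
    rw [Nat.sub_add_cancel (by omega : 1 ≤ N), zero_add] at this
    rw [rot, this]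
  rw [hrot, FO9_mul, FO9_mul, hdel _ le_rfl, map_smul, map_smul] at hwe'
  refine ⟨(w : V), (lam ^ (N - 1))⁻¹ * c, hwne, hw1, ?_⟩
  rw [mul_smul, ← hwe', smul_smul, inv_mul_cancel₀ (pow_ne_zero _ h.lam0), one_smul]
-- END FO10

-- MODULE FO11
/-- PROOF. w 0 from FO10, w (i+1) := π (s i) (w i). All w i ≠ 0 (invertible), chi ≠ 0. Induction on i of P(i): π (s j) (w i) = lam • w i for j < N, j ≠ i, j + 1 ≠ i, and (if i < N) π (s i) (π (s i) (w i)) = chi • w i. P(0): FO10. P(i) → P(i+1), i < N: j with j ≥ i + 2 or j + 2 ≤ i: s j commutes with s i, j ≠ i, j + 1 ≠ i: ok.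
j + 1 = i (so i = j + 1, w i = π (s j) (w j)): π (s j) (w (i+1)) = π (s j * s (j+1) * s j) (w j) = π (s (j+1) * s j * s (j+1)) (w j) = lam • π (s (j+1)) (π (s j) (w j)) = lam • w (i+1), since π (s (j+1)) (w j) = lam • w j by P(j) (strong induction). [These are all j ≠ i + 1, j + 1 ≠ i + 1.] If i + 1 < N: π (s (i+1)) (w i) = lam • w i, so
lam • π (s (i+1)) (π (s (i+1)) (π (s i) (w i))) = π (s (i+1) * s (i+1) * s i * s (i+1)) (w i) = π (s (i+1) * s i * s (i+1) * s i) (w i) = π (s i * s (i+1) * s i * s i) (w i) = chi • π (s i) (π (s (i+1)) (w i)) = (chi * lam) • w (i+1); cancel lam. -/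
theorem caseB_seq {π : G →* Module.End ℂ V} {lam : ℂ} (h : Fo N s π lam)
    (hB : LinearMap.range (nn s π lam 0) ⊓ LinearMap.range (nn s π lam 1) ≠ ⊥) :
    ∃ (w : ℕ → V) (chi : ℂ), chi ≠ 0 ∧ (∀ i, i ≤ N → w i ≠ 0) ∧
      (∀ i j, i ≤ N → j < N → j ≠ i → j + 1 ≠ i → π (s j) (w i) = lam • w i) ∧
      ∀ i, i < N → π (s i) (w i) = w (i + 1) ∧ π (s i) (w (i + 1)) = chi • w i := by
  have hN := h.hN
  have hbr := h.base.br
  obtain ⟨w0, chi, hw0, hw1, hw2⟩ := caseB_vec h hB
  let w : ℕ → V := fun i => Nat.rec w0 (fun i v => π (s i) v) i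
  have hwz : w 0 = w0 := rfl
  have hws : ∀ i, w (i + 1) = π (s i) (w i) := fun i => rfl
  have hne : ∀ i, w i ≠ 0 := by
    intro i
    induction i with
    | zero => exact hw0
    | succ i ih =>
      intro h0
      apply ih
      apply FO9_inj π (s i)
      rw [← hws, h0, map_zero]
  have key : ∀ i, i ≤ N → (∀ j, j < N → j ≠ i → j + 1 ≠ i → π (s j) (w i) = lam • w i) ∧
      (i < N → π (s i) (π (s i) (w i)) = chi • w i) := by
    intro i
    induction i using Nat.strong_induction_on with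
    | _ i ih =>
      intro hi
      rcases Nat.eq_zero_or_pos i with rfl | hpos
      · exact ⟨fun j hj h0 _ => hw1 j (by omega) hj, fun _ => hw2⟩
      · obtain ⟨i, rfl⟩ : ∃ i', i = i' + 1 := ⟨i - 1, by omega⟩
        obtain ⟨p1, p2⟩ := ih i (by omega) (by omega)
        refine ⟨fun j hj h1 h2 => ?_, fun hi1 => ?_⟩
        · rw [hws]
          by_cases hji : j + 1 = i
          · subst hji
            obtain ⟨q1, q2⟩ := ih j (by omega) (by omega)
            have e : s j * s (j + 1) * s j = s (j + 1) * s j * s (j + 1) := hbr.brd j (by omega)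
            rw [hws j, ← FO9_mul, ← FO9_mul, e, FO9_mul, FO9_mul,
              q1 (j + 1) (by omega) (by omega) (by omega), map_smul, map_smul]
          · have hc : s j * s i = s i * s j := by
              rcases Nat.lt_or_ge j i with hlt | hge
              · exact hbr.com j i (by omega) (by omega)
              · exact (hbr.com i j (by omega) hj).symm
            rw [← FO9_mul, hc, FO9_mul, p1 j hj (by omega) (by omega), map_smul]
        · have e : s i * s (i + 1) * s i = s (i + 1) * s i * s (i + 1) := hbr.brd i (by omega)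
          have a1 : π (s (i + 1)) (w i) = lam • w i := p1 (i + 1) (by omega) (by omega) (by omega)
          have a2 := p2 (by omega)
          have e2 : s (i + 1) * (s (i + 1) * (s i * s (i + 1))) =
              s i * (s (i + 1) * (s i * s i)) := by
            calc s (i + 1) * (s (i + 1) * (s i * s (i + 1)))
                = s (i + 1) * (s (i + 1) * s i * s (i + 1)) := by simp only [mul_assoc]
              _ = s (i + 1) * (s i * s (i + 1) * s i) := by rw [e]
              _ = s (i + 1) * s i * s (i + 1) * s i := by simp only [mul_assoc]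
              _ = s i * s (i + 1) * s i * s i := by rw [e]
              _ = s i * (s (i + 1) * (s i * s i)) := by simp only [mul_assoc]
          have a3 : π (s (i + 1) * (s (i + 1) * (s i * s (i + 1)))) (w i) =
              π (s i * (s (i + 1) * (s i * s i))) (w i) := by rw [e2]
          simp only [FO9_mul] at a3
          rw [a1, a2] at a3
          simp only [map_smul] at a3
          rw [a1, map_smul, smul_comm chi lam] at a3
          have a4 := smul_right_injective V h.lam0 a3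
          rw [hws i]
          exact a4
  refine ⟨w, chi, ?_, fun i _ => hne i, fun i j hi hj h1 h2 => (key i hi).1 j hj h1 h2,
    fun i hi => ⟨rfl, ?_⟩⟩
  · rintro rfl
    have := (key 0 (by omega)).2 (by omega)
    rw [zero_smul] at this
    apply hne 2
    have e1 : π (s 0) (w 1) = 0 := this
    have e2 : w 1 = 0 := by
      apply FO9_inj π (s 0)
      rw [e1, map_zero]
    exact absurd e2 (hne 1)
  · rw [hws]
    exact (key i (by omega)).2 hi
-- END FO11

/-- the generators permute a generating family of `N + 1` vectors up to non-zero scalars, and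
their squares fix the lines -/
def Mono (N : ℕ) (s : ℕ → G) (π : G →* Module.End ℂ V) : Prop :=
  ∃ w : ℕ → V, Submodule.span ℂ {v | ∃ i, i ≤ N ∧ v = w i} = ⊤ ∧ ∀ i, i ≤ N → w i ≠ 0 ∧
    ∀ j, j < N → (∃ i', i' ≤ N ∧ ∃ c : ℂ, c ≠ 0 ∧ π (s j) (w i) = c • w i') ∧
      ∃ c : ℂ, c ≠ 0 ∧ π (s j) (π (s j) (w i)) = c • w i

-- MODULE FO12
/-- PROOF. w from FO11. The span of the w i, i ≤ N, is stable and non-zero, so it is ⊤ (TW1); Mono is then clear. dim V ≤ N + 1. Lower bound: (a) for j < N the vectors w j, w (j+1) are linearly independent: suppose w (j+1) = c • w j for some j < N. Then all w i are proportional to w j: (i ≥ j) if w (i+1) ∈ ℂ w i, i + 1 < N then w (i+2) = π (s (i+1)) (w (i+1)) ∈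
ℂ π (s (i+1)) (w i) = ℂ w i (i + 1 ≠ i, i + 2 ≠ i), and w i ∈ ℂ w (i+1) since w i, w (i+1) are non-zero and proportional; (i < j) if w (i+2) ∈ ℂ w (i+1), i + 1 < N: apply π (s i): lam • w (i+2) (i ≠ i + 2, i + 1 ≠ i + 2) ∈ ℂ π (s i) (w (i+1)) = ℂ w i, so w i and w (i+2), w (i+1) are proportional. So dim V = 1, contradiction to
Base.dim. (b) Φ : (Fin (N+1) → ℂ) → V, c ↦ Σ c i • w i, onto. Let Φ c = 0, j < N. Apply π (s j) - lam: (chi c (j+1) - lam c j) • w j + (c j - lam c (j+1)) • w (j+1) = 0 (the other terms vanish), so c j = lam c (j+1) by (a). So c is determined by c N (c N = 0 gives c = 0), dim ker Φ ≤ 1, N + 1 ≤ dim V + 1. -/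
theorem caseB {π : G →* Module.End ℂ V} {lam : ℂ} (h : Fo N s π lam)
    (hB : LinearMap.range (nn s π lam 0) ⊓ LinearMap.range (nn s π lam 1) ≠ ⊥) :
    Mono N s π ∧ Module.finrank ℂ V ≤ N + 1 ∧ N ≤ Module.finrank ℂ V := by
  have hN := h.hN
  have hdim := h.base.dim
  haveI : FiniteDimensional ℂ V := FiniteDimensional.of_finrank_pos (by omega)
  obtain ⟨w, chi, hchi, hne, hout, hin⟩ := caseB_seq h hB
  -- the action of a generator on a generating vector
  have hact : ∀ i j, i ≤ N → j < N → (π (s j) (w i) = lam • w i ∧ i ≠ j ∧ i ≠ j + 1) ∨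
      (i = j ∧ π (s j) (w i) = w (j + 1)) ∨ (i = j + 1 ∧ π (s j) (w i) = chi • w j) := by
    intro i j hi hj
    by_cases h1 : j = i
    · subst h1
      exact Or.inr (Or.inl ⟨rfl, (hin j hj).1⟩)
    · by_cases h2 : j + 1 = i
      · subst h2
        exact Or.inr (Or.inr ⟨rfl, (hin j hj).2⟩)
      · exact Or.inl ⟨hout i j hi hj h1 h2, fun e => h1 e.symm, fun e => h2 e.symm⟩
  have htop : Submodule.span ℂ {v | ∃ i, i ≤ N ∧ v = w i} = ⊤ := by
    have hst : ∀ j, j < N → ∀ v ∈ Submodule.span ℂ {v | ∃ i, i ≤ N ∧ v = w i},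
        π (s j) v ∈ Submodule.span ℂ {v | ∃ i, i ≤ N ∧ v = w i} := by
      intro j hj v hv
      induction hv using Submodule.span_induction with
      | mem v hv =>
        obtain ⟨i, hi, rfl⟩ := hv
        rcases hact i j hi hj with ⟨e, _⟩ | ⟨_, e⟩ | ⟨_, e⟩
        · rw [e]; exact Submodule.smul_mem _ _ (Submodule.subset_span ⟨i, hi, rfl⟩)
        · rw [e]; exact Submodule.subset_span ⟨j + 1, by omega, rfl⟩
        · rw [e]; exact Submodule.smul_mem _ _ (Submodule.subset_span ⟨j, by omega, rfl⟩)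
      | zero => rw [map_zero]; exact Submodule.zero_mem _
      | add a b _ _ ha hb => rw [map_add]; exact Submodule.add_mem _ ha hb
      | smul c a _ ha => rw [map_smul]; exact Submodule.smul_mem _ _ ha
    rcases stable_bot_top h.base _ hst with hb | ht
    · exfalso
      have h0 : w 0 ∈ Submodule.span ℂ {v | ∃ i, i ≤ N ∧ v = w i} :=
        Submodule.subset_span ⟨0, Nat.zero_le _, rfl⟩
      rw [hb, Submodule.mem_bot] at h0
      exact hne 0 (Nat.zero_le _) h0
    · exact ht
  have hmono : Mono N s π := by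
    refine ⟨w, htop, fun i hi => ⟨hne i hi, fun j hj => ?_⟩⟩
    rcases hact i j hi hj with ⟨e, _⟩ | ⟨rfl, e⟩ | ⟨rfl, e⟩
    · exact ⟨⟨i, hi, lam, h.lam0, e⟩, lam * lam, mul_ne_zero h.lam0 h.lam0, by
        rw [e, map_smul, e, smul_smul]⟩
    · exact ⟨⟨i + 1, by omega, 1, one_ne_zero, by rw [one_smul]; exact e⟩, chi, hchi, by
        rw [e]; exact (hin i hj).2⟩
    · exact ⟨⟨j, by omega, chi, hchi, e⟩, chi, hchi, by
        rw [e, map_smul, (hin j hj).1]⟩
  -- neighbours are not proportional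
  have hup : ∀ i, i + 1 < N → (∃ c : ℂ, w (i + 1) = c • w i) → ∃ c : ℂ, w (i + 2) = c • w (i + 1) := by
    rintro i hi ⟨c, hc⟩
    refine ⟨lam, ?_⟩
    rw [← (hin (i + 1) (by omega)).1]
    conv_lhs => rw [hc]
    rw [map_smul, hout i (i + 1) (by omega) (by omega) (by omega) (by omega), smul_comm, ← hc]
  have hdn : ∀ i, i + 1 < N → (∃ c : ℂ, w (i + 2) = c • w (i + 1)) → ∃ c : ℂ, w (i + 1) = c • w i := by
    rintro i hi ⟨c, hc⟩
    have hc0 : c ≠ 0 := by
      rintro rfl
      rw [zero_smul] at hc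
      exact hne (i + 2) (by omega) hc
    have e1 : π (s i) (w (i + 2)) = lam • w (i + 2) :=
      hout (i + 2) i (by omega) (by omega) (by omega) (by omega)
    have e2 : π (s i) (w (i + 2)) = c • (chi • w i) := by
      rw [hc, map_smul, (hin i (by omega)).2]
    rw [e1, hc, smul_smul, smul_smul] at e2
    refine ⟨(lam * c)⁻¹ * (c * chi), ?_⟩
    rw [mul_smul, ← e2, smul_smul, inv_mul_cancel₀ (mul_ne_zero h.lam0 hc0), one_smul]
  have hnot : ∀ j, j < N → ¬ ∃ c : ℂ, w (j + 1) = c • w j := by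
    intro j hj hq
    have h0 : ∀ j, j < N → (∃ c : ℂ, w (j + 1) = c • w j) → ∃ c : ℂ, w 1 = c • w 0 := by
      intro j
      induction j with
      | zero => intro _ hq; exact hq
      | succ j ih => intro hj hq; exact ih (by omega) (hdn j hj hq)
    have h1 : ∀ i, i < N → ∃ c : ℂ, w (i + 1) = c • w i := by
      intro i
      induction i with
      | zero => intro _; exact h0 j hj hq
      | succ i ih => intro hi; exact hup i hi (ih (by omega))
    have h2 : ∀ i, i ≤ N → ∃ c : ℂ, w i = c • w 0 := by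
      intro i
      induction i with
      | zero => intro _; exact ⟨1, (one_smul _ _).symm⟩
      | succ i ih =>
        intro hi
        obtain ⟨c, hc⟩ := ih (by omega)
        obtain ⟨c', hc'⟩ := h1 i (by omega)
        exact ⟨c' * c, by rw [hc', hc, smul_smul]⟩
    have h3 : (⊤ : Submodule ℂ V) ≤ Submodule.span ℂ {w 0} := by
      rw [← htop, Submodule.span_le]
      rintro v ⟨i, hi, rfl⟩
      obtain ⟨c, hc⟩ := h2 i hi
      rw [hc]
      exact Submodule.smul_mem _ _ (Submodule.mem_span_singleton_self _)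
    have h4 : Module.finrank ℂ V ≤ 1 := by
      rw [← finrank_top ℂ V]
      refine (Submodule.finrank_mono h3).trans ?_
      exact (finrank_span_le_card {w 0}).trans (by simp)
    omega
  -- the parametrisation
  let Φ : (Fin (N + 1) → ℂ) →ₗ[ℂ] V := Fintype.linearCombination ℂ (fun i : Fin (N + 1) => w i)
  have hΦ : ∀ c, Φ c = ∑ i : Fin (N + 1), c i • w i := fun c => rfl
  have hrange : LinearMap.range Φ = ⊤ := by
    rw [Fintype.range_linearCombination, ← htop]
    congr 1
    ext v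
    constructor
    · rintro ⟨i, rfl⟩
      exact ⟨i, Nat.lt_succ_iff.1 i.2, rfl⟩
    · rintro ⟨i, hi, rfl⟩
      exact ⟨⟨i, Nat.lt_succ_of_le hi⟩, rfl⟩
  have hrk := LinearMap.finrank_range_add_finrank_ker Φ
  rw [hrange, finrank_top, Module.finrank_fin_fun] at hrk
  -- the kernel
  have hstep : ∀ c : Fin (N + 1) → ℂ, Φ c = 0 → ∀ j (hj : j < N),
      c ⟨j, by omega⟩ = lam * c ⟨j + 1, by omega⟩ := by
    intro c hc j hj
    by_contra hcon
    have e : nn s π lam j (Φ c) = 0 := by rw [hc, map_zero]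
    rw [hΦ, map_sum] at e
    have e1 : ∀ i : Fin (N + 1), i ≠ ⟨j, by omega⟩ ∧ i ≠ ⟨j + 1, by omega⟩ →
        nn s π lam j (c i • w i) = 0 := by
      rintro i ⟨hi1, hi2⟩
      rw [map_smul, FO9_nn, hout i j (Nat.lt_succ_iff.1 i.2) hj
        (fun e => hi1 (Fin.ext e.symm)) (fun e => hi2 (Fin.ext e.symm)), sub_self, smul_zero]
    rw [Fintype.sum_eq_add (⟨j, by omega⟩ : Fin (N + 1)) ⟨j + 1, by omega⟩
      (fun e => by have := congrArg Fin.val e; simp at this) e1] at e
    simp only [map_smul, FO9_nn] at e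
    rw [(hin j hj).1, (hin j hj).2] at e
    apply hnot j hj
    set a := c ⟨j, by omega⟩ with ha
    set b := c ⟨j + 1, by omega⟩ with hb
    have e2 : (a - lam * b) • w (j + 1) = (lam * a - chi * b) • w j := by
      have : (a - lam * b) • w (j + 1) - (lam * a - chi * b) • w j =
          a • (w (j + 1) - lam • w j) + b • (chi • w j - lam • w (j + 1)) := by
        module
      rw [← sub_eq_zero, this, e]
    have h0 : a - lam * b ≠ 0 := sub_ne_zero.2 hcon
    refine ⟨(a - lam * b)⁻¹ * (lam * a - chi * b), ?_⟩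
    rw [mul_smul, ← e2, smul_smul, inv_mul_cancel₀ h0, one_smul]
  have hker : Module.finrank ℂ (LinearMap.ker Φ) ≤ 1 := by
    let ev : LinearMap.ker Φ →ₗ[ℂ] ℂ :=
      (LinearMap.proj (⟨N, by omega⟩ : Fin (N + 1))).comp (LinearMap.ker Φ).subtype
    have hinj : Function.Injective ev := by
      rw [injective_iff_map_eq_zero]
      rintro ⟨c, hc⟩ h0
      have h0' : c ⟨N, by omega⟩ = 0 := h0
      have hall : ∀ k (hk : k ≤ N), c ⟨N - k, by omega⟩ = 0 := by
        intro k
        induction k with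
        | zero => intro _; simpa using h0'
        | succ k ih =>
          intro hk
          have := hstep c (LinearMap.mem_ker.1 hc) (N - (k + 1)) (by omega)
          rw [this]
          have e : (⟨N - (k + 1) + 1, by omega⟩ : Fin (N + 1)) = ⟨N - k, by omega⟩ :=
            Fin.ext (by simp; omega)
          rw [e, ih (by omega), mul_zero]
      apply Subtype.ext
      funext i
      have := hall (N - i) (by omega)
      have e : (⟨N - (N - (i : ℕ)), by omega⟩ : Fin (N + 1)) = i :=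
        Fin.ext (by simp; omega)
      rw [e] at this
      exact this
    have := LinearMap.finrank_le_finrank_of_injective hinj
    rwa [Module.finrank_self] at this
  exact ⟨hmono, by omega, by omega⟩
-- END FO12

/-- scalars plus rank at most one -/
def RkOne (N : ℕ) (s : ℕ → G) (π : G →* Module.End ℂ V) : Prop :=
  ∃ lam : ℂ, ∀ j, j < N → Module.finrank ℂ (LinearMap.range (π (s j) - lam • 1)) ≤ 1

/-- the result of the local analysis -/
theorem all_of_St {π : G →* Module.End ℂ V} (h : Base N s π) (hS : St N s π) (hN : 7 ≤ N) :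
    N ≤ Module.finrank ℂ V + 1 ∧ Module.finrank ℂ V ≤ N + 1 ∧ (RkOne N s π ∨ Mono N s π) := by
  obtain ⟨lam, hl, hf⟩ := exists_lam h hS hN
  have hF : Fo N s π lam := ⟨h, by omega, hl, hf⟩
  by_cases hA : LinearMap.range (nn s π lam 0) ⊓ LinearMap.range (nn s π lam 1) = ⊥
  · obtain ⟨h1, h2, h3⟩ := caseA hF hA
    exact ⟨h3, by omega, Or.inl ⟨lam, h1⟩⟩
  · obtain ⟨h1, h2, h3⟩ := caseB hF hA
    exact ⟨by omega, h2, Or.inr h1⟩

end Pool.Agent.QB54
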