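import Pool.Agent.QB54.Fin
import Pool.Agent.QB54.Defs
import Pool.Agent.PB3.Stmt

/-!
# Relations between Artin's automorphisms, and the theorem for the braid group
-/

set_option autoImplicit false
set_option linter.all false

namespace Pool.Agent.QB54

open Pool.Agent.Conf14 Pool.Agent.PB3
open Pool.Agent.HG13 (Irr)
open FreeGroup (of lift lift_apply_of)

universe u

variable {n : ℕ}

-- MODULE ST1
private theorem ST1_ext {φ ψ : MulAut (FreeGroup (Fin n))}
    (h : ∀ l, φ (of l) = ψ (of l)) : φ = ψ := by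
  have h1 : φ.toMonoidHom = ψ.toMonoidHom := FreeGroup.ext_hom _ _ h
  exact MulEquiv.toMonoidHom_injective h1

private theorem ST1_of (i j k : Fin n) : sig i j (of k) = sigFun i j k := by
  show lift (sigFun i j) (of k) = _
  rw [lift_apply_of]

private theorem ST1_aof (i j k : Fin n) : artin i j (of k) = artinFun i j k := by
  show lift (artinFun i j) (of k) = _
  rw [lift_apply_of]

/-- PROOF. MulEquiv.ext, FreeGroup.ext_hom-like: two automorphisms of the free group which agree on the `of l` are equal (apply MulEquiv.toMonoidHom injectivity or induction); check l = i, j, k and l different from them (sig x y (of l) = sigFun x y l). -/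
theorem sig_braid (i j k : Fin n) (hj : (j : ℕ) = i + 1) (hk : (k : ℕ) = j + 1) :
    sig i j * sig j k * sig i j = sig j k * sig i j * sig j k := by
  have hij : i ≠ j := by intro h; rw [h] at hj; omega
  have hjk : j ≠ k := by intro h; rw [h] at hk; omega
  have hik : i ≠ k := by intro h; rw [h] at hj; omega
  apply ST1_ext
  intro l
  simp only [MulAut.mul_apply, ST1_of]
  by_cases h1 : l = i
  · subst h1
    simp [sigFun, ST1_of, map_mul, map_inv, hij, hjk, hik, hij.symm, hjk.symm, hik.symm]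
  · by_cases h2 : l = j
    · subst h2
      simp [sigFun, ST1_of, map_mul, map_inv, hij, hjk, hik, hij.symm, hjk.symm, hik.symm]
      try group
    · by_cases h3 : l = k
      · subst h3
        simp [sigFun, ST1_of, map_mul, map_inv, hij, hjk, hik, hij.symm, hjk.symm, hik.symm]
        try group
      · simp [sigFun, ST1_of, map_mul, map_inv, hij, hjk, hik, hij.symm, hjk.symm, hik.symm, h1, h2, h3]
-- END ST1

-- MODULE ST2
/-- PROOF. As ST1: check on `of t`, t ∈ {i, j}, {k, l}, other. -/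
theorem sig_comm (i j k l : Fin n) (hj : (j : ℕ) = i + 1) (hl : (l : ℕ) = k + 1)
    (h : (j : ℕ) < k) : sig i j * sig k l = sig k l * sig i j := by
  have hij : i ≠ j := by intro h; rw [h] at hj; omega
  have hkl : k ≠ l := by intro h; rw [h] at hl; omega
  have hik : i ≠ k := by intro h; subst h; omega
  have hil : i ≠ l := by intro h; subst h; omega
  have hjk : j ≠ k := by intro h; subst h; omega
  have hjl : j ≠ l := by intro h; subst h; omega
  apply ST1_ext
  intro t
  simp only [MulAut.mul_apply, ST1_of]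
  by_cases h1 : t = i
  · subst h1
    simp [sigFun, ST1_of, hij, hkl, hik, hil, hjk, hjl, hij.symm, hkl.symm, hik.symm, hil.symm, hjk.symm, hjl.symm]
  · by_cases h2 : t = j
    · subst h2
      simp [sigFun, ST1_of, hij, hkl, hik, hil, hjk, hjl, hij.symm, hkl.symm, hik.symm, hil.symm, hjk.symm, hjl.symm]
    · by_cases h3 : t = k
      · subst h3
        simp [sigFun, ST1_of, hij, hkl, hik, hil, hjk, hjl, hij.symm, hkl.symm, hik.symm, hil.symm, hjk.symm, hjl.symm]
      · by_cases h4 : t = l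
        · subst h4
          simp [sigFun, ST1_of, hij, hkl, hik, hil, hjk, hjl, hij.symm, hkl.symm, hik.symm, hil.symm, hjk.symm, hjl.symm]
        · simp [sigFun, ST1_of, h1, h2, h3, h4]
-- END ST2

-- MODULE ST3
/-- PROOF. As ST1, with artinFun of Conf14/Defs (no l with i < l < j). -/
theorem sig_sq (i j : Fin n) (hj : (j : ℕ) = i + 1) : sig i j * sig i j = artin i j := by
  have hij : i ≠ j := by intro h; rw [h] at hj; omega
  apply ST1_ext
  intro t
  simp only [MulAut.mul_apply, ST1_of, ST1_aof]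
  by_cases h1 : t = i
  · subst h1
    simp [sigFun, artinFun, ST1_of, hij, hij.symm, mul_assoc]
  · by_cases h2 : t = j
    · subst h2
      simp [sigFun, artinFun, ST1_of, hij, hij.symm, mul_assoc]
    · have h3 : ¬ (i < t ∧ t < j) := by
        rintro ⟨h3, h4⟩
        have := Fin.lt_def.1 h3
        have := Fin.lt_def.1 h4
        omega
      simp [sigFun, artinFun, ST1_of, h1, h2, h3]
-- END ST3

-- MODULE ST4
private theorem ST4_sfix (i j t : Fin n) (h1 : t ≠ i) (h2 : t ≠ j) :
    sig i j (of t) = of t := by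
  rw [ST1_of, sigFun, if_neg h1, if_neg h2]

private theorem ST4_sl (i j : Fin n) : sig i j (of i) = of j := by
  rw [ST1_of, sigFun, if_pos rfl]

private theorem ST4_sr (i j : Fin n) (h : j ≠ i) :
    sig i j (of j) = (of j)⁻¹ * of i * of j := by
  rw [ST1_of, sigFun, if_neg h, if_pos rfl]

private theorem ST4_al (i j : Fin n) :
    artin i j (of i) = (of i * of j)⁻¹ * of i * (of i * of j) := by
  rw [ST1_aof, artinFun, if_pos rfl]

private theorem ST4_ar (i j : Fin n) (h : j ≠ i) :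
    artin i j (of j) = (of i * of j)⁻¹ * of j * (of i * of j) := by
  rw [ST1_aof, artinFun, if_neg h, if_pos rfl]

private theorem ST4_am (i j t : Fin n) (h1 : i < t) (h2 : t < j) :
    artin i j (of t) =
      ((of j)⁻¹ * (of i)⁻¹ * of j * of i) * of t * ((of j)⁻¹ * (of i)⁻¹ * of j * of i)⁻¹ := by
  rw [ST1_aof, artinFun, if_neg h1.ne', if_neg h2.ne, if_pos ⟨h1, h2⟩]

private theorem ST4_ao (i j t : Fin n) (hij : i ≤ j) (h : t < i ∨ j < t) :
    artin i j (of t) = of t := by
  rw [ST1_aof, artinFun, if_neg, if_neg, if_neg]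
  · rintro ⟨h1, h2⟩
    rcases h with h | h
    · exact absurd (h.trans h1) (lt_irrefl _)
    · exact absurd (h.trans h2) (lt_irrefl _)
  · rintro rfl
    rcases h with h | h
    · exact absurd (lt_of_lt_of_le h hij) (lt_irrefl _)
    · exact absurd h (lt_irrefl _)
  · rintro rfl
    rcases h with h | h
    · exact absurd h (lt_irrefl _)
    · exact absurd (lt_of_le_of_lt hij h) (lt_irrefl _)

/-- (Checked by computer.) PROOF. As ST1: check on `of t`, t = i, i < t < j, t = j, t = k, other (artin_apply_of in Conf14/Defs). -/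
theorem sig_artin_right (i j k : Fin n) (hij : i < j) (hk : (k : ℕ) = j + 1) :
    sig j k * artin i j = artin i k * sig j k := by
  have hij' := Fin.lt_def.1 hij
  have hjk : j < k := by rw [Fin.lt_def]; omega
  have hik : i < k := hij.trans hjk
  apply ST1_ext
  intro t
  simp only [MulAut.mul_apply]
  rcases lt_trichotomy t i with h | rfl | h
  · rw [ST4_ao i j t hij.le (Or.inl h), ST4_sfix j k t (h.trans hij).ne (h.trans hik).ne,
      ST4_ao i k t hik.le (Or.inl h)]
  · rw [ST4_al, ST4_sfix j k t hij.ne hik.ne, ST4_al]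
    simp only [map_mul, map_inv, ST4_sfix j k t hij.ne hik.ne, ST4_sl]
  · rcases lt_trichotomy t j with h2 | rfl | h2
    · have e1 := ST4_sfix j k t h2.ne (h2.trans hjk).ne
      have e2 := ST4_sfix j k i hij.ne hik.ne
      rw [ST4_am i j t h h2, e1, ST4_am i k t h (h2.trans hjk)]
      simp only [map_mul, map_inv, e1, e2, ST4_sl]
    · have e2 := ST4_sfix t k i hij.ne hik.ne
      rw [ST4_ar i t hij.ne', ST4_sl, ST4_ar i k hik.ne']
      simp only [map_mul, map_inv, e2, ST4_sl]
    · by_cases h3 : t = k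
      · subst h3
        have e2 := ST4_ar i t hik.ne'
        have e3 := ST4_am i t j hij hjk
        rw [ST4_ao i j t hij.le (Or.inr hjk), ST4_sr j t hjk.ne']
        simp only [map_mul, map_inv, e2, e3]
        group
      · have h4 : k < t := by
          rw [Fin.lt_def] at h2 ⊢
          have : (t : ℕ) ≠ k := fun h => h3 (Fin.ext h)
          omega
        rw [ST4_ao i j t hij.le (Or.inr h2), ST4_sfix j k t h2.ne' h4.ne',
          ST4_ao i k t hik.le (Or.inr h4)]
-- END ST4

-- MODULE ST5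
/-- (Checked by computer.) PROOF. As ST1: check on `of t`, t = i, t = i', i' < t < k, t = k, other. -/
theorem sig_artin_left (i i' k : Fin n) (hi : (i' : ℕ) = i + 1) (hk : i' < k) :
    sig i i' * artin i k = artin i' k * sig i i' := by
  have hk' := Fin.lt_def.1 hk
  have hii : i < i' := by rw [Fin.lt_def]; omega
  have hik : i < k := hii.trans hk
  have e1 := ST4_sfix i i' k hik.ne' hk.ne'
  have e2 := ST4_sr i i' hii.ne'
  have e3 := ST4_sl i i'
  apply ST1_ext
  intro t
  simp only [MulAut.mul_apply]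
  rcases lt_trichotomy t i with h | rfl | h
  · rw [ST4_ao i k t hik.le (Or.inl h), ST4_sfix i i' t h.ne (h.trans hii).ne,
      ST4_ao i' k t hk.le (Or.inl (h.trans hii))]
  · rw [ST4_al, e3, ST4_al]
    simp only [map_mul, map_inv, e1, e3]
  · by_cases h3 : t = i'
    · subst h3
      rw [ST4_am i k t h hk, e2]
      simp only [map_mul, map_inv, e1, e2, e3, ST4_al, ST4_ao t k i hk.le (Or.inl hii)]
      group
    · have h4 : i' < t := by
        rw [Fin.lt_def] at h ⊢
        have : (t : ℕ) ≠ i' := fun h => h3 (Fin.ext h)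
        omega
      have e4 := ST4_sfix i i' t h.ne' h4.ne'
      rcases lt_trichotomy t k with h2 | rfl | h2
      · rw [ST4_am i k t h h2, e4, ST4_am i' k t h4 h2]
        simp only [map_mul, map_inv, e1, e2, e3, e4]
      · rw [ST4_ar i t hik.ne', e4, ST4_ar i' t hk.ne']
        simp only [map_mul, map_inv, e1, e2, e3]
      · rw [ST4_ao i k t hik.le (Or.inr h2), e4, ST4_ao i' k t hk.le (Or.inr h2)]
-- END ST5

-- MODULE ST6
/-- (Checked by computer.) PROOF. As ST1: check on `of t`. In the case i < l, l' < k both `of l` and `of l'` are conjugated by the same element (a word in of i, of k, fixed by sig l l'). -/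
theorem sig_artin_comm (i k l l' : Fin n) (hik : i < k) (hl : (l' : ℕ) = l + 1)
    (h : l' < i ∨ (i < l ∧ l' < k) ∨ k < l) : sig l l' * artin i k = artin i k * sig l l' := by
  have hll : l < l' := by rw [Fin.lt_def]; omega
  have hik' := Fin.lt_def.1 hik
  have hil : i ≠ l ∧ i ≠ l' ∧ k ≠ l ∧ k ≠ l' := by
    simp only [Fin.lt_def] at h
    refine ⟨?_, ?_, ?_, ?_⟩ <;> (intro hh; have := congrArg Fin.val hh; omega)
  have ei := ST4_sfix l l' i hil.1 hil.2.1
  have ek := ST4_sfix l l' k hil.2.2.1 hil.2.2.2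
  have e2 := ST4_sr l l' hll.ne'
  have e3 := ST4_sl l l'
  apply ST1_ext
  intro t
  simp only [MulAut.mul_apply]
  -- images of l and l'
  by_cases ht : t = l ∨ t = l'
  · rcases h with h | ⟨h, h'⟩ | h
    · have a1 := ST4_ao i k l hik.le (Or.inl (hll.trans h))
      have a2 := ST4_ao i k l' hik.le (Or.inl h)
      rcases ht with rfl | rfl
      · rw [a1, e3, a2]
      · rw [a2, e2]; simp only [map_mul, map_inv, a1, a2]
    · have a1 := ST4_am i k l h (hll.trans h')
      have a2 := ST4_am i k l' (h.trans hll) h'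
      rcases ht with rfl | rfl
      · rw [a1, e3, a2]; simp only [map_mul, map_inv, ei, ek, e3]
      · rw [a2, e2]; simp only [map_mul, map_inv, ei, ek, e2, a1, a2]; group
    · have a1 := ST4_ao i k l hik.le (Or.inr h)
      have a2 := ST4_ao i k l' hik.le (Or.inr (h.trans hll))
      rcases ht with rfl | rfl
      · rw [a1, e3, a2]
      · rw [a2, e2]; simp only [map_mul, map_inv, a1, a2]
  · push Not at ht
    have et := ST4_sfix l l' t ht.1 ht.2
    rw [et]
    rcases lt_trichotomy t i with h1 | rfl | h1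
    · rw [ST4_ao i k t hik.le (Or.inl h1), et]
    · rw [ST4_al]; simp only [map_mul, map_inv, ei, ek]
    · rcases lt_trichotomy t k with h2 | rfl | h2
      · rw [ST4_am i k t h1 h2]; simp only [map_mul, map_inv, ei, ek, et]
      · rw [ST4_ar i t hik.ne']; simp only [map_mul, map_inv, ei, ek]
      · rw [ST4_ao i k t hik.le (Or.inr h2), et]
-- END ST6

-- MODULE ST7
/-- PROOF. Induction on k - i: k = i + 1: ST3 (g = 1). Step: k = j + 1, i < j: artin i k = sig j k * artin i j * (sig j k)⁻¹ (ST4). -/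
theorem artin_conj (i k : Fin n) (hik : i < k) :
    ∃ g ∈ BraidGroup n, ∃ l l' : Fin n, (l' : ℕ) = l + 1 ∧
      artin i k = g * (sig l l' * sig l l') * g⁻¹ := by
  obtain ⟨d, hd⟩ : ∃ d, (k : ℕ) = i + 1 + d := ⟨k - (i + 1), by have := Fin.lt_def.1 hik; omega⟩
  induction d generalizing k with
  | zero =>
    refine ⟨1, one_mem _, i, k, by omega, ?_⟩
    rw [sig_sq i k (by omega)]
    simp
  | succ d ih =>
    have hj : (i : ℕ) + 1 + d < n := by have := k.2; omega
    obtain ⟨g, hg, l, l', hl, h⟩ := ih ⟨(i : ℕ) + 1 + d, hj⟩ (by rw [Fin.lt_def]; simp; omega) rfl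
    have h1 := sig_artin_right i ⟨(i : ℕ) + 1 + d, hj⟩ k (by rw [Fin.lt_def]; simp; omega)
      (by simp; omega)
    have hs : sig ⟨(i : ℕ) + 1 + d, hj⟩ k ∈ BraidGroup n :=
      Subgroup.subset_closure ⟨_, _, by simp; omega, rfl⟩
    refine ⟨sig ⟨(i : ℕ) + 1 + d, hj⟩ k * g, mul_mem hs hg, l, l', hl, ?_⟩
    have h2 : artin i k = sig ⟨(i : ℕ) + 1 + d, hj⟩ k * artin i ⟨(i : ℕ) + 1 + d, hj⟩ *
        (sig ⟨(i : ℕ) + 1 + d, hj⟩ k)⁻¹ := eq_mul_inv_iff_mul_eq.2 h1.symm
    rw [h2, h, mul_inv_rev]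
    simp only [mul_assoc]
-- END ST7

/-- pure braids are braids -/
theorem pure_le (n : ℕ) : PureBraid n ≤ BraidGroup n := by
  rw [PureBraid, Subgroup.closure_le]
  rintro φ ⟨i, j, hij, rfl⟩
  obtain ⟨g, hg, l, l', hl, h⟩ := artin_conj i j hij
  have h1 : sig l l' ∈ BraidGroup n := Subgroup.subset_closure ⟨l, l', hl, rfl⟩
  rw [h]
  exact mul_mem (mul_mem hg (mul_mem h1 h1)) (inv_mem hg)

-- MODULE ST8
private theorem ST8_key {φ ψ : MulAut (FreeGroup (Fin n))} (hφ : φ * φ = ψ)
    (hψ : ψ ∈ PureBraid n) (a : MulAut (FreeGroup (Fin n))) :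
    φ * a * φ⁻¹ ∈ PureBraid n ↔ φ⁻¹ * a * φ ∈ PureBraid n := by
  have h1 : φ * a * φ⁻¹ = ψ * (φ⁻¹ * a * φ) * ψ⁻¹ := by
    rw [← hφ]; group
  rw [h1]
  constructor
  · intro h
    have h2 := mul_mem (mul_mem (inv_mem hψ) h) hψ
    rwa [show ψ⁻¹ * (ψ * (φ⁻¹ * a * φ) * ψ⁻¹) * ψ = φ⁻¹ * a * φ by group] at h2
  · intro h
    exact mul_mem (mul_mem hψ h) (inv_mem hψ)

private theorem ST8_mem (i k : Fin n) (h : i < k) : artin i k ∈ PureBraid n :=
  Subgroup.subset_closure ⟨i, k, h, rfl⟩

/-- one of the two conjugates of a generator -/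
private theorem ST8_gen (l l' : Fin n) (hl : (l' : ℕ) = l + 1) (i k : Fin n) (hik : i < k) :
    sig l l' * artin i k * (sig l l')⁻¹ ∈ PureBraid n := by
  have hll : l < l' := by rw [Fin.lt_def]; omega
  have hik' := Fin.lt_def.1 hik
  have hsq := sig_sq l l' hl
  have hψ := ST8_mem l l' hll
  have hcomm : (l' < i ∨ (i < l ∧ l' < k) ∨ k < l) →
      sig l l' * artin i k * (sig l l')⁻¹ ∈ PureBraid n := by
    intro h
    rw [sig_artin_comm i k l l' hik hl h, mul_inv_cancel_right]
    exact ST8_mem i k hik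
  by_cases h1 : l' < i
  · exact hcomm (Or.inl h1)
  by_cases h2 : k < l
  · exact hcomm (Or.inr (Or.inr h2))
  by_cases h3 : i < l ∧ l' < k
  · exact hcomm (Or.inr (Or.inl h3))
  -- l = i
  by_cases h4 : l = i
  · subst h4
    by_cases h5 : l' = k
    · subst h5
      rw [← hsq, show sig l l' * (sig l l' * sig l l') * (sig l l')⁻¹ = sig l l' * sig l l' by group,
        hsq]
      exact hψ
    · have h6 : l' < k := by
        rw [Fin.lt_def] at *
        have : (l' : ℕ) ≠ k := fun h => h5 (Fin.ext h)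
        omega
      rw [sig_artin_left l l' k hl h6, mul_inv_cancel_right]
      exact ST8_mem l' k h6
  by_cases h5 : l' = i
  · subst h5
    rw [ST8_key hsq hψ]
    rw [mul_assoc, ← sig_artin_left l l' k hl hik, inv_mul_cancel_left]
    exact ST8_mem l k (hll.trans hik)
  by_cases h6 : l = k
  · subst h6
    rw [sig_artin_right i l l' hik hl, mul_inv_cancel_right]
    exact ST8_mem i l' (hik.trans hll)
  · have h7 : l' = k := by
      apply Fin.ext
      have e4 : (l : ℕ) ≠ i := fun h => h4 (Fin.ext h)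
      have e5 : (l' : ℕ) ≠ i := fun h => h5 (Fin.ext h)
      have e6 : (l : ℕ) ≠ k := fun h => h6 (Fin.ext h)
      simp only [Fin.lt_def] at h1 h2 h3
      omega
    subst h7
    have h8 : i < l := by
      have e4 : (l : ℕ) ≠ i := fun h => h4 (Fin.ext h)
      rw [Fin.lt_def]
      simp only [Fin.lt_def] at h1 h2 h3
      omega
    rw [ST8_key hsq hψ]
    rw [mul_assoc, ← sig_artin_right i l l' h8 hl, inv_mul_cancel_left]
    exact ST8_mem i l h8

/-- The pure braid group is normal in the braid group. PROOF. Closure induction on g: it is enough to show for φ = sig l l' (l' = l + 1) that φ a φ⁻¹ and φ⁻¹ a φ are in PureBraid n for all a ∈ PureBraid n, and for that it is enough for a = artin i k (map of closures / closure induction on a).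
Since φ * φ = artin l l' ∈ PureBraid n (ST3), φ⁻¹ a φ = (φ φ)⁻¹ (φ a φ⁻¹) (φ φ), and the converse, so one of the two is enough for each (i, k): l' < i, or i < l, l' < k, or k < l: ST6 (φ a φ⁻¹ = a). l = i, l' = k: φ commutes with φ * φ. l = i, l' < k: ST5. l' = i: φ⁻¹ * artin i k * φ = artin l k
(ST5 with (i, i', k) := (l, i, k)). l = k: ST4: φ a φ⁻¹ = artin i l'. l' = k, i < l: φ⁻¹ * artin i k * φ = artin i l (ST4). -/
theorem pure_normal (g a : MulAut (FreeGroup (Fin n))) (hg : g ∈ BraidGroup n)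
    (ha : a ∈ PureBraid n) : g * a * g⁻¹ ∈ PureBraid n := by
  have key : ∀ l l' : Fin n, (l' : ℕ) = l + 1 → ∀ a ∈ PureBraid n,
      sig l l' * a * (sig l l')⁻¹ ∈ PureBraid n := by
    intro l l' hl a ha
    induction ha using Subgroup.closure_induction with
    | mem x hx =>
      obtain ⟨i, k, hik, rfl⟩ := hx
      exact ST8_gen l l' hl i k hik
    | one => simp [one_mem]
    | mul x y _ _ hx hy =>
      have := mul_mem hx hy
      rwa [show sig l l' * x * (sig l l')⁻¹ * (sig l l' * y * (sig l l')⁻¹) =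
        sig l l' * (x * y) * (sig l l')⁻¹ by group] at this
    | inv x _ hx =>
      have := inv_mem hx
      rwa [show (sig l l' * x * (sig l l')⁻¹)⁻¹ = sig l l' * x⁻¹ * (sig l l')⁻¹ by group] at this
  have key2 : ∀ a ∈ PureBraid n, g * a * g⁻¹ ∈ PureBraid n ∧ g⁻¹ * a * g ∈ PureBraid n := by
    clear ha a
    induction hg using Subgroup.closure_induction with
    | mem x hx =>
      obtain ⟨l, l', hl, rfl⟩ := hx
      intro a ha
      have h1 := key l l' hl a ha
      have hll : l < l' := by rw [Fin.lt_def]; omega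
      exact ⟨h1, (ST8_key (sig_sq l l' hl) (ST8_mem l l' hll) a).1 h1⟩
    | one => intro a ha; simpa using ha
    | mul x y _ _ hx hy =>
      intro a ha
      constructor
      · have := (hx _ (hy a ha).1).1
        rwa [show x * (y * a * y⁻¹) * x⁻¹ = x * y * a * (x * y)⁻¹ by group] at this
      · have := (hy _ (hx a ha).2).2
        rwa [show y⁻¹ * (x⁻¹ * a * x) * y = (x * y)⁻¹ * a * (x * y) by group] at this
    | inv x _ hx =>
      intro a ha
      rw [inv_inv]
      exact ⟨(hx a ha).2, (hx a ha).1⟩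
  exact (key2 a ha).1
-- END ST8

/-- the generators of the braid group -/
def ss (n : ℕ) (i : ℕ) : BraidGroup n :=
  if h : i + 1 < n then ⟨sig ⟨i, by omega⟩ ⟨i + 1, h⟩,
    Subgroup.subset_closure ⟨⟨i, by omega⟩, ⟨i + 1, h⟩, rfl, rfl⟩⟩ else 1

-- MODULE ST9
/-- PROOF. ST1, ST2 (Subtype.ext). Generation: `Subgroup.closure_closure_coe_preimage` or: the image under the subtype of the closure of {ss n i} contains the generators of BraidGroup n. -/
theorem ss_spec (n : ℕ) : IsBr (n - 1) (ss n) ∧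
    Subgroup.closure {x | ∃ i, i < n - 1 ∧ x = ss n i} = ⊤ := by
  refine ⟨⟨?_, ?_⟩, ?_⟩
  · intro i hi
    apply Subtype.ext
    simp only [ss, dif_pos (show i + 1 < n by omega), dif_pos (show i + 1 + 1 < n by omega),
      Subgroup.coe_mul]
    exact sig_braid _ _ _ rfl rfl
  · intro i j hij hj
    apply Subtype.ext
    simp only [ss, dif_pos (show i + 1 < n by omega), dif_pos (show j + 1 < n by omega),
      Subgroup.coe_mul]
    exact sig_comm _ _ _ _ rfl rfl (by simp; omega)
  · have h1 : ({x | ∃ i, i < n - 1 ∧ x = ss n i} : Set (BraidGroup n)) =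
        (Subtype.val : BraidGroup n → _) ⁻¹'
          {φ | ∃ i j : Fin n, (j : ℕ) = i + 1 ∧ φ = sig i j} := by
      ext x
      simp only [Set.mem_setOf_eq, Set.mem_preimage]
      constructor
      · rintro ⟨i, hi, rfl⟩
        refine ⟨⟨i, by omega⟩, ⟨i + 1, by omega⟩, rfl, ?_⟩
        simp only [ss, dif_pos (show i + 1 < n by omega)]
      · rintro ⟨i, j, hj, hx⟩
        refine ⟨i, by omega, ?_⟩
        apply Subtype.ext
        rw [hx]
        simp only [ss, dif_pos (show (i : ℕ) + 1 < n by omega)]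
        congr 1
        exact Fin.ext hj
    rw [h1]
    exact Subgroup.closure_closure_coe_preimage
-- END ST9

section rep

variable {V : Type u} [AddCommGroup V] [Module ℂ V]

/-- the inclusion of the pure braid group in the braid group -/
def inc (n : ℕ) : PureBraid n →* BraidGroup n := Subgroup.inclusion (pure_le n)

/-- stable under the pure braid group -/
def PStb (ρ : Representation ℂ (BraidGroup n) V) (W : Submodule ℂ V) : Prop :=
  ∀ (β : PureBraid n), ∀ w ∈ W, ρ (inc n β) w ∈ W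

-- MODULE ST10
private theorem ST10_conj (g : BraidGroup n) (β : PureBraid n) :
    ∃ β' : PureBraid n, inc n β * g = g * inc n β' := by
  have h := pure_normal (g⁻¹ : BraidGroup n).1 β.1 (g⁻¹ : BraidGroup n).2 β.2
  refine ⟨⟨_, h⟩, ?_⟩
  apply Subtype.ext
  show β.1 * g.1 = g.1 * ((g⁻¹ : BraidGroup n).1 * β.1 * ((g⁻¹ : BraidGroup n).1)⁻¹)
  simp only [Subgroup.coe_inv]
  group

private theorem ST10_inj (ρ : Representation ℂ (BraidGroup n) V) (g : BraidGroup n) (v : V) :
    ρ g⁻¹ (ρ g v) = v := by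
  rw [← Module.End.mul_apply, ← map_mul, inv_mul_cancel, map_one]; rfl

private theorem ST10_inj' (ρ : Representation ℂ (BraidGroup n) V) (g : BraidGroup n) (v : V) :
    ρ g (ρ g⁻¹ v) = v := by
  rw [← Module.End.mul_apply, ← map_mul, mul_inv_cancel, map_one]; rfl

private theorem ST10_stb (ρ : Representation ℂ (BraidGroup n) V) (g : BraidGroup n)
    (W : Submodule ℂ V) (hW : PStb ρ W) : PStb ρ (W.map (ρ g)) := by
  rintro β _ ⟨w, hw, rfl⟩
  obtain ⟨β', h⟩ := ST10_conj g β
  refine ⟨ρ (inc n β') w, hW β' w hw, ?_⟩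
  rw [← Module.End.mul_apply, ← Module.End.mul_apply, ← map_mul, ← map_mul, h]

private theorem ST10_mm (ρ : Representation ℂ (BraidGroup n) V) (g : BraidGroup n)
    (W : Submodule ℂ V) : (W.map (ρ g)).map (ρ g⁻¹) = W := by
  ext v
  constructor
  · rintro ⟨_, ⟨w, hw, rfl⟩, rfl⟩
    rw [ST10_inj]; exact hw
  · intro hv
    exact ⟨_, ⟨v, hv, rfl⟩, ST10_inj ρ g v⟩

private theorem ST10_min (ρ : Representation ℂ (BraidGroup n) V) (g : BraidGroup n)
    (W : Submodule ℂ V) (h0 : W ≠ ⊥) (hW : PStb ρ W)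
    (hm : ∀ W' : Submodule ℂ V, PStb ρ W' → W' ≤ W → W' = ⊥ ∨ W' = W) :
    W.map (ρ g) ≠ ⊥ ∧ PStb ρ (W.map (ρ g)) ∧
      ∀ W' : Submodule ℂ V, PStb ρ W' → W' ≤ W.map (ρ g) → W' = ⊥ ∨ W' = W.map (ρ g) := by
  refine ⟨?_, ST10_stb ρ g W hW, ?_⟩
  · intro h
    apply h0
    rw [← ST10_mm ρ g W, h, Submodule.map_bot]
  · intro W' hs hle
    have h1 : W'.map (ρ g⁻¹) ≤ W := by
      rw [← ST10_mm ρ g W]
      exact Submodule.map_mono hle
    have h2 := ST10_mm ρ g⁻¹ W'
    rw [inv_inv] at h2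
    rcases hm _ (ST10_stb ρ g⁻¹ W' hs) h1 with h | h
    · left
      rw [← h2, h, Submodule.map_bot]
    · right
      rw [← h2, h]

/-- a subspace stable under everything is trivial -/
private theorem ST10_bt (ρ : Representation ℂ (BraidGroup n) V) [ρ.IsIrreducible]
    (S : Submodule ℂ V) (h : ∀ g, ∀ v ∈ S, ρ g v ∈ S) (h0 : S ≠ ⊥) : S = ⊤ := by
  have h1 := eq_bot_or_eq_top (⟨S, fun g x hx => h g x hx⟩ : Subrepresentation ρ)
  rcases h1 with h1 | h1
  · exact absurd (congrArg Subrepresentation.toSubmodule h1) h0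
  · exact congrArg Subrepresentation.toSubmodule h1

private theorem ST10_nt (ρ : Representation ℂ (BraidGroup n) V) [ρ.IsIrreducible] :
    (⊤ : Submodule ℂ V) ≠ ⊥ := by
  intro h
  have h1 : (⊥ : Subrepresentation ρ) = ⊤ := by
    apply Subrepresentation.toSubmodule_injective
    exact h.symm
  exact bot_ne_top h1

private theorem ST10_ex [FiniteDimensional ℂ V] (ρ : Representation ℂ (BraidGroup n) V)
    [ρ.IsIrreducible] : ∃ W : Submodule ℂ V, W ≠ ⊥ ∧ PStb ρ W ∧
      ∀ W' : Submodule ℂ V, PStb ρ W' → W' ≤ W → W' = ⊥ ∨ W' = W := by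
  obtain ⟨W, ⟨hW0, hWs⟩, hmin⟩ := (wellFounded_lt (α := Submodule ℂ V)).has_min
    {W | W ≠ ⊥ ∧ PStb ρ W} ⟨⊤, ST10_nt ρ, fun _ _ _ => Submodule.mem_top⟩
  refine ⟨W, hW0, hWs, fun W' hs hle => ?_⟩
  by_cases h : W' = ⊥
  · exact Or.inl h
  · right
    by_contra hne
    exact hmin W' ⟨h, hs⟩ (lt_of_le_of_ne hle hne)

/-- Clifford. PROOF. Take a minimal non-zero PStb subspace W0 (finite dimension). For g ∈ BraidGroup n, ρ g W0 is PStb (inc β * g = g * inc β', β' = g⁻¹ β g ∈ PureBraid n by ST8) and minimal (apply ρ g⁻¹). The sum S of all minimal non-zero PStb subspaces is stable under ρ g for all g, non-zero, so it is ⊤ (irreducible).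
Here `minimal` is the property in the set. -/
theorem clifford [FiniteDimensional ℂ V] (ρ : Representation ℂ (BraidGroup n) V)
    [ρ.IsIrreducible] : sSup {W : Submodule ℂ V | W ≠ ⊥ ∧ PStb ρ W ∧
      ∀ W' : Submodule ℂ V, PStb ρ W' → W' ≤ W → W' = ⊥ ∨ W' = W} = ⊤ := by
  apply ST10_bt ρ
  · intro g v hv
    have h1 : sSup {W : Submodule ℂ V | W ≠ ⊥ ∧ PStb ρ W ∧
      ∀ W' : Submodule ℂ V, PStb ρ W' → W' ≤ W → W' = ⊥ ∨ W' = W} ≤
        (sSup {W : Submodule ℂ V | W ≠ ⊥ ∧ PStb ρ W ∧
      ∀ W' : Submodule ℂ V, PStb ρ W' → W' ≤ W → W' = ⊥ ∨ W' = W}).comap (ρ g) := by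
      apply sSup_le
      rintro W ⟨h0, hs, hm⟩
      rw [← Submodule.map_le_iff_le_comap]
      exact le_sSup (ST10_min ρ g W h0 hs hm)
    exact h1 hv
  · obtain ⟨W, h0, hs, hm⟩ := ST10_ex ρ
    intro h
    have h1 : W ≤ ⊥ := by
      rw [← h]
      exact le_sSup ⟨h0, hs, hm⟩
    exact h0 (le_bot_iff.1 h1)
-- END ST10

-- MODULE ST11
/-- The restriction to a minimal stable subspace. PROOF. σ β = (ρ (inc n β)).restrict (hP β); irreducible: as in Pool/Agent/PF54/Prod.lean (irr_second) or from Subrepresentation: a subrepresentation W' of σ gives the PStb subspace W'.map W.subtype ≤ W. -/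
theorem exists_res (ρ : Representation ℂ (BraidGroup n) V) (W : Submodule ℂ V) (h0 : W ≠ ⊥)
    (hP : PStb ρ W) (hm : ∀ W' : Submodule ℂ V, PStb ρ W' → W' ≤ W → W' = ⊥ ∨ W' = W) :
    ∃ σ : Representation ℂ (PureBraid n) W,
      (∀ (β : PureBraid n) (w : W), (σ β w : V) = ρ (Subgroup.inclusion (pure_le n) β) w) ∧
      σ.IsIrreducible := by
  let σ : Representation ℂ (PureBraid n) W :=
    { toFun := fun β => (ρ (inc n β)).restrict (hP β)
      map_one' := by
        ext w
        rw [LinearMap.coe_restrict_apply, map_one, map_one]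
        rfl
      map_mul' := by
        intro β β'
        ext w
        rw [LinearMap.coe_restrict_apply, map_mul, map_mul]
        rfl }
  refine ⟨σ, fun β w => rfl, ?_⟩
  have hnt : Nontrivial (Subrepresentation σ) := by
    refine ⟨⊥, ⊤, fun h => ?_⟩
    have h1 : (⊥ : Submodule ℂ W) = ⊤ := congrArg Subrepresentation.toSubmodule h
    apply h0
    rw [eq_bot_iff]
    intro w hw
    have h2 : (⟨w, hw⟩ : W) ∈ (⊥ : Submodule ℂ W) := by rw [h1]; exact Submodule.mem_top
    have h3 := (Submodule.mem_bot ℂ).1 h2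
    exact (Submodule.mem_bot ℂ).2 (congrArg Subtype.val h3)
  refine ⟨fun U => ?_⟩
  have hs : PStb ρ (U.toSubmodule.map W.subtype) := by
    rintro β _ ⟨w, hw, rfl⟩
    exact ⟨σ β w, U.apply_mem_toSubmodule β hw, rfl⟩
  have hle : U.toSubmodule.map W.subtype ≤ W := Submodule.map_subtype_le W _
  rcases hm _ hs hle with h | h
  · left
    apply Subrepresentation.toSubmodule_injective
    show U.toSubmodule = ⊥
    rw [eq_bot_iff]
    intro u hu
    have h2 : (u : V) ∈ (⊥ : Submodule ℂ V) := by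
      rw [← h]
      exact ⟨u, hu, rfl⟩
    exact (Submodule.mem_bot ℂ).2 (Subtype.ext ((Submodule.mem_bot ℂ).1 h2))
  · right
    apply Subrepresentation.toSubmodule_injective
    show U.toSubmodule = ⊤
    rw [eq_top_iff]
    rintro ⟨w, hw⟩ -
    have h2 : w ∈ U.toSubmodule.map W.subtype := by rw [h]; exact hw
    obtain ⟨u, hu, hu'⟩ := h2
    have : u = ⟨w, hw⟩ := Subtype.ext hu'
    rwa [← this]
-- END ST11

-- MODULE ST12
private theorem ST12_inc (i j : Fin n) (hij : i < j) : ∃ g : BraidGroup n, ∃ l : ℕ, l < n - 1 ∧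
    inc n (A i j hij) = g * (ss n l * ss n l) * g⁻¹ := by
  obtain ⟨g, hg, l, l', hl, h⟩ := artin_conj i j hij
  have hl' : (l : ℕ) + 1 < n := by have := l'.2; omega
  refine ⟨⟨g, hg⟩, l, by omega, ?_⟩
  apply Subtype.ext
  show artin i j = g * ((ss n l : BraidGroup n).1 * (ss n l : BraidGroup n).1) * g⁻¹
  have h1 : (ss n l : BraidGroup n).1 = sig l l' := by
    rw [ss, dif_pos hl']
    show sig _ _ = sig l l'
    congr 1
    exact Fin.ext hl.symm
  rw [h1]
  exact h

/-- Rank one. PROOF. For i < j: A i j = g (sig l l')^2 g⁻¹ in the braid group (ST7), sig l l' = ss n l, T = ρ (ss n l) = lam + N0 with rank N0 ≤ 1: T^2 - lam^2 = (T - lam) (T + lam) has rank ≤ 1 (range (T - lam) * (..) ≤ range (T - lam)), so ρ (inc (A i j)) - lam^2 = ρ g (T^2 - lam^2) ρ g⁻¹ has rank ≤ 1, and σ (A i j) - lam^2 is its restriction to W: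
the range is mapped injectively by W.subtype into the range of ρ (inc (A i j)) - lam^2. (lam is one scalar for all l.) -/
theorem rank_piece [FiniteDimensional ℂ V] (ρ : Representation ℂ (BraidGroup n) V)
    (h : RkOne (n - 1) (ss n) ρ) (W : Submodule ℂ V) (σ : Representation ℂ (PureBraid n) W)
    (hσ : ∀ (β : PureBraid n) (w : W), (σ β w : V) = ρ (Subgroup.inclusion (pure_le n) β) w)
    (i j : Fin n) (hij : i < j) : ∃ c : ℂ,
      Module.finrank ℂ (LinearMap.range (σ (A i j hij) - c • LinearMap.id)) ≤ 1 := by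
  obtain ⟨lam, hlam⟩ := h
  obtain ⟨g, l, hl, hg⟩ := ST12_inc i j hij
  refine ⟨lam * lam, ?_⟩
  set T := ρ (ss n l) with hT
  have e1 : ρ (inc n (A i j hij)) - (lam * lam) • 1 =
      ρ g * ((T - lam • 1) * ((T + lam • 1) * ρ g⁻¹)) := by
    have e2 : (1 : Module.End ℂ V) = ρ g * ρ g⁻¹ := by
      rw [← map_mul, mul_inv_cancel, map_one]
    have e3 : (T - lam • 1) * ((T + lam • 1) * ρ g⁻¹) = (T * T - (lam * lam) • 1) * ρ g⁻¹ := by
      rw [← mul_assoc]
      congr 1
      simp only [sub_mul, mul_add, smul_mul_assoc, mul_smul_comm, one_mul, mul_one]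
      rw [smul_sub, smul_smul]
      abel
    rw [e3, hg, map_mul, map_mul, map_mul, ← hT, sub_mul, mul_sub, smul_mul_assoc, mul_smul_comm,
      one_mul, ← e2, mul_assoc]
  have r1 : Module.finrank ℂ (LinearMap.range (ρ (inc n (A i j hij)) - (lam * lam) • 1)) ≤ 1 := by
    rw [e1]
    have r2 : LinearMap.range (ρ g * ((T - lam • 1) * ((T + lam • 1) * ρ g⁻¹))) ≤
        (LinearMap.range (T - lam • 1)).map (ρ g) := by
      rintro _ ⟨v, rfl⟩
      exact ⟨_, ⟨_, rfl⟩, rfl⟩
    refine (Submodule.finrank_mono r2).trans ((Submodule.finrank_map_le _ _).trans ?_)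
    exact hlam l hl
  have r3 : (LinearMap.range (σ (A i j hij) - (lam * lam) • LinearMap.id)).map W.subtype ≤
      LinearMap.range (ρ (inc n (A i j hij)) - (lam * lam) • 1) := by
    rintro _ ⟨_, ⟨w, rfl⟩, rfl⟩
    refine ⟨(w : V), ?_⟩
    have := hσ (A i j hij) w
    show ρ (inc n (A i j hij)) (w : V) - (lam * lam) • (w : V) =
      (σ (A i j hij) w : V) - (lam * lam) • (w : V)
    rw [this]
    rfl
  have r5 : Module.finrank ℂ (LinearMap.range (σ (A i j hij) - (lam * lam) • LinearMap.id)) =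
      Module.finrank ℂ ((LinearMap.range
        (σ (A i j hij) - (lam * lam) • LinearMap.id)).map W.subtype) :=
    (LinearEquiv.finrank_eq (Submodule.equivMapOfInjective W.subtype W.injective_subtype _))
  rw [r5]
  exact (Submodule.finrank_mono r3).trans r1
-- END ST12

-- MODULE ST13
private theorem ST13_one (ρ : Representation ℂ (BraidGroup n) V) (w : ℕ → V)
    (hw : ∀ i, i ≤ n - 1 → w i ≠ 0 ∧ ∀ j, j < n - 1 →
      (∃ i', i' ≤ n - 1 ∧ ∃ c : ℂ, c ≠ 0 ∧ ρ (ss n j) (w i) = c • w i') ∧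
      ∃ c : ℂ, c ≠ 0 ∧ ρ (ss n j) (ρ (ss n j) (w i)) = c • w i) (g : BraidGroup n) :
    ∀ i, i ≤ n - 1 → ∃ i', i' ≤ n - 1 ∧ ∃ c : ℂ, c ≠ 0 ∧ ρ g (w i) = c • w i' := by
  have hg : g ∈ Subgroup.closure {x | ∃ i, i < n - 1 ∧ x = ss n i} := by
    rw [(ss_spec n).2]; exact Subgroup.mem_top g
  have key : (∀ i, i ≤ n - 1 → ∃ i', i' ≤ n - 1 ∧ ∃ c : ℂ, c ≠ 0 ∧ ρ g (w i) = c • w i') ∧
      (∀ i, i ≤ n - 1 → ∃ i', i' ≤ n - 1 ∧ ∃ c : ℂ, c ≠ 0 ∧ ρ g⁻¹ (w i) = c • w i') := by
    induction hg using Subgroup.closure_induction with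
    | mem x hx =>
      obtain ⟨j, hj, rfl⟩ := hx
      refine ⟨fun i hi => ((hw i hi).2 j hj).1, fun i hi => ?_⟩
      obtain ⟨⟨i', hi', c', hc', h1⟩, c, hc, h2⟩ := (hw i hi).2 j hj
      refine ⟨i', hi', c⁻¹ * c', mul_ne_zero (inv_ne_zero hc) hc', ?_⟩
      have h3 : ρ (ss n j)⁻¹ (ρ (ss n j) (ρ (ss n j) (w i))) = ρ (ss n j)⁻¹ (c • w i) := by
        rw [h2]
      rw [ST10_inj, map_smul, h1] at h3
      rw [mul_smul, h3, smul_smul, inv_mul_cancel₀ hc, one_smul]
    | one =>
      constructor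
      · intro i hi
        exact ⟨i, hi, 1, one_ne_zero, by rw [map_one, one_smul]; rfl⟩
      · intro i hi
        exact ⟨i, hi, 1, one_ne_zero, by rw [inv_one, map_one, one_smul]; rfl⟩
    | mul x y _ _ hx hy =>
      constructor
      · intro i hi
        obtain ⟨i1, hi1, c1, hc1, h1⟩ := hy.1 i hi
        obtain ⟨i2, hi2, c2, hc2, h2⟩ := hx.1 i1 hi1
        refine ⟨i2, hi2, c1 * c2, mul_ne_zero hc1 hc2, ?_⟩
        rw [map_mul, Module.End.mul_apply, h1, map_smul, h2, smul_smul]
      · intro i hi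
        obtain ⟨i1, hi1, c1, hc1, h1⟩ := hx.2 i hi
        obtain ⟨i2, hi2, c2, hc2, h2⟩ := hy.2 i1 hi1
        refine ⟨i2, hi2, c1 * c2, mul_ne_zero hc1 hc2, ?_⟩
        rw [mul_inv_rev, map_mul, Module.End.mul_apply, h1, map_smul, h2, smul_smul]
    | inv x _ hx =>
      refine ⟨hx.2, ?_⟩
      rw [inv_inv]
      exact hx.1
  exact key.1

/-- Monomial case: the lines are stable. PROOF. (1) For every g ∈ BraidGroup n and every i ≤ n - 1 there are i' ≤ n - 1 and c ≠ 0 with ρ g (w i) = c • w i' (closure induction over ST9; for (ss n j)⁻¹: ρ (ss j) (ρ (ss j) (w i)) = c • w i gives ρ (ss j)⁻¹ (w i) = c⁻¹ • ρ (ss j) (w i) = (c⁻¹ c') • w i').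
(2) For β = A i j = g (ss l)^2 g⁻¹ (ST7): ρ g⁻¹ (w t) = c • w t', ρ (ss l)^2 (w t') = c' • w t', so ρ β (w t) = c' • w t. (3) Closure induction over the generators of PureBraid n (Subgroup.closure_induction; a line stable under an invertible operator is stable under its inverse). -/
theorem mono_line (ρ : Representation ℂ (BraidGroup n) V) (w : ℕ → V)
    (hw : ∀ i, i ≤ n - 1 → w i ≠ 0 ∧ ∀ j, j < n - 1 →
      (∃ i', i' ≤ n - 1 ∧ ∃ c : ℂ, c ≠ 0 ∧ ρ (ss n j) (w i) = c • w i') ∧
      ∃ c : ℂ, c ≠ 0 ∧ ρ (ss n j) (ρ (ss n j) (w i)) = c • w i)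
    (t : ℕ) (ht : t ≤ n - 1) : PStb ρ (Submodule.span ℂ {w t}) := by
  have key : ∀ β : PureBraid n, ∃ c : ℂ, c ≠ 0 ∧ ρ (inc n β) (w t) = c • w t := by
    rintro ⟨β, hβ⟩
    induction hβ using Subgroup.closure_induction with
    | mem x hx =>
      obtain ⟨i, j, hij, rfl⟩ := hx
      obtain ⟨g, l, hl, hg⟩ := ST12_inc i j hij
      have e : (⟨artin i j, Subgroup.subset_closure ⟨i, j, hij, rfl⟩⟩ : PureBraid n) =
        A i j hij := rfl
      obtain ⟨t', ht', c1, hc1, h1⟩ := ST13_one ρ w hw g⁻¹ t ht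
      obtain ⟨-, c2, hc2, h2⟩ := (hw t' ht').2 l hl
      refine ⟨c2, hc2, ?_⟩
      show ρ (inc n (A i j hij)) (w t) = c2 • w t
      rw [hg, map_mul, map_mul, map_mul, Module.End.mul_apply, Module.End.mul_apply,
        Module.End.mul_apply, h1, map_smul, map_smul, h2, map_smul, map_smul, smul_comm,
        ← map_smul (ρ g) c1, ← h1, ST10_inj']
    | one =>
      refine ⟨1, one_ne_zero, ?_⟩
      have : inc n (⟨1, Subgroup.one_mem _⟩ : PureBraid n) = 1 := rfl
      rw [this, map_one, one_smul]; rfl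
    | mul x y hx' hy' hx hy =>
      obtain ⟨c1, hc1, h1⟩ := hx
      obtain ⟨c2, hc2, h2⟩ := hy
      refine ⟨c2 * c1, mul_ne_zero hc2 hc1, ?_⟩
      have : inc n (⟨x * y, mul_mem hx' hy'⟩ : PureBraid n) = inc n ⟨x, hx'⟩ * inc n ⟨y, hy'⟩ := rfl
      rw [this, map_mul, Module.End.mul_apply, h2, map_smul, h1, smul_smul]
    | inv x hx' hx =>
      obtain ⟨c1, hc1, h1⟩ := hx
      refine ⟨c1⁻¹, inv_ne_zero hc1, ?_⟩
      have : inc n (⟨x⁻¹, inv_mem hx'⟩ : PureBraid n) = (inc n ⟨x, hx'⟩)⁻¹ := rfl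
      rw [this]
      have h3 : ρ (inc n ⟨x, hx'⟩)⁻¹ (ρ (inc n ⟨x, hx'⟩) (w t)) =
          ρ (inc n ⟨x, hx'⟩)⁻¹ (c1 • w t) := by rw [h1]
      rw [ST10_inj, map_smul] at h3
      exact ((inv_smul_eq_iff₀ hc1).2 h3).symm
  intro β v hv
  obtain ⟨a, rfl⟩ := Submodule.mem_span_singleton.1 hv
  obtain ⟨c, hc, h⟩ := key β
  rw [map_smul, h, smul_smul]
  exact Submodule.smul_mem _ _ (Submodule.mem_span_singleton_self _)
-- END ST13

theorem irr_of (ρ : Representation ℂ (BraidGroup n) V) [ρ.IsIrreducible] :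
    Irr (ρ : BraidGroup n →* Module.End ℂ V) := by
  have hnt : Nontrivial V := by
    have h := (inferInstance : ρ.IsIrreducible)
    by_contra hV
    rw [not_nontrivial_iff_subsingleton] at hV
    have h1 := bot_ne_top (α := Subrepresentation ρ)
    apply h1
    ext x
    simp [Subsingleton.elim x 0]
  refine ⟨hnt, fun W h => ?_⟩
  have h1 := eq_bot_or_eq_top (⟨W, fun g x hx => h g x hx⟩ : Subrepresentation ρ)
  rcases h1 with h1 | h1
  · exact Or.inl (congrArg Subrepresentation.toSubmodule h1)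
  · exact Or.inr (congrArg Subrepresentation.toSubmodule h1)

/-- a line -/
theorem line_min {w : V} (hw : w ≠ 0) (W' : Submodule ℂ V) (h : W' ≤ Submodule.span ℂ {w}) :
    W' = ⊥ ∨ W' = Submodule.span ℂ {w} := by
  by_cases h0 : W' = ⊥
  · exact Or.inl h0
  · right
    obtain ⟨x, hx, hx0⟩ := Submodule.exists_mem_ne_zero_of_ne_bot h0
    obtain ⟨c, rfl⟩ := Submodule.mem_span_singleton.mp (h hx)
    have hc : c ≠ 0 := by
      rintro rfl
      simp at hx0
    apply le_antisymm h
    rw [Submodule.span_singleton_le_iff_mem]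
    have := W'.smul_mem c⁻¹ hx
    rwa [smul_smul, inv_mul_cancel₀ hc, one_smul] at this

/-- THE QUADRATIC RANGE. -/
theorem quadratic {n k m : ℕ} (hk : 12 ≤ k) (hm : 2 ≤ m) (hn : m * k ≤ n)
    [FiniteDimensional ℂ V] (ρ : Representation ℂ (BraidGroup n) V) [ρ.IsIrreducible]
    (hV : 2 * Module.finrank ℂ V < m * (m - 1) * (k - 2) ^ 2) :
    (Module.finrank ℂ V = 1 ∨ n ≤ Module.finrank ℂ V + 2 ∧ Module.finrank ℂ V ≤ n) ∧
      sSup {W | Piece ρ W} = ⊤ := by
  have hI := irr_of ρ
  have hnt := hI.1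
  have hpos : 0 < Module.finrank ℂ V := Module.finrank_pos
  -- pieces from minimal subspaces
  have key : ∀ (_ : Module.finrank ℂ V = 1 ∨ RkOne (n - 1) (ss n) ρ),
      sSup {W | Piece ρ W} = ⊤ := by
    intro hc
    apply top_unique
    rw [← clifford ρ]
    apply sSup_le_sSup
    rintro W ⟨h0, hP, hm⟩
    obtain ⟨σ, hσ, hirr⟩ := exists_res ρ W h0 hP hm
    refine ⟨σ, fun β h _ w => hσ ⟨β, h⟩ w, hirr, ?_⟩
    have hW : 0 < Module.finrank ℂ W := by
      rw [Nat.pos_iff_ne_zero]
      intro h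
      exact h0 (Submodule.finrank_eq_zero.mp h)
    have hle := Submodule.finrank_le W
    rcases hc with hc | hc
    · left; omega
    · by_cases h1 : Module.finrank ℂ W = 1
      · exact Or.inl h1
      · right
        exact inCyclicCovers σ (by omega) fun i j hij => rank_piece ρ hc W σ hσ i j hij
  by_cases h1 : Module.finrank ℂ V = 1
  · exact ⟨Or.inl h1, key (Or.inl h1)⟩
  · obtain ⟨hb, hg⟩ := ss_spec n
    have hB : Base (n - 1) (ss n) (ρ : BraidGroup n →* Module.End ℂ V) :=
      ⟨hb, hg, hI, by omega⟩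
    obtain ⟨h2, h3, h4⟩ := main_qb n k m hk hm hn ρ hB hV
    refine ⟨Or.inr ⟨h2, h3⟩, ?_⟩
    rcases h4 with h4 | ⟨w, hw1, hw2⟩
    · exact key (Or.inr h4)
    · apply top_unique
      rw [← hw1, Submodule.span_le]
      rintro v ⟨i, hi, rfl⟩
      have hP := mono_line ρ w hw2 i hi
      have hw0 := (hw2 i hi).1
      obtain ⟨σ, hσ, hirr⟩ := exists_res ρ _ (by
        rw [Ne, Submodule.span_singleton_eq_bot]; exact hw0) hP
        fun W' _ h => line_min hw0 W' h
      have hp : Piece ρ (Submodule.span ℂ {w i}) :=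
        ⟨σ, fun β h _ w => hσ ⟨β, h⟩ w, hirr, Or.inl (finrank_span_singleton hw0)⟩
      exact (le_sSup (a := Submodule.span ℂ {w i}) hp) (Submodule.mem_span_singleton_self _)

end rep

end Pool.Agent.QB54
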