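import Pool.Agent.QB54.Blk

/-!
# Distant generators

From the property `St` to: for some scalar `lam` the operators `π (s i) - lam` of distant strands
annihilate each other.
-/

set_option autoImplicit false
set_option linter.all false

namespace Pool.Agent.QB54

open Pool.Agent.HG13

universe u

variable {G : Type*} [Group G] {N : ℕ} {s : ℕ → G} {V : Type u} [AddCommGroup V] [Module ℂ V]

/-- irreducible representation of dimension at least two of a group generated by `s 0 .. s (N-1)` -/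
structure Base (N : ℕ) (s : ℕ → G) (π : G →* Module.End ℂ V) : Prop where
  br : IsBr N s
  gen : Subgroup.closure {x | ∃ i, i < N ∧ x = s i} = ⊤
  irr : Irr π
  dim : 2 ≤ Module.finrank ℂ V

-- MODULE TW1
/-- PROOF. `FiniteDimensional.of_finrank_pos`. The set of g with π g W ⊆ W and π g⁻¹ W ⊆ W is a subgroup; it contains the generators: π (s i) maps W into W and is injective (inverse π (s i)⁻¹), W is finite dimensional, so it maps W onto W and π (s i)⁻¹ maps W into W.
Then irreducibility. -/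
theorem stable_bot_top {π : G →* Module.End ℂ V} (h : Base N s π) (W : Submodule ℂ V)
    (hW : ∀ i, i < N → ∀ w ∈ W, π (s i) w ∈ W) : W = ⊥ ∨ W = ⊤ := by
  have hfd : FiniteDimensional ℂ V := FiniteDimensional.of_finrank_pos (by have := h.dim; omega)
  have key : ∀ x : G, (∀ w ∈ W, π x w ∈ W) ∧ ∀ w ∈ W, π x⁻¹ w ∈ W := by
    intro x
    have hx : x ∈ Subgroup.closure {x | ∃ i, i < N ∧ x = s i} := by
      rw [h.gen]
      exact Subgroup.mem_top x
    induction hx using Subgroup.closure_induction with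
    | mem x hx =>
      obtain ⟨i, hi, rfl⟩ := hx
      refine ⟨hW i hi, fun w hw => ?_⟩
      have hinj : Function.Injective ((π (s i)).restrict (hW i hi)) := by
        intro a b hab
        have h1 : π (s i) (a : V) = π (s i) (b : V) := congrArg Subtype.val hab
        have h2 := congrArg (π (s i)⁻¹) h1
        rw [← Module.End.mul_apply, ← Module.End.mul_apply, ← map_mul, inv_mul_cancel, map_one,
          Module.End.one_apply, Module.End.one_apply] at h2
        exact Subtype.ext h2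
      obtain ⟨w', hw'⟩ := LinearMap.surjective_of_injective hinj ⟨w, hw⟩
      have h1 : π (s i) (w' : V) = w := congrArg Subtype.val hw'
      rw [← h1, ← Module.End.mul_apply, ← map_mul, inv_mul_cancel, map_one, Module.End.one_apply]
      exact w'.2
    | one =>
      rw [inv_one, map_one]
      exact ⟨fun w hw => hw, fun w hw => hw⟩
    | mul x y _ _ hx hy =>
      refine ⟨fun w hw => ?_, fun w hw => ?_⟩
      · rw [map_mul, Module.End.mul_apply]
        exact hx.1 _ (hy.1 _ hw)
      · rw [mul_inv_rev, map_mul, Module.End.mul_apply]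
        exact hy.2 _ (hx.2 _ hw)
    | inv x _ hx =>
      rw [inv_inv]
      exact ⟨hx.2, hx.1⟩
  exact h.irr.2 W fun x => (key x).1
-- END TW1

-- MODULE TW2
/-- The generators do not all act in the same way. PROOF. Otherwise an eigenspace of π (s 0) (Module.End.exists_eigenvalue; V is nontrivial and finite dimensional; if N = 0 take any line) is stable, hence everything, so every π (s i) is the same scalar, every subspace is
stable, so a line ⟨v⟩ is ⊤ and dim V = 1 (finrank_span_singleton), contradiction. -/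
theorem not_all_equal {π : G →* Module.End ℂ V} (h : Base N s π)
    (he : ∀ i, i + 1 < N → π (s i) = π (s (i + 1))) : False := by
  have hfd : FiniteDimensional ℂ V := FiniteDimensional.of_finrank_pos (by have := h.dim; omega)
  have hnt : Nontrivial V := h.irr.1
  have h0 : ∀ i, i < N → π (s i) = π (s 0) := by
    intro i
    induction i with
    | zero => exact fun _ => rfl
    | succ i ih => exact fun hi => (he i hi).symm.trans (ih (by omega))
  obtain ⟨c, hc⟩ := Module.End.exists_eigenvalue (π (s 0))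
  have h1 : Module.End.eigenspace (π (s 0)) c = ⊤ := by
    refine (stable_bot_top h _ fun i hi w hw => ?_).resolve_left hc
    rw [h0 i hi]
    have h2 := Module.End.mem_eigenspace_iff.1 hw
    rw [h2]
    exact Submodule.smul_mem _ _ hw
  have h3 : ∀ i, i < N → ∀ v, π (s i) v = c • v := by
    intro i hi v
    rw [h0 i hi]
    refine Module.End.mem_eigenspace_iff.1 ?_
    rw [h1]
    exact Submodule.mem_top
  obtain ⟨v, hv⟩ := exists_ne (0 : V)
  have h4 : Submodule.span ℂ {v} = ⊤ := by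
    refine (stable_bot_top h _ fun i hi w hw => ?_).resolve_left fun h5 => hv ?_
    · rw [h3 i hi]
      exact Submodule.smul_mem _ _ hw
    · have := Submodule.mem_span_singleton_self (R := ℂ) v
      rw [h5] at this
      exact (Submodule.mem_bot ℂ).1 this
  have h5 := finrank_span_singleton (K := ℂ) hv
  rw [h4, finrank_top] at h5
  have := h.dim
  omega
-- END TW2

/-- the augmentation space of the `i`-th 3-strand subgroup -/
def UU (s : ℕ → G) (π : G →* Module.End ℂ V) (i : ℕ) : Submodule ℂ V :=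
  Submodule.span ℂ {v | ∃ x ∈ Kp s i, ∃ u, v = π x u - u}

-- MODULE TW3
private theorem TW3_aux (π : G →* Module.End ℂ V) (i i' : ℕ) (g : G)
    (hg : ∀ x ∈ Kp s i, g * x * g⁻¹ ∈ Kp s i') (u : V) (hu : u ∈ UU s π i) :
    π g u ∈ UU s π i' := by
  have h : UU s π i ≤ (UU s π i').comap (π g) := by
    refine Submodule.span_le.2 ?_
    rintro _ ⟨x, hx, v, rfl⟩
    change π g (π x v - v) ∈ UU s π i'
    have h1 : π g (π x v - v) = π (g * x * g⁻¹) (π g v) - π g v := by
      rw [map_sub, ← Module.End.mul_apply, ← map_mul, ← Module.End.mul_apply, ← map_mul,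
        inv_mul_cancel_right]
    rw [h1]
    exact Submodule.subset_span ⟨_, hg x hx, _, rfl⟩
  exact h hu

/-- PROOF. span_induction: π g (π x u - u) = π (g x g⁻¹) (π g u) - π g u and g x g⁻¹ ∈ Kp s i' (BR8). -/
theorem UU_conj (π : G →* Module.End ℂ V) (i i' : ℕ) (g : G) (h0 : g * s i = s i' * g)
    (h1 : g * s (i + 1) = s (i' + 1) * g) (u : V) (hu : u ∈ UU s π i) : π g u ∈ UU s π i' :=
  TW3_aux π i i' g (fun x hx => (Kp_conj s i i' g h0 h1 x).2 hx) u hu
-- END TW3

-- MODULE TW4
/-- PROOF. (1) span_induction and Kp_norm (BR10): π g (π x u - u) = π (g x g⁻¹) (π g u) - π g u with g = s j; for j + 2 ≤ i and i + 3 ≤ j g commutes with s i and s (i+1) (com). (2) s (i+2) = κ * s (i+1) with κ = s (i+2) * (s (i+1))⁻¹ ∈ Kp s (i+1) (BR9);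
w = π (s (i+1)) u ∈ UU i by (1), π (s (i+2)) u = π κ w = (π κ w - w) + w. (3) s i = κ * s (i+1) with κ = s i * (s (i+1))⁻¹ ∈ Kp s i; w = π (s (i+1)) u ∈ UU (i+1) by (1); π (s i) u = (π κ w - w) + w. -/
theorem UU_gen (h : IsBr N s) (π : G →* Module.End ℂ V) (i : ℕ) (hi : i + 1 < N) :
    (∀ j, j < N → (j + 2 ≤ i ∨ j = i ∨ j = i + 1 ∨ i + 3 ≤ j) → ∀ u ∈ UU s π i,
      π (s j) u ∈ UU s π i) ∧
    (i + 2 < N → ∀ u ∈ UU s π i, π (s (i + 2)) u ∈ UU s π i ⊔ UU s π (i + 1)) ∧
    (i + 2 < N → ∀ u ∈ UU s π (i + 1), π (s i) u ∈ UU s π i ⊔ UU s π (i + 1)) := by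
  have h1 : ∀ i, i + 1 < N → ∀ j, j < N → (j + 2 ≤ i ∨ j = i ∨ j = i + 1 ∨ i + 3 ≤ j) →
      ∀ u ∈ UU s π i, π (s j) u ∈ UU s π i := by
    intro i hi j hj hji u hu
    refine TW3_aux π i i (s j) (fun x hx => Kp_norm s i (s j) ?_ x hx) u hu
    rcases hji with hji | rfl | rfl | hji
    · exact Or.inr (Or.inr ⟨h.com j i hji (by omega), h.com j (i + 1) (by omega) hi⟩)
    · exact Or.inl rfl
    · exact Or.inr (Or.inl rfl)
    · exact Or.inr (Or.inr ⟨(h.com i j (by omega) hj).symm,
        (h.com (i + 1) j (by omega) hj).symm⟩)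
  refine ⟨h1 i hi, fun hi2 u hu => ?_, fun hi2 u hu => ?_⟩
  · have hw := h1 i hi (i + 1) (by omega) (by omega) u hu
    have hk := (diff_mem_Kp h (i + 1) hi2).2
    have e : π (s (i + 2)) u =
        (π (s (i + 2) * (s (i + 1))⁻¹) (π (s (i + 1)) u) - π (s (i + 1)) u) + π (s (i + 1)) u := by
      rw [sub_add_cancel, ← Module.End.mul_apply, ← map_mul, inv_mul_cancel_right]
    rw [e]
    exact Submodule.add_mem _ (Submodule.mem_sup_right (Submodule.subset_span ⟨_, hk, _, rfl⟩))
      (Submodule.mem_sup_left hw)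
  · have hw := h1 (i + 1) hi2 (i + 1) (by omega) (by omega) u hu
    have hk := (diff_mem_Kp h i hi).1
    have e : π (s i) u =
        (π (s i * (s (i + 1))⁻¹) (π (s (i + 1)) u) - π (s (i + 1)) u) + π (s (i + 1)) u := by
      rw [sub_add_cancel, ← Module.End.mul_apply, ← map_mul, inv_mul_cancel_right]
    rw [e]
    exact Submodule.add_mem _ (Submodule.mem_sup_left (Submodule.subset_span ⟨_, hk, _, rfl⟩))
      (Submodule.mem_sup_right hw)
-- END TW4

-- MODULE TW5
private theorem TW5_eq {π : G →* Module.End ℂ V} (h : IsBr N s) (i : ℕ) (hi : i + 1 < N)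
    (hx : ∀ x ∈ Kp s i, π x = 1) : π (s i) = π (s (i + 1)) := by
  have h1 := hx _ (diff_mem_Kp h i hi).1
  have h2 : π (s i) = π (s i * (s (i + 1))⁻¹) * π (s (i + 1)) := by
    rw [← map_mul, inv_mul_cancel_right]
  rw [h2, h1, one_mul]

private theorem TW5_conj (π : G →* Module.End ℂ V) (g x : G) :
    π (g * x * g⁻¹) = 1 ↔ π x = 1 := by
  constructor
  · intro h
    have h1 : x = g⁻¹ * (g * x * g⁻¹) * g := by group
    rw [h1, map_mul, map_mul, h, mul_one, ← map_mul, inv_mul_cancel, map_one]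
  · intro h
    rw [map_mul, map_mul, h, mul_one, ← map_mul, mul_inv_cancel, map_one]

/-- PROOF. (1) The sum of all UU i, i + 1 < N (⨆ i, ⨆ (_ : i + 1 < N)), is stable under all π (s j) (TW4: j = i + 2 and j = i - 1 map UU i into the sum of two of them; every other j < N maps UU i into itself), so it is ⊥ or ⊤ (TW1). If it is ⊥ then
all π x = 1 for x ∈ Kp s i, so π (s i) = π (s (i+1)) (BR9) for all i + 1 < N: contradiction to TW2. (2) If π x = 1 for all x ∈ Kp s i then, for every i' with i' + 1 < N, π x = 1 for all x ∈ Kp s i' (conjugate by powers of D = del s 0 N: D^i maps s 0, s 1 to s i, s (i+1), BR5, BR8),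
so π (s i') = π (s (i'+1)) by BR9: contradiction to TW2. -/
theorem UU_top {π : G →* Module.End ℂ V} (h : Base N s π) :
    (∀ W : Submodule ℂ V, (∀ i, i + 1 < N → UU s π i ≤ W) → W = ⊤) ∧
    ∀ i, i + 1 < N → ∃ x ∈ Kp s i, π x ≠ 1 := by
  constructor
  · intro W hW
    have hle : ∀ i, i + 1 < N → UU s π i ≤ ⨆ i, ⨆ (_ : i + 1 < N), UU s π i := fun i hi =>
      le_iSup₂_of_le i hi le_rfl
    have hst : ∀ j, j < N → ∀ w ∈ ⨆ i, ⨆ (_ : i + 1 < N), UU s π i,
        π (s j) w ∈ ⨆ i, ⨆ (_ : i + 1 < N), UU s π i := by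
      intro j hj
      have h1 : (⨆ i, ⨆ (_ : i + 1 < N), UU s π i) ≤
          (⨆ i, ⨆ (_ : i + 1 < N), UU s π i).comap (π (s j)) := by
        refine iSup₂_le fun i hi u hu => ?_
        change π (s j) u ∈ ⨆ i, ⨆ (_ : i + 1 < N), UU s π i
        obtain ⟨g1, g2, g3⟩ := UU_gen h.br π i hi
        by_cases hji : j + 2 ≤ i ∨ j = i ∨ j = i + 1 ∨ i + 3 ≤ j
        · exact hle i hi (g1 j hj hji u hu)
        · by_cases h2 : j = i + 2
          · subst h2
            exact sup_le (hle i hi) (hle (i + 1) hj) (g2 hj u hu)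
          · obtain rfl : i = j + 1 := by omega
            exact sup_le (hle j (by omega)) (hle (j + 1) hi)
              ((UU_gen h.br π j (by omega)).2.2 (by omega) u hu)
      exact fun w hw => h1 hw
    rcases stable_bot_top h _ hst with hb | ht
    · exfalso
      refine not_all_equal h fun i hi => TW5_eq h.br i hi fun x hx => ?_
      ext v
      have h1 : π x v - v ∈ ⨆ i, ⨆ (_ : i + 1 < N), UU s π i :=
        hle i hi (Submodule.subset_span ⟨x, hx, v, rfl⟩)
      rw [hb] at h1
      exact sub_eq_zero.1 ((Submodule.mem_bot ℂ).1 h1)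
    · rw [eq_top_iff, ← ht]
      exact iSup₂_le fun i hi => hW i hi
  · intro i hi
    by_contra hcon
    push Not at hcon
    have h0 : ∀ j, j + 1 < N → (∀ x ∈ Kp s 0, π x = 1 ↔ True) → True := fun _ _ _ => trivial
    have hD : ∀ j, j + 1 < N → ∀ x, del s 0 N ^ j * x * (del s 0 N ^ j)⁻¹ ∈ Kp s j ↔
        x ∈ Kp s 0 := by
      intro j hj x
      refine Kp_conj s 0 j (del s 0 N ^ j) ?_ ?_ x
      · have := del_pow_conj h.br 0 N 0 j (by omega) (by omega) (by omega)
        rwa [zero_add] at this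
      · have := del_pow_conj h.br 0 N 1 j (by omega) (by omega) (by omega)
        rwa [add_comm 1 j] at this
    have hz : ∀ x ∈ Kp s 0, π x = 1 := fun x hx =>
      (TW5_conj π (del s 0 N ^ i) x).1 (hcon _ ((hD i hi x).2 hx))
    refine not_all_equal h fun j hj => TW5_eq h.br j hj fun y hy => ?_
    have h1 : y = del s 0 N ^ j * ((del s 0 N ^ j)⁻¹ * y * del s 0 N ^ j) * (del s 0 N ^ j)⁻¹ := by
      group
    rw [h1] at hy ⊢
    exact (TW5_conj π _ _).2 (hz _ ((hD j hj _).1 hy))
-- END TW5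

-- MODULE TW6
private theorem TW6_sub (s : ℕ → G) (i : ℕ) : Kp s i ≤ Subgroup.closure {s i, s (i + 1)} :=
  Subgroup.commutator_le.2 fun a ha b hb => Subgroup.mul_mem _ (Subgroup.mul_mem _
    (Subgroup.mul_mem _ ha hb) (Subgroup.inv_mem _ ha)) (Subgroup.inv_mem _ hb)

private theorem TW6_cl {S T : Set G} (h : ∀ a ∈ S, ∀ b ∈ T, Commute a b) (x y : G)
    (hx : x ∈ Subgroup.closure S) (hy : y ∈ Subgroup.closure T) : Commute x y := by
  have h1 : ∀ a ∈ S, Commute a y := by
    intro a ha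
    induction hy using Subgroup.closure_induction with
    | mem y hy => exact h a ha y hy
    | one => exact Commute.one_right a
    | mul y z _ _ hy hz => exact hy.mul_right hz
    | inv y _ hy => exact hy.inv_right
  induction hx using Subgroup.closure_induction with
  | mem x hx => exact h1 x hx
  | one => exact Commute.one_left y
  | mul x z _ _ hx hz => exact hx.mul_left hz
  | inv x _ hx => exact hx.inv_left

private theorem TW6_comm (h : IsBr N s) (i j : ℕ) (hij : i + 3 ≤ j) (hj : j + 2 ≤ N) (x y : G)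
    (hx : x ∈ Kp s i) (hy : y ∈ Kp s j) : Commute x y := by
  refine TW6_cl (S := {s i, s (i + 1)}) (T := {s j, s (j + 1)}) ?_ x y (TW6_sub s i hx)
    (TW6_sub s j hy)
  rintro a (rfl | rfl) b (rfl | rfl)
  · exact h.com i j (by omega) (by omega)
  · exact h.com i (j + 1) (by omega) (by omega)
  · exact h.com (i + 1) j (by omega) (by omega)
  · exact h.com (i + 1) (j + 1) (by omega) (by omega)

/-- PROOF. Kp s i and Kp s j commute elementwise for i + 3 ≤ j (the closures of {s i, s (i+1)} and {s j, s (j+1)} commute elementwise by com), so (π y - 1)(π x - 1) = (π x - 1)(π y - 1) = 0; so both kill. (1) u ∈ UU i (span_induction), y ∈ Kp s j: π y u = u. (2) u ∈ UU j, x ∈ Kp s i: π x u = u. -/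
theorem UU_fixed (h : IsBr N s) (π : G →* Module.End ℂ V) (hS : St N s π) (i j : ℕ)
    (hij : i + 3 ≤ j) (hj : j + 2 ≤ N) :
    (∀ y ∈ Kp s j, ∀ u ∈ UU s π i, π y u = u) ∧ ∀ x ∈ Kp s i, ∀ u ∈ UU s π j, π x u = u := by
  have hP := hS i j hij hj
  have hP' : ∀ x ∈ Kp s i, ∀ y ∈ Kp s j, (π y - 1) * (π x - 1) = 0 := by
    intro x hx y hy
    have h1 := TW6_comm h i j hij hj x y hx hy
    have h2 : π y * π x = π x * π y := by rw [← map_mul, ← map_mul, h1.eq]
    have h3 : (π y - 1) * (π x - 1) = (π x - 1) * (π y - 1) := by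
      rw [sub_mul, mul_sub, mul_sub, sub_mul, mul_sub, mul_sub, h2, one_mul, mul_one, one_mul,
        mul_one, one_mul]
      abel
    rw [h3]
    exact hP x hx y hy
  constructor
  · intro y hy u hu
    have h1 : UU s π i ≤ LinearMap.ker (π y - 1) := by
      refine Submodule.span_le.2 ?_
      rintro _ ⟨x, hx, v, rfl⟩
      exact LinearMap.mem_ker.2 (LinearMap.congr_fun (hP' x hx y hy) v)
    exact sub_eq_zero.1 (LinearMap.mem_ker.1 (h1 hu))
  · intro x hx u hu
    have h1 : UU s π j ≤ LinearMap.ker (π x - 1) := by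
      refine Submodule.span_le.2 ?_
      rintro _ ⟨y, hy, v, rfl⟩
      exact LinearMap.mem_ker.2 (LinearMap.congr_fun (hP x hx y hy) v)
    exact sub_eq_zero.1 (LinearMap.mem_ker.1 (h1 hu))
-- END TW6

-- MODULE TW7
private theorem TW7_step (π : G →* Module.End ℂ V) (c : ℕ) (u : V)
    (hk : π (s c * (s (c + 1))⁻¹) (π (s (c + 1)) u) = π (s (c + 1)) u) :
    π (s c) u = π (s (c + 1)) u := by
  rw [← hk, ← Module.End.mul_apply, ← map_mul, inv_mul_cancel_right]

/-- PROOF. (1) Right side: i + 3 ≤ c ≤ c': induction on c' - c; for i + 3 ≤ c, c + 1 < N: κ = (s c) * (s (c+1))⁻¹ ∈ Kp s c fixes UU i (TW6), and w = π (s (c+1)) u ∈ UU i (TW4), so π (s c) u = π κ w = w. (2) Left side: the same with c + 3 ≤ i (TW6 (2) for the pair c, i). (Wlog c ≤ c'.) -/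
theorem far_side (h : IsBr N s) (π : G →* Module.End ℂ V) (hS : St N s π) (i c c' : ℕ)
    (hi : i + 1 < N) (hc : c < N) (hc' : c' < N)
    (hcc : (i + 3 ≤ c ∧ i + 3 ≤ c') ∨ (c + 2 ≤ i ∧ c' + 2 ≤ i)) (u : V) (hu : u ∈ UU s π i) :
    π (s c) u = π (s c') u := by
  obtain ⟨g1, -, -⟩ := UU_gen h π i hi
  rcases hcc with ⟨k1, k2⟩ | ⟨k1, k2⟩
  · have key : ∀ d, i + 3 + d < N → π (s (i + 3 + d)) u = π (s (i + 3)) u := by
      intro d
      induction d with
      | zero => exact fun _ => rfl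
      | succ d ih =>
        intro hd
        rw [← ih (by omega)]
        refine (TW7_step π (i + 3 + d) u ?_).symm
        exact (UU_fixed h π hS i (i + 3 + d) (by omega) (by omega)).1 _
          (diff_mem_Kp h (i + 3 + d) (by omega)).1 _
          (g1 (i + 3 + d + 1) (by omega) (by omega) u hu)
    obtain ⟨a, rfl⟩ := Nat.exists_eq_add_of_le k1
    obtain ⟨b, rfl⟩ := Nat.exists_eq_add_of_le k2
    rw [key a hc, key b hc']
  · have key : ∀ d, d + 2 ≤ i → π (s d) u = π (s 0) u := by
      intro d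
      induction d with
      | zero => exact fun _ => rfl
      | succ d ih =>
        intro hd
        rw [← ih (by omega)]
        refine (TW7_step π d u ?_).symm
        exact (UU_fixed h π hS d i (by omega) (by omega)).2 _
          (diff_mem_Kp h d (by omega)).1 _ (g1 (d + 1) (by omega) (by omega) u hu)
    rw [key c k1, key c' k2]
-- END TW7

-- MODULE TW8
private theorem TW8_word {a b c d : G} (hac : a * c = c * a) (had : a * d = d * a)
    (hbd : b * d = d * b) (hab : a * b * a = b * a * b) (hbc : b * c * b = c * b * c)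
    (hcd : c * d * c = d * c * d) : b * c * d * (a * b * c) * d = a * (b * c * d * (a * b * c)) := by
  have e1 : ∀ x, d * (a * x) = a * (d * x) := fun x => by rw [← mul_assoc, ← had, mul_assoc]
  have e2 : ∀ x, d * (b * x) = b * (d * x) := fun x => by rw [← mul_assoc, ← hbd, mul_assoc]
  have e3 : d * (c * d) = c * (d * c) := by rw [← mul_assoc, ← hcd, mul_assoc]
  have e4 : ∀ x, c * (a * x) = a * (c * x) := fun x => by rw [← mul_assoc, ← hac, mul_assoc]
  have e5 : ∀ x, a * (b * (a * x)) = b * (a * (b * x)) := fun x => by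
    rw [← mul_assoc, ← mul_assoc, hab, mul_assoc, mul_assoc]
  have e6 : ∀ x, b * (c * (b * x)) = c * (b * (c * x)) := fun x => by
    rw [← mul_assoc, ← mul_assoc, hbc, mul_assoc, mul_assoc]
  simp only [mul_assoc]
  rw [e1, e2, e3, e1, e2, e4, e4, e5, e6]

private theorem TW8_spec (h : IsBr N s) (π : G →* Module.End ℂ V) (hS : St N s π) (hN : 5 < N)
    (u : V) (hu : u ∈ UU s π 2) : π (s 0) u = π (s 5) u := by
  obtain ⟨g, hg⟩ : ∃ g, g = del s 1 3 * del s 0 3 := ⟨_, rfl⟩
  have g0 : g * s 0 = s 2 * g := by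
    rw [hg, mul_assoc, del_conj h 0 3 0 (by omega) (by omega) (by omega), ← mul_assoc,
      del_conj h 1 3 1 (by omega) (by omega) (by omega), mul_assoc]
  have g1 : g * s 1 = s 3 * g := by
    rw [hg, mul_assoc, del_conj h 0 3 1 (by omega) (by omega) (by omega), ← mul_assoc,
      del_conj h 1 3 2 (by omega) (by omega) (by omega), mul_assoc]
  have g5 : g * s 5 = s 5 * g := by
    rw [hg, mul_assoc, del_out h 0 3 5 (by omega) (by omega) (by omega), ← mul_assoc,
      del_out h 1 3 5 (by omega) (by omega) (by omega), mul_assoc]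
  have g3 : g * s 3 = s 0 * g := by
    have h1 : del s 1 3 = s 1 * s 2 * s 3 := by
      simp [del]
    have h2 : del s 0 3 = s 0 * s 1 * s 2 := by
      simp [del]
    rw [hg, h1, h2]
    exact TW8_word (h.com 0 2 (by omega) (by omega)) (h.com 0 3 (by omega) (by omega))
      (h.com 1 3 (by omega) (by omega)) (h.brd 0 (by omega)) (h.brd 1 (by omega))
      (h.brd 2 (by omega))
  have i0 : g⁻¹ * s 2 = s 0 * g⁻¹ := by
    rw [inv_mul_eq_iff_eq_mul, ← mul_assoc, g0, mul_inv_cancel_right]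
  have i1 : g⁻¹ * s (2 + 1) = s (0 + 1) * g⁻¹ := by
    rw [inv_mul_eq_iff_eq_mul, ← mul_assoc]
    rw [show (0 + 1 : ℕ) = 1 from rfl, show (2 + 1 : ℕ) = 3 from rfl, g1, mul_inv_cancel_right]
  have hu' := UU_conj π 2 0 g⁻¹ i0 i1 u hu
  have hfar := far_side h π hS 0 3 5 (by omega) (by omega) (by omega) (by omega) _ hu'
  have e1 : u = π g (π g⁻¹ u) := by
    rw [← Module.End.mul_apply, ← map_mul, mul_inv_cancel, map_one, Module.End.one_apply]
  calc π (s 0) u = π (s 0) (π g (π g⁻¹ u)) := by rw [← e1]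
    _ = π g (π (s 3) (π g⁻¹ u)) := by
      rw [← Module.End.mul_apply, ← map_mul, ← g3, map_mul, Module.End.mul_apply]
    _ = π g (π (s 5) (π g⁻¹ u)) := by rw [hfar]
    _ = π (s 5) (π g (π g⁻¹ u)) := by
      rw [← Module.End.mul_apply, ← map_mul, g5, map_mul, Module.End.mul_apply]
    _ = π (s 5) u := by rw [← e1]

private theorem TW8_two (h : IsBr N s) (π : G →* Module.End ℂ V) (hS : St N s π) (i c c' : ℕ)
    (hi : i + 1 < N) (hc : c < N) (hc' : c' < N) (h1 : c + 2 ≤ i)
    (h2 : i + 3 ≤ c') (u : V) (hu : u ∈ UU s π i) : π (s c) u = π (s c') u := by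
  obtain ⟨k, rfl⟩ : ∃ k, i = 2 + k := ⟨i - 2, by omega⟩
  rw [far_side h π hS (2 + k) c k hi hc (by omega) (by omega) u hu,
    far_side h π hS (2 + k) c' (5 + k) hi hc' (by omega) (by omega) u hu]
  obtain ⟨D, hD⟩ : ∃ D, D = del s 0 N ^ k := ⟨_, rfl⟩
  have hj : ∀ j, j + k < N → D * s j = s (j + k) * D := by
    intro j hj
    rw [hD]
    exact del_pow_conj h 0 N j k (by omega) (by omega) (by omega)
  have i0 : D⁻¹ * s (2 + k) = s 2 * D⁻¹ := by
    rw [inv_mul_eq_iff_eq_mul, ← mul_assoc, hj 2 (by omega), mul_inv_cancel_right]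
  have i1 : D⁻¹ * s (2 + k + 1) = s (2 + 1) * D⁻¹ := by
    rw [inv_mul_eq_iff_eq_mul, ← mul_assoc, hj (2 + 1) (by omega), mul_inv_cancel_right]
    congr 1
    omega
  have hu' := UU_conj π (2 + k) 2 D⁻¹ i0 i1 u hu
  have hsp := TW8_spec h π hS (by omega) _ hu'
  have e1 : u = π D (π D⁻¹ u) := by
    rw [← Module.End.mul_apply, ← map_mul, mul_inv_cancel, map_one, Module.End.one_apply]
  have h0 := hj 0 (by omega)
  rw [zero_add] at h0
  calc π (s k) u = π (s k) (π D (π D⁻¹ u)) := by rw [← e1]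
    _ = π D (π (s 0) (π D⁻¹ u)) := by
      rw [← Module.End.mul_apply, ← map_mul, ← h0, map_mul, Module.End.mul_apply]
    _ = π D (π (s 5) (π D⁻¹ u)) := by rw [hsp]
    _ = π (s (5 + k)) (π D (π D⁻¹ u)) := by
      rw [← Module.End.mul_apply, ← map_mul, hj 5 (by omega), map_mul, Module.End.mul_apply]
    _ = π (s (5 + k)) u := by rw [← e1]

/-- PROOF. (1) i = 2, c = 0, c' = 5: g = del s 1 3 * del s 0 3. g * s 0 = s 2 * g, g * s 1 = s 3 * g (BR3 twice), g * s 3 = s 0 * g [g = s 1 s 2 s 3 s 0 s 1 s 2; s 3 commutes with s 0, s 1, so g s 3 = (s 1 s 2)(s 3 s 0 s 1 s 2 s 3) = (s 1 s 2)(s 0 s 1)(s 3 s 2 s 3) = (s 1 s 2)(s 0 s 1)(s 2 s 3 s 2) and s 0 g = s 0 s 1 s 2 s 3 s 0 s 1 s 2 = s 0 s 1 s 2 s 0 s 1 s 3 s 2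
= s 0 s 1 s 0 s 2 s 1 s 3 s 2 = s 1 s 0 s 1 s 2 s 1 s 3 s 2 = s 1 s 0 s 2 s 1 s 2 s 3 s 2 = s 1 s 2 s 0 s 1 s 2 s 3 s 2], and g * s 5 = s 5 * g (BR2). Let u ∈ UU 2. u' = π g⁻¹ u ∈ UU 0 (TW3 for g⁻¹: g⁻¹ * s 2 = s 0 * g⁻¹). π (s 0) u = π (s 0 * g) u' = π g (π (s 3) u') = π g (π (s 5) u') (TW7 for i = 0)
= π (s 5) u. (2) General: c and c' on the same side: TW7. Otherwise wlog c + 2 ≤ i, i + 3 ≤ c'; by TW7 we may take c = i - 2, c' = i + 3 (< N). With D = (del s 0 N)^(i-2): D * s j = s (j+i-2) * D for j = 0, 2, 3, 5 (BR5; 5 + i - 2 < N), u' = π D⁻¹ u ∈ UU 2, and (1) is conjugated. -/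
theorem far_agree (h : IsBr N s) (π : G →* Module.End ℂ V) (hS : St N s π) (i c c' : ℕ)
    (hi : i + 1 < N) (hc : c < N) (hc' : c' < N) (h1 : i + 3 ≤ c ∨ c + 2 ≤ i)
    (h2 : i + 3 ≤ c' ∨ c' + 2 ≤ i) (u : V) (hu : u ∈ UU s π i) : π (s c) u = π (s c') u := by
  rcases h1 with h1 | h1
  · rcases h2 with h2 | h2
    · exact far_side h π hS i c c' hi hc hc' (Or.inl ⟨h1, h2⟩) u hu
    · exact (TW8_two h π hS i c' c hi hc' hc h2 h1 u hu).symm
  · rcases h2 with h2 | h2
    · exact TW8_two h π hS i c c' hi hc hc' h1 h2 u hu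
    · exact far_side h π hS i c c' hi hc hc' (Or.inr ⟨h1, h2⟩) u hu
-- END TW8

-- MODULE TW9
/-- Stable subspaces of V × V. PROOF. Y = {v | (0, v) ∈ X} is stable under all π (s i), so Y = ⊥ or ⊤ (TW1). If Y = ⊤ then X = ⊤ (for (a, b): there is (a, b') ∈ X, and (0, b - b') ∈ X), dim X = 2 dim V, contradiction. So Y = ⊥: for every v there is exactly one T v with (v, T v) ∈ X; T is linear
and commutes with all π (s i). T has an eigenvalue lam; the eigenspace {v | T v = lam v} is stable and non-zero, so it is ⊤. -/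
theorem graph_scalar {π : G →* Module.End ℂ V} (h : Base N s π) (X : Submodule ℂ (V × V))
    (hX : ∀ i, i < N → ∀ p ∈ X, (π (s i) p.1, π (s i) p.2) ∈ X)
    (h1 : ∀ v, ∃ v', (v, v') ∈ X) (hd : Module.finrank ℂ X < 2 * Module.finrank ℂ V) :
    ∃ lam : ℂ, ∀ p ∈ X, p.2 = lam • p.1 := by
  haveI : FiniteDimensional ℂ V := FiniteDimensional.of_finrank_pos (by have := h.dim; omega)
  haveI : Nontrivial V := Module.nontrivial_of_finrank_pos (R := ℂ) (by have := h.dim; omega)
  have hY : X.comap (LinearMap.inr ℂ V V) = ⊥ := by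
    rcases stable_bot_top h (X.comap (LinearMap.inr ℂ V V)) (by
      intro i hi w hw
      have h2 := hX i hi _ hw
      simp only [LinearMap.inr_apply, map_zero] at h2
      exact h2) with h2 | h2
    · exact h2
    · exfalso
      have h3 : X = ⊤ := by
        rw [eq_top_iff]
        rintro ⟨a, b⟩ -
        obtain ⟨b', hb'⟩ := h1 a
        have h4 : (0, b - b') ∈ X := by
          have h5 : b - b' ∈ X.comap (LinearMap.inr ℂ V V) := by rw [h2]; trivial
          exact h5
        have h5 := X.add_mem hb' h4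
        rw [Prod.mk_add_mk, add_zero, add_sub_cancel] at h5
        exact h5
      rw [h3, finrank_top, Module.finrank_prod] at hd
      omega
  have huniq : ∀ v a b, (v, a) ∈ X → (v, b) ∈ X → a = b := by
    intro v a b ha hb
    have h2 := X.sub_mem ha hb
    rw [Prod.mk_sub_mk, sub_self] at h2
    have h3 : a - b ∈ X.comap (LinearMap.inr ℂ V V) := h2
    rw [hY, Submodule.mem_bot] at h3
    exact sub_eq_zero.1 h3
  choose f hf using h1
  let T : V →ₗ[ℂ] V :=
    { toFun := f
      map_add' := fun v w => huniq _ _ _ (hf _) (X.add_mem (hf v) (hf w))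
      map_smul' := fun r v => huniq _ _ _ (hf _) (X.smul_mem r (hf v)) }
  have hT : ∀ v, T v = f v := fun _ => rfl
  have hcomm : ∀ i, i < N → ∀ v, T (π (s i) v) = π (s i) (T v) := fun i hi v =>
    huniq _ _ _ (hf _) (hX i hi _ (hf v))
  obtain ⟨lam, hlam⟩ := Module.End.exists_eigenvalue T
  have hE : Module.End.eigenspace T lam = ⊤ := by
    rcases stable_bot_top h (Module.End.eigenspace T lam) (by
      intro i hi w hw
      rw [Module.End.mem_eigenspace_iff] at hw ⊢
      rw [hcomm i hi, hw, map_smul]) with h2 | h2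
    · exact absurd h2 hlam
    · exact h2
  refine ⟨lam, ?_⟩
  rintro ⟨a, b⟩ hp
  have h2 : a ∈ Module.End.eigenspace T lam := by rw [hE]; trivial
  rw [Module.End.mem_eigenspace_iff] at h2
  rw [← h2]
  exact huniq _ _ _ hp (hf a)
-- END TW9

-- MODULE TW10
/-- The map `v ↦ (v, π (s c) v)`. -/
private def TW10_L (s : ℕ → G) (π : G →* Module.End ℂ V) (c : ℕ) : V →ₗ[ℂ] V × V :=
  LinearMap.prod LinearMap.id (π (s c))

private theorem TW10_L_apply (π : G →* Module.End ℂ V) (c : ℕ) (v : V) :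
    TW10_L s π c v = (v, π (s c) v) := rfl

/-- The subspace. -/
private def TW10_X (N : ℕ) (s : ℕ → G) (π : G →* Module.End ℂ V) : Submodule ℂ (V × V) :=
  ⨆ (i : ℕ) (c : ℕ) (_ : i + 1 < N ∧ c < N ∧ (i + 3 ≤ c ∨ c + 2 ≤ i)),
    (UU s π i).map (TW10_L s π c)

private theorem TW10_mem (π : G →* Module.End ℂ V) (i c : ℕ)
    (hi : i + 1 < N) (hc : c < N) (h1 : i + 3 ≤ c ∨ c + 2 ≤ i) (u : V) (hu : u ∈ UU s π i) :
    TW10_L s π c u ∈ TW10_X N s π := by
  refine Submodule.mem_iSup_of_mem i (Submodule.mem_iSup_of_mem c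
    (Submodule.mem_iSup_of_mem ⟨hi, hc, h1⟩ ?_))
  exact Submodule.mem_map_of_mem hu

private theorem TW10_le (π : G →* Module.End ℂ V) (W : Submodule ℂ (V × V))
    (hW : ∀ i c, i + 1 < N → c < N → (i + 3 ≤ c ∨ c + 2 ≤ i) → ∀ u ∈ UU s π i,
      TW10_L s π c u ∈ W) : TW10_X N s π ≤ W := by
  refine iSup_le fun i => iSup_le fun c => iSup_le fun hh => ?_
  rintro _ ⟨u, hu, rfl⟩
  exact hW i c hh.1 hh.2.1 hh.2.2 u hu

private theorem TW10_stab {π : G →* Module.End ℂ V} (h : Base N s π) (hS : St N s π) (hN : 7 ≤ N)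
    (j : ℕ) (hj : j < N) (p : V × V) (hp : p ∈ TW10_X N s π) :
    (π (s j) p.1, π (s j) p.2) ∈ TW10_X N s π := by
  have hcm : ∀ a b v, s a * s b = s b * s a → π (s a) (π (s b) v) = π (s b) (π (s a) v) := by
    intro a b v hab
    rw [← Module.End.mul_apply, ← map_mul, hab, map_mul, Module.End.mul_apply]
  have key : TW10_X N s π ≤ (TW10_X N s π).comap ((π (s j)).prodMap (π (s j))) := by
    refine TW10_le π _ ?_
    intro i c hi hc h1 u hu
    rw [Submodule.mem_comap]
    have hL : ∀ c', c' < N → (i + 3 ≤ c' ∨ c' + 2 ≤ i) → TW10_L s π c u = TW10_L s π c' u := by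
      intro c' hc' h2
      rw [TW10_L_apply, TW10_L_apply, far_agree h.br π hS i c c' hi hc hc' h1 h2 u hu]
    have hM : ∀ c', s j * s c' = s c' * s j →
        (π (s j)).prodMap (π (s j)) (TW10_L s π c' u) = TW10_L s π c' (π (s j) u) := by
      intro c' hcc
      rw [TW10_L_apply, TW10_L_apply, LinearMap.prodMap_apply]
      simp only
      rw [hcm j c' u hcc]
    obtain ⟨t1, -, -⟩ := UU_gen h.br π i hi
    by_cases ha : i + 3 ≤ j ∨ j + 2 ≤ i
    · rw [hL j hj ha, hM j rfl]
      exact TW10_mem π i j hi hj ha _ (t1 j hj (by omega) u hu)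
    by_cases hb : j = i ∨ j = i + 1
    · have hcc : s j * s c = s c * s j := by
        rcases h1 with h1 | h1
        · exact h.br.com j c (by omega) hc
        · exact (h.br.com c j (by omega) hj).symm
      rw [hM c hcc]
      exact TW10_mem π i c hi hc h1 _ (t1 j hj (by omega) u hu)
    by_cases hd : j = i + 2
    · subst hd
      obtain ⟨c', hc', h2⟩ : ∃ c', c' < N ∧ (c' + 2 ≤ i ∨ i + 4 ≤ c') := by
        by_cases h2 : 2 ≤ i
        · exact ⟨0, by omega, by omega⟩
        · exact ⟨5, by omega, by omega⟩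
      have hcc : s (i + 2) * s c' = s c' * s (i + 2) := by
        rcases h2 with h2 | h2
        · exact (h.br.com c' (i + 2) (by omega) hj).symm
        · exact h.br.com (i + 2) c' (by omega) hc'
      have t2 := (UU_gen h.br π i hi).2.1 hj u hu
      obtain ⟨a, ha', b, hb', hab⟩ := Submodule.mem_sup.1 t2
      rw [hL c' hc' (by omega), hM c' hcc, ← hab, map_add]
      exact Submodule.add_mem _ (TW10_mem π i c' hi hc' (by omega) _ ha')
        (TW10_mem π (i + 1) c' (by omega) hc' (by omega) _ hb')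
    · obtain ⟨k, rfl⟩ : ∃ k, i = k + 1 := ⟨i - 1, by omega⟩
      have hjk : j = k := by omega
      subst hjk
      obtain ⟨c', hc', h2⟩ : ∃ c', c' < N ∧ (c' + 2 ≤ j ∨ j + 4 ≤ c') := by
        by_cases h2 : 2 ≤ j
        · exact ⟨0, by omega, by omega⟩
        · exact ⟨5, by omega, by omega⟩
      have hcc : s j * s c' = s c' * s j := by
        rcases h2 with h2 | h2
        · exact (h.br.com c' j (by omega) hj).symm
        · exact h.br.com j c' (by omega) hc'
      have t2 := (UU_gen h.br π j (by omega)).2.2 (by omega) u hu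
      obtain ⟨a, ha', b, hb', hab⟩ := Submodule.mem_sup.1 t2
      rw [hL c' hc' (by omega), hM c' hcc, ← hab, map_add]
      exact Submodule.add_mem _ (TW10_mem π j c' (by omega) hc' (by omega) _ ha')
        (TW10_mem π (j + 1) c' (by omega) hc' (by omega) _ hb')
  exact key hp

/-- PROOF. For i + 1 < N let c(i) = N - 1 if i ≤ 2 and c(i) = 0 if 3 ≤ i (far from i since 7 ≤ N). X i = {(u, π (s c(i)) u) : u ∈ UU i} (the image of UU i under the linear map v ↦ (v, π (s c(i)) v)), X = ⨆ X i = XP ⊔ XQ with XP = image of P = UU 0 ⊔ UU 1 ⊔ UU 2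
under v ↦ (v, π (s (N-1)) v) and XQ = image of Q = ⨆ (3 ≤ i, i + 1 < N) UU i under v ↦ (v, π (s 0) v). dim XP ≤ dim V; Q is fixed by Kp s 0 (TW6 (2): 0 + 3 ≤ i), and Kp s 0 contains x with π x ≠ 1 (TW5), so Q ≠ ⊤ and dim XQ ≤ dim Q < dim V: dim X < 2 dim V. h1 of TW9: the projection of X to the first factor is
⨆ UU i = ⊤ (TW5). Stability of X under (π (s j), π (s j)): let u ∈ UU i and p = (u, π (s c) u), where c is ANY c far from i (TW8: the element does not depend on c). (a) j ∉ {i-1, i+2}: j far: take c = j; j ∈ {i, i+1}: any far c; then s c and s j commute, π (s j) u ∈ UU i (TW4), so the image of p is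
(u', π (s c) u') with u' ∈ UU i. (b) j = i + 2 < N (so i + 1 + 1 < N): take c with c + 2 ≤ i or i + 4 ≤ c < N (it exists: i ≥ 2 or i + 4 < N since N ≥ 7), far from i and from i + 1, commuting with s (i+2). π (s j) u = a + b, a ∈ UU i, b ∈ UU (i+1) (TW4), the image of p is (a, π (s c) a) + (b, π (s c) b). (c) j = i - 1 (i ≥ 1): the
same with i - 1, i: c + 2 ≤ i - 1 or i + 3 ≤ c; it commutes with s (i-1). So TW9 gives lam with π (s c(i)) u = lam • u, and TW8 gives all far c. -/
theorem far_scalar {π : G →* Module.End ℂ V} (h : Base N s π) (hS : St N s π) (hN : 7 ≤ N) :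
    ∃ lam : ℂ, ∀ i c, i + 1 < N → c < N → (i + 3 ≤ c ∨ c + 2 ≤ i) → ∀ u ∈ UU s π i,
      π (s c) u = lam • u := by
  haveI : FiniteDimensional ℂ V := FiniteDimensional.of_finrank_pos (by have := h.dim; omega)
  obtain ⟨x, hx, hx1⟩ := (UU_top h).2 0 (by omega)
  have hQ : ∀ i, 3 ≤ i → i + 1 < N → UU s π i ≤ LinearMap.ker (π x - 1) := by
    intro i hi hiN u hu
    rw [LinearMap.mem_ker, LinearMap.sub_apply, Module.End.one_apply,
      (UU_fixed h.br π hS 0 i (by omega) (by omega)).2 x hx u hu, sub_self]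
  have hQt : LinearMap.ker (π x - 1) < ⊤ := by
    rw [lt_top_iff_ne_top]
    intro h2
    rw [LinearMap.ker_eq_top, sub_eq_zero] at h2
    exact hx1 h2
  have hXle : TW10_X N s π ≤ (⊤ : Submodule ℂ V).map (TW10_L s π (N - 1)) ⊔
      (LinearMap.ker (π x - 1)).map (TW10_L s π 0) := by
    refine TW10_le π _ ?_
    intro i c hi hc h1 u hu
    by_cases h2 : i ≤ 2
    · refine Submodule.mem_sup_left ⟨u, trivial, ?_⟩
      rw [TW10_L_apply, TW10_L_apply, far_agree h.br π hS i c (N - 1) hi hc (by omega) h1 (by omega) u hu]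
    · refine Submodule.mem_sup_right ⟨u, hQ i (by omega) hi hu, ?_⟩
      rw [TW10_L_apply, TW10_L_apply, far_agree h.br π hS i c 0 hi hc (by omega) h1 (by omega) u hu]
  have hd : Module.finrank ℂ (TW10_X N s π) < 2 * Module.finrank ℂ V := by
    have d1 := Submodule.finrank_mono hXle
    have d2 := Submodule.finrank_add_le_finrank_add_finrank
      ((⊤ : Submodule ℂ V).map (TW10_L s π (N - 1))) ((LinearMap.ker (π x - 1)).map (TW10_L s π 0))
    have d3 := Submodule.finrank_map_le (TW10_L s π (N - 1)) (⊤ : Submodule ℂ V)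
    have d4 := Submodule.finrank_map_le (TW10_L s π 0) (LinearMap.ker (π x - 1))
    have d5 := Submodule.finrank_lt hQt.ne
    rw [finrank_top] at d3
    omega
  obtain ⟨lam, hlam⟩ := graph_scalar h (TW10_X N s π)
    (fun i hi p hp => TW10_stab h hS hN i hi p hp) (by
      intro v
      have h2 : (TW10_X N s π).map (LinearMap.fst ℂ V V) = ⊤ := by
        refine (UU_top h).1 _ ?_
        intro i hi u hu
        obtain ⟨c, hc, h3⟩ : ∃ c, c < N ∧ (i + 3 ≤ c ∨ c + 2 ≤ i) := by
          by_cases h4 : i ≤ 2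
          · exact ⟨N - 1, by omega, by omega⟩
          · exact ⟨0, by omega, by omega⟩
        exact ⟨_, TW10_mem π i c hi hc h3 u hu, rfl⟩
      have h3 : v ∈ (TW10_X N s π).map (LinearMap.fst ℂ V V) := by rw [h2]; trivial
      obtain ⟨⟨a, b⟩, hp, hab⟩ := h3
      refine ⟨b, ?_⟩
      have h4 : a = v := hab
      rw [← h4]
      exact hp) hd
  refine ⟨lam, fun i c hi hc h1 u hu => ?_⟩
  exact hlam _ (TW10_mem π i c hi hc h1 u hu)
-- END TW10

/-- the operators `π (s i) - lam` -/
def nn (s : ℕ → G) (π : G →* Module.End ℂ V) (lam : ℂ) (i : ℕ) : Module.End ℂ V :=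
  π (s i) - lam • 1

-- MODULE TH1
private theorem TH1_conj (π : G →* Module.End ℂ V) (lam : ℂ) (i j i' j' : ℕ) (g : G)
    (h0 : g * s i = s i' * g) (h1 : g * s j = s j' * g) (hz : nn s π lam i * nn s π lam j = 0) :
    nn s π lam i' * nn s π lam j' = 0 := by
  have key : ∀ a b, g * s a = s b * g → π g * nn s π lam a = nn s π lam b * π g := by
    intro a b hab
    unfold nn
    rw [mul_sub, sub_mul, ← map_mul, hab, map_mul, mul_smul_comm, smul_mul_assoc, mul_one, one_mul]
  have h2 : nn s π lam i' * nn s π lam j' * π g = 0 := by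
    rw [mul_assoc, ← key j j' h1, ← mul_assoc, ← key i i' h0, mul_assoc, hz, mul_zero]
  calc nn s π lam i' * nn s π lam j' = nn s π lam i' * nn s π lam j' * (π g * π g⁻¹) := by
        rw [← map_mul, mul_inv_cancel, map_one, mul_one]
    _ = 0 := by rw [← mul_assoc, h2, zero_mul]

/-- PROOF. lam from TW10, n i = nn s π lam i. (1) n 0 * n (N-1) = 0: it kills UU i for i ≥ 2 (n 0 u = 0; the two operators commute) and for i ≤ N - 4 (n (N-1) u = 0); one of them holds since N ≥ 7; TW5 (1) with W = the kernel. (2) For i + 2 ≤ j < N and g ∈ G with g * s i = s i' * g, g * s j = s j' * g: n i' * n j' =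
π g * (n i * n j) * π g⁻¹. From (0, N-1) to (0, e) for 2 ≤ e < N: g = ((del s 2 (N-2))^(N-1-e))⁻¹ (it commutes with s 0 by BR2 and maps s (N-1) to s e, BR5). From (0, e) to (i, i + e): g = (del s 0 N)^i (BR5). (3) lam ≠ 0: otherwise π (s 0) * π (s 2) = 0, but it is invertible (V is nontrivial). -/
theorem exists_lam {π : G →* Module.End ℂ V} (h : Base N s π) (hS : St N s π) (hN : 7 ≤ N) :
    ∃ lam : ℂ, lam ≠ 0 ∧ ∀ i j, i + 2 ≤ j → j < N → nn s π lam i * nn s π lam j = 0 := by
  obtain ⟨lam, hlam⟩ := far_scalar h hS hN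
  have hn : ∀ i c, i + 1 < N → c < N → (i + 3 ≤ c ∨ c + 2 ≤ i) → ∀ u ∈ UU s π i,
      nn s π lam c u = 0 := by
    intro i c hi hc h1 u hu
    unfold nn
    rw [LinearMap.sub_apply, hlam i c hi hc h1 u hu, LinearMap.smul_apply, Module.End.one_apply,
      sub_self]
  have hcomm : nn s π lam 0 * nn s π lam (N - 1) = nn s π lam (N - 1) * nn s π lam 0 := by
    have h1 : π (s 0) * π (s (N - 1)) = π (s (N - 1)) * π (s 0) := by
      rw [← map_mul, h.br.com 0 (N - 1) (by omega) (by omega), map_mul]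
    unfold nn
    rw [sub_mul, mul_sub, mul_sub, sub_mul, mul_sub, mul_sub, h1]
    simp only [mul_smul_comm, smul_mul_assoc, mul_one, one_mul]
    abel
  have h0 : nn s π lam 0 * nn s π lam (N - 1) = 0 := by
    have h1 : LinearMap.ker (nn s π lam 0 * nn s π lam (N - 1)) = ⊤ := by
      refine (UU_top h).1 _ ?_
      intro i hi u hu
      rw [LinearMap.mem_ker]
      by_cases h2 : 2 ≤ i
      · rw [hcomm, Module.End.mul_apply, hn i 0 hi (by omega) (by omega) u hu, map_zero]
      · rw [Module.End.mul_apply, hn i (N - 1) hi (by omega) (by omega) u hu, map_zero]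
    rwa [LinearMap.ker_eq_top] at h1
  have he : ∀ e, 2 ≤ e → e < N → nn s π lam 0 * nn s π lam e = 0 := by
    intro e h2 heN
    have h3 := del_pow_conj h.br 2 (N - 2) e (N - 1 - e) (by omega) h2 (by omega)
    rw [show e + (N - 1 - e) = N - 1 by omega] at h3
    have h4 := del_out h.br 2 (N - 2) 0 (by omega) (by omega) (by omega)
    have h5 : del s 2 (N - 2) ^ (N - 1 - e) * s 0 = s 0 * del s 2 (N - 2) ^ (N - 1 - e) := by
      have h6 : Commute (del s 2 (N - 2)) (s 0) := h4
      exact h6.pow_left _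
    refine TH1_conj π lam 0 (N - 1) 0 e (del s 2 (N - 2) ^ (N - 1 - e))⁻¹ ?_ ?_ h0
    · rw [inv_mul_eq_iff_eq_mul, ← mul_assoc, h5, mul_inv_cancel_right]
    · rw [inv_mul_eq_iff_eq_mul, ← mul_assoc, h3, mul_inv_cancel_right]
  have hall : ∀ i j, i + 2 ≤ j → j < N → nn s π lam i * nn s π lam j = 0 := by
    intro i j hij hj
    have h3 := del_pow_conj h.br 0 N 0 i (by omega) (by omega) (by omega)
    have h4 := del_pow_conj h.br 0 N (j - i) i (by omega) (by omega) (by omega)
    rw [zero_add] at h3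
    rw [show j - i + i = j by omega] at h4
    exact TH1_conj π lam 0 (j - i) i j _ h3 h4 (he (j - i) (by omega) (by omega))
  refine ⟨lam, ?_, hall⟩
  rintro rfl
  have h1 := hall 0 2 (by omega) (by omega)
  unfold nn at h1
  rw [zero_smul, sub_zero, sub_zero, ← map_mul] at h1
  have h2 : (1 : Module.End ℂ V) = 0 := by
    rw [← map_one π, ← mul_inv_cancel (s 0 * s 2), map_mul, h1, zero_mul]
  haveI : Nontrivial V := Module.nontrivial_of_finrank_pos (R := ℂ) (by have := h.dim; omega)
  obtain ⟨v, hv⟩ := exists_ne (0 : V)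
  apply hv
  have h3 := LinearMap.congr_fun h2 v
  rw [Module.End.one_apply, LinearMap.zero_apply] at h3
  exact h3
-- END TH1

end Pool.Agent.QB54
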